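import Mathlib

/-!
# Elementary sums of the divisor function
-/

namespace Pool.Agent.helper85.BVP

open Finset Real

/-- number of divisors. -/
noncomputable def tau (n : ℕ) : ℝ := #n.divisors

lemma tau_nonneg (n : ℕ) : 0 ≤ tau n := Nat.cast_nonneg _

lemma tau_mul_le (m n : ℕ) : tau (m * n) ≤ tau m * tau n := by
  unfold tau
  rw [Nat.divisors_mul]
  exact_mod_cast card_mul_le

lemma harm_le (n : ℕ) : ∑ b ∈ Ioc 0 n, 1 / (b : ℝ) ≤ 1 + Real.log n := by
  have h := harmonic_le_one_add_log n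
  rw [harmonic_eq_sum_Icc] at h
  push_cast at h
  refine le_trans (le_of_eq ?_) h
  have : Ioc 0 n = Icc 1 n := by ext; simp [Nat.succ_le_iff]
  rw [this]
  exact sum_congr rfl fun b _ => one_div _

lemma log_nat_le {m n : ℕ} (h : m ≤ n) : Real.log m ≤ Real.log n := by
  rcases Nat.eq_zero_or_pos m with rfl | hm
  · simp [Real.log_natCast_nonneg]
  · exact Real.log_le_log (by exact_mod_cast hm) (by exact_mod_cast h)

/-- interchanging a sum over divisors. -/
lemma sum_divisors_swap (f : ℕ → ℕ → ℝ) (x : ℕ) :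
    ∑ n ∈ Ioc 0 x, ∑ d ∈ n.divisors, f n d = ∑ d ∈ Ioc 0 x, ∑ m ∈ Ioc 0 (x / d), f (d * m) d := by
  have h1 : ∀ n ∈ Ioc 0 x, ∑ d ∈ n.divisors, f n d = ∑ d ∈ Ioc 0 x, if d ∣ n then f n d else 0 := by
    intro n hn
    rw [mem_Ioc] at hn
    rw [← sum_filter]
    refine sum_congr ?_ (fun _ _ => rfl)
    ext d
    rw [Nat.mem_divisors, mem_filter, mem_Ioc]
    constructor
    · rintro ⟨h1, h2⟩
      exact ⟨⟨Nat.pos_of_dvd_of_pos h1 hn.1, (Nat.le_of_dvd hn.1 h1).trans hn.2⟩, h1⟩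
    · rintro ⟨h1, h2⟩
      exact ⟨h2, hn.1.ne'⟩
  rw [sum_congr rfl h1, sum_comm]
  refine sum_congr rfl fun d hd => ?_
  rw [mem_Ioc] at hd
  rw [← sum_filter]
  symm
  refine sum_bij (fun m _ => d * m) ?_ ?_ ?_ ?_
  · intro m hm
    rw [mem_Ioc, Nat.le_div_iff_mul_le hd.1] at hm
    rw [mem_filter, mem_Ioc]
    exact ⟨⟨Nat.mul_pos hd.1 hm.1, by rw [mul_comm]; exact hm.2⟩, dvd_mul_right d m⟩
  · intro m _ m' _ h
    exact Nat.eq_of_mul_eq_mul_left hd.1 h
  · intro n hn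
    rw [mem_filter, mem_Ioc] at hn
    obtain ⟨⟨h1, h2⟩, ⟨m, rfl⟩⟩ := hn
    refine ⟨m, ?_, rfl⟩
    rw [mem_Ioc, Nat.le_div_iff_mul_le hd.1]
    exact ⟨Nat.pos_of_mul_pos_left h1 |> fun h => h, by rw [mul_comm]; exact h2⟩
  · intro m _
    rfl

lemma sum_tau_le (y : ℕ) : ∑ n ∈ Ioc 0 y, tau n ≤ y * (1 + Real.log y) := by
  have h1 : ∑ n ∈ Ioc 0 y, tau n = ∑ n ∈ Ioc 0 y, ∑ d ∈ n.divisors, (fun _ _ => (1 : ℝ)) n d := by
    refine sum_congr rfl fun n _ => ?_
    simp [tau]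
  rw [h1, sum_divisors_swap]
  have h2 : ∑ d ∈ Ioc 0 y, ∑ m ∈ Ioc 0 (y / d), (fun _ _ => (1 : ℝ)) (d * m) d
      ≤ ∑ d ∈ Ioc 0 y, y * (1 / (d : ℝ)) := by
    refine sum_le_sum fun d _ => ?_
    rw [sum_const, Nat.card_Ioc, nsmul_eq_mul, mul_one, Nat.sub_zero, mul_one_div]
    exact Nat.cast_div_le
  refine h2.trans ?_
  rw [← mul_sum]
  exact mul_le_mul_of_nonneg_left (harm_le y) (Nat.cast_nonneg y)

lemma sum_tau_div_le (x : ℕ) : ∑ n ∈ Ioc 0 x, tau n / n ≤ (1 + Real.log x) ^ 2 := by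
  have h1 : ∑ n ∈ Ioc 0 x, tau n / n
      = ∑ n ∈ Ioc 0 x, ∑ d ∈ n.divisors, (fun (n : ℕ) (_ : ℕ) => 1 / (n : ℝ)) n d := by
    refine sum_congr rfl fun n _ => ?_
    simp [tau, div_eq_mul_inv]
  rw [h1, sum_divisors_swap]
  have hL : 0 ≤ 1 + Real.log x := by
    have := Real.log_natCast_nonneg x
    linarith
  calc ∑ d ∈ Ioc 0 x, ∑ m ∈ Ioc 0 (x / d), (fun (n : ℕ) (_ : ℕ) => 1 / (n : ℝ)) (d * m) d
      = ∑ d ∈ Ioc 0 x, 1 / (d : ℝ) * ∑ m ∈ Ioc 0 (x / d), 1 / (m : ℝ) := by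
        refine sum_congr rfl fun d _ => ?_
        rw [mul_sum]
        refine sum_congr rfl fun m _ => ?_
        push_cast
        rw [one_div_mul_one_div]
    _ ≤ ∑ d ∈ Ioc 0 x, 1 / (d : ℝ) * (1 + Real.log x) := by
        refine sum_le_sum fun d _ => ?_
        refine mul_le_mul_of_nonneg_left ?_ (by positivity)
        have := harm_le (x / d)
        have h2 := log_nat_le (Nat.div_le_self x d)
        linarith
    _ ≤ (1 + Real.log x) * (1 + Real.log x) := by
        rw [← sum_mul]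
        exact mul_le_mul_of_nonneg_right (harm_le x) hL
    _ = _ := by ring

/-- second moment of the divisor function. -/
lemma sum_tau_sq_le (x : ℕ) : ∑ n ∈ Ioc 0 x, tau n ^ 2 ≤ x * (1 + Real.log x) ^ 3 := by
  have hL : 0 ≤ 1 + Real.log x := by
    have := Real.log_natCast_nonneg x
    linarith
  have h1 : ∑ n ∈ Ioc 0 x, tau n ^ 2
      = ∑ n ∈ Ioc 0 x, ∑ d ∈ n.divisors, (fun n _ => tau n) n d := by
    refine sum_congr rfl fun n _ => ?_
    simp only [sum_const, nsmul_eq_mul]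
    rw [pow_two]
    rfl
  rw [h1, sum_divisors_swap]
  calc ∑ d ∈ Ioc 0 x, ∑ m ∈ Ioc 0 (x / d), (fun n _ => tau n) (d * m) d
      ≤ ∑ d ∈ Ioc 0 x, ∑ m ∈ Ioc 0 (x / d), tau d * tau m :=
        sum_le_sum fun d _ => sum_le_sum fun m _ => tau_mul_le d m
    _ ≤ ∑ d ∈ Ioc 0 x, x * (1 + Real.log x) * (tau d / d) := by
        refine sum_le_sum fun d _ => ?_
        rw [← mul_sum]
        have h2 := sum_tau_le (x / d)
        have h3 := log_nat_le (Nat.div_le_self x d)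
        have h4 : ((x / d : ℕ) : ℝ) ≤ x / d := Nat.cast_div_le
        have h5 : 0 ≤ Real.log ((x / d : ℕ) : ℝ) := Real.log_natCast_nonneg _
        have h6 : ((x / d : ℕ) : ℝ) * (1 + Real.log ((x / d : ℕ) : ℝ)) ≤ x / d * (1 + Real.log x) :=
          mul_le_mul h4 (by linarith) (by linarith) (by positivity)
        calc tau d * ∑ m ∈ Ioc 0 (x / d), tau m ≤ tau d * (x / d * (1 + Real.log x)) :=
              mul_le_mul_of_nonneg_left (h2.trans h6) (tau_nonneg d)
          _ = _ := by ring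
    _ = x * (1 + Real.log x) * ∑ d ∈ Ioc 0 x, tau d / d := by rw [mul_sum]
    _ ≤ x * (1 + Real.log x) * (1 + Real.log x) ^ 2 := by
        exact mul_le_mul_of_nonneg_left (sum_tau_div_le x) (by positivity)
    _ = _ := by ring

/-- the divisor function in short intervals. -/
lemma sum_tau_short (y x : ℕ) (hyx : y ≤ x) :
    ∑ n ∈ Ioc y x, tau n ≤ 2 * (((x : ℝ) - y) * (1 + Real.log x) + Nat.sqrt x) := by
  set s := Nat.sqrt x with hs
  have h1 : ∀ n ∈ Ioc y x, tau n ≤ 2 * ∑ d ∈ Ioc 0 s, if d ∣ n then (1 : ℝ) else 0 := by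
    intro n hn
    rw [mem_Ioc] at hn
    have hn0 : n ≠ 0 := by omega
    rw [← sum_filter, sum_const, nsmul_eq_mul, mul_one]
    set A := (Ioc 0 s).filter (fun d => d ∣ n) with hA
    have hsub : n.divisors ⊆ A ∪ A.image (fun d => n / d) := by
      intro d hd
      rw [Nat.mem_divisors] at hd
      have hd0 : 0 < d := Nat.pos_of_dvd_of_pos hd.1 (Nat.pos_of_ne_zero hn0)
      rw [mem_union]
      by_cases h : d ≤ s
      · left
        rw [hA, mem_filter, mem_Ioc]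
        exact ⟨⟨hd0, h⟩, hd.1⟩
      · right
        rw [mem_image]
        obtain ⟨e, he⟩ := hd.1
        have he0 : 0 < e := by
          rcases Nat.eq_zero_or_pos e with rfl | h'
          · rw [mul_zero] at he; exact absurd he hn0
          · exact h'
        refine ⟨e, ?_, ?_⟩
        · rw [hA, mem_filter, mem_Ioc]
          refine ⟨⟨he0, ?_⟩, ⟨d, by rw [he, mul_comm]⟩⟩
          by_contra h'
          push Not at h h'
          have h2 : (s + 1) * (s + 1) ≤ d * e := Nat.mul_le_mul h h'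
          have h3 : x < (s + 1) * (s + 1) := Nat.lt_succ_sqrt x
          omega
        · rw [he]
          exact Nat.mul_div_cancel _ he0
    have h2 := (card_le_card hsub).trans (card_union_le _ _)
    have h3 : #(A.image (fun d => n / d)) ≤ #A := card_image_le
    unfold tau
    have h4 : #n.divisors ≤ 2 * #A := by omega
    exact_mod_cast h4
  refine (sum_le_sum h1).trans ?_
  rw [← mul_sum, sum_comm]
  refine mul_le_mul_of_nonneg_left ?_ (by norm_num)
  have h2 : ∀ d ∈ Ioc 0 s, ∑ n ∈ Ioc y x, (if d ∣ n then (1 : ℝ) else 0)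
      ≤ ((x : ℝ) - y) * (1 / (d : ℝ)) + 1 := by
    intro d hd
    rw [mem_Ioc] at hd
    rw [← sum_filter, sum_const, nsmul_eq_mul, mul_one]
    have h3 : #((Ioc y x).filter (fun n => d ∣ n)) ≤ x / d - y / d := by
      have : (Ioc y x).filter (fun n => d ∣ n) ⊆ (Ioc (y / d) (x / d)).image (fun m => d * m) := by
        intro n hn
        rw [mem_filter, mem_Ioc] at hn
        obtain ⟨⟨h1, h2⟩, ⟨m, rfl⟩⟩ := hn
        rw [mem_image]
        refine ⟨m, ?_, rfl⟩
        rw [mem_Ioc, Nat.div_lt_iff_lt_mul hd.1, Nat.le_div_iff_mul_le hd.1]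
        exact ⟨by rw [mul_comm]; exact h1, by rw [mul_comm]; exact h2⟩
      refine (card_le_card this).trans ?_
      refine card_image_le.trans ?_
      rw [Nat.card_Ioc]
    have hle : y / d ≤ x / d := Nat.div_le_div_right hyx
    have h4 : ((#((Ioc y x).filter (fun n => d ∣ n)) : ℕ) : ℝ) ≤ ((x / d : ℕ) : ℝ) - ((y / d : ℕ) : ℝ) := by
      rw [← Nat.cast_sub hle]
      exact_mod_cast h3
    have hd0 : (0 : ℝ) < d := by exact_mod_cast hd.1
    have h5 : ((x / d : ℕ) : ℝ) ≤ x / d := Nat.cast_div_le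
    have h6 : (y : ℝ) / d < ((y / d : ℕ) : ℝ) + 1 := by
      rw [div_lt_iff₀ hd0]
      have h7 : y < (y / d + 1) * d := by
        have := Nat.div_add_mod y d
        have := Nat.mod_lt y hd.1
        nlinarith
      exact_mod_cast h7
    calc ((#((Ioc y x).filter (fun n => d ∣ n)) : ℕ) : ℝ) ≤ x / d - (y / d - 1) := by linarith
      _ = _ := by ring
  refine (sum_le_sum h2).trans ?_
  rw [sum_add_distrib, ← mul_sum, sum_const, Nat.card_Ioc, Nat.sub_zero, nsmul_eq_mul, mul_one]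
  have h3 : ∑ d ∈ Ioc 0 s, 1 / (d : ℝ) ≤ 1 + Real.log x := by
    have := harm_le s
    have h4 := log_nat_le (Nat.sqrt_le_self x)
    rw [← hs] at h4
    linarith
  have h5 : (0 : ℝ) ≤ (x : ℝ) - y := by
    rw [sub_nonneg]
    exact_mod_cast hyx
  have := mul_le_mul_of_nonneg_left h3 h5
  linarith

end Pool.Agent.helper85.BVP
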