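import Pool.Agent.helper85.BVP.Dual

/-!
# The large sieve in variance form for prime moduli
-/

namespace Pool.Agent.helper85.BVP

open Finset Real

lemma ex_eq_one_iff (x : ℝ) : ex x = 1 ↔ ∃ m : ℤ, x = m := by
  constructor
  · intro h
    rw [ex, Complex.exp_eq_one_iff] at h
    obtain ⟨m, hm⟩ := h
    refine ⟨m, ?_⟩
    have hI : (Complex.I : ℂ) ≠ 0 := Complex.I_ne_zero
    have hpi : (π : ℂ) ≠ 0 := by exact_mod_cast Real.pi_ne_zero
    have h2 : (2 * π * Complex.I : ℂ) ≠ 0 := mul_ne_zero (mul_ne_zero two_ne_zero hpi) hI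
    push_cast at hm
    have h1 : (2 * π * Complex.I : ℂ) * (x : ℂ) = (2 * π * Complex.I) * m := by
      linear_combination hm
    have h3 := mul_left_cancel₀ h2 h1
    exact_mod_cast h3
  · rintro ⟨m, rfl⟩
    exact ex_int m

/-- orthogonality of the additive characters mod `q`. -/
lemma orth (q : ℕ) (hq : 0 < q) (m : ℤ) :
    ∑ r ∈ range q, ex (r * ((m : ℝ) / q)) = if (q : ℤ) ∣ m then (q : ℂ) else 0 := by
  have hq0 : (q : ℝ) ≠ 0 := by exact_mod_cast hq.ne'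
  have h1 : ∑ r ∈ range q, ex (r * ((m : ℝ) / q)) = ∑ r ∈ range q, ex ((m : ℝ) / q) ^ r :=
    sum_congr rfl fun r _ => ex_nat_mul _ _
  rw [h1]
  split_ifs with h
  · obtain ⟨k, hk⟩ := h
    have : (m : ℝ) / q = (k : ℤ) := by
      rw [hk]
      push_cast
      field_simp
    rw [this, ex_int]
    simp
  · have hne : ex ((m : ℝ) / q) ≠ 1 := by
      intro h'
      rw [ex_eq_one_iff] at h'
      obtain ⟨k, hk⟩ := h'
      rw [div_eq_iff hq0] at hk
      apply h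
      refine ⟨k, ?_⟩
      have : (m : ℝ) = ((k * q : ℤ) : ℝ) := by rw [hk]; push_cast; ring
      have h2 : m = k * q := by exact_mod_cast this
      rw [h2, mul_comm]
    rw [geom_sum_eq hne, ← ex_nat_mul]
    have : (q : ℝ) * ((m : ℝ) / q) = (m : ℤ) := by field_simp
    rw [this, ex_int, sub_self, zero_div]

/-- the sum of `a` over the residue class `h` mod `q`. -/
noncomputable def cls (S : Finset ℕ) (a : ℕ → ℝ) (q h : ℕ) : ℝ := ∑ n ∈ S with n % q = h, a n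

lemma sum_cls (S : Finset ℕ) (a : ℕ → ℝ) (q : ℕ) (hq : 0 < q) :
    ∑ h ∈ range q, cls S a q h = ∑ n ∈ S, a n := by
  simp only [cls]
  exact sum_fiberwise_of_maps_to (fun n _ => mem_range.mpr (Nat.mod_lt n hq)) _

/-- Parseval. -/
lemma parseval (S : Finset ℕ) (a : ℕ → ℝ) (q : ℕ) (hq : 0 < q) :
    ∑ r ∈ range q, ‖∑ n ∈ S, (a n : ℂ) * ex ((n : ℝ) * ((r : ℝ) / q))‖ ^ 2
      = q * ∑ h ∈ range q, cls S a q h ^ 2 := by
  have h1 : ((∑ r ∈ range q, ‖∑ n ∈ S, (a n : ℂ) * ex ((n : ℝ) * ((r : ℝ) / q))‖ ^ 2 : ℝ) : ℂ)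
      = ∑ n ∈ S, ∑ m ∈ S, (a n : ℂ) * a m * ∑ r ∈ range q, ex (r * (((n - m : ℤ) : ℝ) / q)) := by
    push_cast
    have h2 : ∀ r ∈ range q, ((‖∑ n ∈ S, (a n : ℂ) * ex ((n : ℝ) * ((r : ℝ) / q))‖ : ℂ)) ^ 2
        = ∑ n ∈ S, ∑ m ∈ S, (a n : ℂ) * a m * ex (r * (((n - m : ℤ) : ℝ) / q)) := by
      intro r _
      rw [← Complex.ofReal_pow, ← Complex.normSq_eq_norm_sq, ← Complex.mul_conj, map_sum,
        sum_mul_sum]
      refine sum_congr rfl fun n _ => sum_congr rfl fun m _ => ?_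
      have e : (r : ℝ) * (((n - m : ℤ) : ℝ) / q) = (n : ℝ) * ((r : ℝ) / q) - m * ((r : ℝ) / q) := by
        push_cast
        ring
      rw [e, ex_sub, map_mul, Complex.conj_ofReal]
      ring
    rw [sum_congr rfl h2, sum_comm]
    refine sum_congr rfl fun n _ => ?_
    rw [sum_comm]
    refine sum_congr rfl fun m _ => ?_
    rw [mul_sum]
    push_cast
    rfl
  have h3 : ∀ n ∈ S, ∀ m ∈ S, (a n : ℂ) * a m * ∑ r ∈ range q, ex (r * (((n - m : ℤ) : ℝ) / q))
      = ((q * (if m % q = n % q then a n * a m else 0) : ℝ) : ℂ) := by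
    intro n _ m _
    rw [orth q hq]
    have h4 : ((q : ℤ) ∣ ((n : ℤ) - m)) ↔ m % q = n % q := by
      rw [← Nat.modEq_iff_dvd]
      rfl
    by_cases h : m % q = n % q
    · rw [if_pos (h4.mpr h), if_pos h]
      push_cast
      ring
    · rw [if_neg (fun h' => h (h4.mp h')), if_neg h]
      push_cast
      ring
  have h5 : (((q : ℝ) * ∑ h ∈ range q, cls S a q h ^ 2 : ℝ) : ℂ)
      = ((∑ n ∈ S, ∑ m ∈ S, (q * (if m % q = n % q then a n * a m else 0)) : ℝ) : ℂ) := by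
    congr 1
    simp_rw [← mul_sum]
    congr 1
    rw [← sum_fiberwise_of_maps_to (s := S) (t := range q) (g := fun n => n % q)
      (fun n _ => mem_range.mpr (Nat.mod_lt n hq))]
    refine sum_congr rfl fun h _ => ?_
    rw [pow_two, cls, sum_mul_sum]
    refine sum_congr rfl fun n hn => ?_
    rw [sum_filter]
    refine sum_congr rfl fun m _ => ?_
    rw [(mem_filter.mp hn).2]
  have h6 : ((∑ r ∈ range q, ‖∑ n ∈ S, (a n : ℂ) * ex ((n : ℝ) * ((r : ℝ) / q))‖ ^ 2 : ℝ) : ℂ)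
      = (((q : ℝ) * ∑ h ∈ range q, cls S a q h ^ 2 : ℝ) : ℂ) := by
    rw [h1, h5]
    push_cast
    refine sum_congr rfl fun n hn => sum_congr rfl fun m hm => ?_
    have := h3 n hn m hm
    push_cast at this
    exact this
  exact_mod_cast h6

lemma variance_eq (S : Finset ℕ) (a : ℕ → ℝ) (q : ℕ) (hq : 0 < q) :
    (q : ℝ) * ∑ h ∈ range q, (cls S a q h - (∑ n ∈ S, a n) / q) ^ 2
      = ∑ r ∈ Ico 1 q, ‖∑ n ∈ S, (a n : ℂ) * ex ((n : ℝ) * ((r : ℝ) / q))‖ ^ 2 := by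
  have hq0 : (q : ℝ) ≠ 0 := by exact_mod_cast hq.ne'
  have h1 := parseval S a q hq
  rw [range_eq_Ico, sum_eq_sum_Ico_succ_bot hq] at h1
  have h2 : ‖∑ n ∈ S, (a n : ℂ) * ex ((n : ℝ) * (((0 : ℕ) : ℝ) / q))‖ ^ 2 = (∑ n ∈ S, a n) ^ 2 := by
    have : ∑ n ∈ S, (a n : ℂ) * ex ((n : ℝ) * (((0 : ℕ) : ℝ) / q)) = ((∑ n ∈ S, a n : ℝ) : ℂ) := by
      push_cast
      refine sum_congr rfl fun n _ => ?_
      rw [zero_div, mul_zero, ex_zero, mul_one]
    rw [this, Complex.norm_real, Real.norm_eq_abs, sq_abs]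
  rw [h2, zero_add] at h1
  set A := ∑ n ∈ S, a n with hA
  have h3 : ∑ h ∈ range q, (cls S a q h - A / q) ^ 2
      = ∑ h ∈ range q, cls S a q h ^ 2 - A ^ 2 / q := by
    have : ∀ h ∈ range q, (cls S a q h - A / q) ^ 2
        = cls S a q h ^ 2 - 2 * (A / q) * cls S a q h + (A / q) ^ 2 := fun h _ => by ring
    rw [sum_congr rfl this, sum_add_distrib, sum_sub_distrib, ← mul_sum, sum_cls S a q hq, ← hA]
    rw [sum_const, card_range, nsmul_eq_mul]
    field_simp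
    ring
  rw [h3, mul_sub, range_eq_Ico, ← h1]
  field_simp
  ring

/-- **Large sieve for prime moduli, variance form.** -/
theorem var_sieve (P : Finset ℕ) (hP : ∀ q ∈ P, q.Prime) (Q : ℕ) (hQ : 1 ≤ Q)
    (hPQ : ∀ q ∈ P, q ≤ Q) (M N : ℕ) (S : Finset ℕ) (hS : S ⊆ Ioc M (M + N)) (a : ℕ → ℝ) :
    ∑ q ∈ P, (q : ℝ) * ∑ h ∈ range q, (cls S a q h - (∑ n ∈ S, a n) / q) ^ 2
      ≤ 5 * ((N : ℝ) + Q ^ 2) * ∑ n ∈ S, a n ^ 2 := by
  classical
  have h1 : ∑ q ∈ P, (q : ℝ) * ∑ h ∈ range q, (cls S a q h - (∑ n ∈ S, a n) / q) ^ 2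
      = ∑ x ∈ P.sigma (fun q => Ico 1 q),
        ‖∑ n ∈ S, (a n : ℂ) * ex ((n : ℝ) * ((x.2 : ℝ) / x.1))‖ ^ 2 := by
    rw [sum_sigma]
    exact sum_congr rfl fun q hq => variance_eq S a q (hP q hq).pos
  rw [h1]
  set L := N + Q ^ 2 with hL
  have hL0 : 0 < L := by positivity
  set a' : ℕ → ℂ := fun n => if M + 1 + n ∈ S then (a (M + 1 + n) : ℂ) else 0 with ha'
  have hQr : (1 : ℝ) ≤ Q := by exact_mod_cast hQ
  have himg : S ⊆ (range (2 * L)).image (fun n => M + 1 + n) := by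
    intro m hm
    have := mem_Ioc.mp (hS hm)
    rw [mem_image]
    exact ⟨m - (M + 1), mem_range.mpr (by omega), by omega⟩
  have hre : ∀ g : ℕ → ℂ, (∀ m ∉ S, g m = 0) →
      ∑ n ∈ range (2 * L), g (M + 1 + n) = ∑ m ∈ S, g m := by
    intro g hg
    rw [← sum_image (f := g) (g := fun n => M + 1 + n) (s := range (2 * L))
      (by intro x _ y _ h; simp only at h; omega)]
    exact (sum_subset himg (fun m _ hm => hg m hm)).symm
  have h2 : ∀ α : ℝ, ∑ n ∈ range (2 * L), a' n * ex (((((M + 1 : ℕ) : ℤ) + n : ℤ) : ℝ) * α)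
      = ∑ n ∈ S, (a n : ℂ) * ex ((n : ℝ) * α) := by
    intro α
    rw [← hre (fun m => if m ∈ S then (a m : ℂ) * ex ((m : ℝ) * α) else 0)
      (fun m hm => if_neg hm) |>.trans (sum_congr rfl fun m hm => if_pos hm)]
    refine sum_congr rfl fun n _ => ?_
    simp only [ha']
    split_ifs
    · push_cast
      ring
    · simp
  have h3 : ∑ n ∈ range (2 * L), ‖a' n‖ ^ 2 = ∑ n ∈ S, a n ^ 2 := by
    have e := hre (fun m => if m ∈ S then ((a m ^ 2 : ℝ) : ℂ) else 0) (fun m hm => if_neg hm)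
    rw [sum_congr rfl (fun m (hm : m ∈ S) => if_pos hm)] at e
    have e2 : ((∑ n ∈ range (2 * L), ‖a' n‖ ^ 2 : ℝ) : ℂ) = ((∑ n ∈ S, a n ^ 2 : ℝ) : ℂ) := by
      push_cast at e ⊢
      rw [← e]
      refine sum_congr rfl fun n _ => ?_
      simp only [ha']
      split_ifs
      · rw [Complex.norm_real, Real.norm_eq_abs, ← Complex.ofReal_pow, sq_abs]
        push_cast
        rfl
      · simp
    exact_mod_cast e2
  have hδ : (0 : ℝ) < 1 / (Q : ℝ) ^ 2 := by positivity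
  have h4 := additive (P.sigma (fun q => Ico 1 q)) (fun x => (x.2 : ℝ) / x.1) (1 / (Q : ℝ) ^ 2) hδ
    ?_ a' ((M + 1 : ℕ) : ℤ) L hL0
  · simp only [h2, h3] at h4
    have hLr : (0 : ℝ) < L := by exact_mod_cast hL0
    have hcast : ((N : ℝ) + Q ^ 2) = L := by rw [hL]; push_cast; ring
    rw [hcast]
    have h5 : 4 * (L : ℝ) ^ 2 + 1 / (1 / (Q : ℝ) ^ 2) ^ 2 ≤ L * (5 * L) := by
      have h6 : 1 / (1 / (Q : ℝ) ^ 2) ^ 2 = ((Q : ℝ) ^ 2) ^ 2 := by
        field_simp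
      have h7 : (Q : ℝ) ^ 2 ≤ L := by rw [← hcast]; linarith [Nat.cast_nonneg (α := ℝ) N]
      have h8 : ((Q : ℝ) ^ 2) ^ 2 ≤ (L : ℝ) ^ 2 := pow_le_pow_left₀ (by positivity) h7 2
      rw [h6]
      nlinarith
    have h9 : (L : ℝ) * ∑ x ∈ P.sigma (fun q => Ico 1 q),
        ‖∑ n ∈ S, (a n : ℂ) * ex ((n : ℝ) * ((x.2 : ℝ) / x.1))‖ ^ 2
        ≤ L * (5 * L * ∑ n ∈ S, a n ^ 2) := by
      refine h4.trans ?_
      rw [← mul_assoc]
      exact mul_le_mul_of_nonneg_right h5 (sum_nonneg fun _ _ => sq_nonneg _)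
    exact le_of_mul_le_mul_left h9 hLr
  · rintro ⟨q, r⟩ hx ⟨q', r'⟩ hx' hne
    rw [mem_sigma, mem_Ico] at hx hx'
    simp only at hx hx' ⊢
    obtain ⟨hq, hr1, hr2⟩ := hx
    obtain ⟨hq', hr1', hr2'⟩ := hx'
    have hqp := hP q hq
    have hqp' := hP q' hq'
    have hq0 : (0 : ℝ) < q := by exact_mod_cast hqp.pos
    have hq0' : (0 : ℝ) < q' := by exact_mod_cast hqp'.pos
    set m : ℤ := round ((r : ℝ) / q - (r' : ℝ) / q') with hm
    have h5 : sd ((r : ℝ) / q - (r' : ℝ) / q')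
        = (((r : ℤ) * q' - r' * q - m * (q * q') : ℤ) : ℝ) / (q * q') := by
      rw [sd, ← hm]
      push_cast
      field_simp
    have h6 : (r : ℤ) * q' - r' * q - m * (q * q') ≠ 0 := by
      intro h0
      by_cases hqq : q = q'
      · subst hqq
        have h7 : ((r : ℤ) - r' - m * q) * q = 0 := by linear_combination h0
        have h8 : (r : ℤ) - r' - m * q = 0 := by
          rcases mul_eq_zero.mp h7 with h | h
          · exact h
          · have : q = 0 := by exact_mod_cast h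
            exact absurd this hqp.pos.ne'
        have h9 : m = 0 := by
          by_contra hm0
          rcases lt_or_gt_of_ne hm0 with h | h
          · have : m ≤ -1 := by omega
            nlinarith
          · have : 1 ≤ m := by omega
            nlinarith
        rw [h9] at h8
        have : r = r' := by omega
        subst this
        exact hne rfl
      · have h7 : (q : ℤ) ∣ (r : ℤ) * q' := ⟨r' + m * q', by linear_combination h0⟩
        have h8 : q ∣ r * q' := by exact_mod_cast h7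
        rcases (Nat.Prime.dvd_mul hqp).mp h8 with h | h
        · exact absurd (Nat.le_of_dvd (by omega) h) (by omega)
        · exact hqq ((Nat.prime_dvd_prime_iff_eq hqp hqp').mp h)
    rw [h5, abs_div, abs_of_pos (by positivity : (0 : ℝ) < (q : ℝ) * q')]
    have h7 : (1 : ℝ) ≤ |(((r : ℤ) * q' - r' * q - m * (q * q') : ℤ) : ℝ)| := by
      rw [← Int.cast_abs]
      exact_mod_cast Int.one_le_abs h6
    have h8 : (q : ℝ) * q' ≤ Q ^ 2 := by
      have e1 : (q : ℝ) ≤ Q := by exact_mod_cast hPQ q hq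
      have e2 : (q' : ℝ) ≤ Q := by exact_mod_cast hPQ q' hq'
      rw [pow_two]
      exact mul_le_mul e1 e2 hq0'.le (by linarith)
    exact div_le_div₀ (abs_nonneg _) h7 (by positivity) h8

end Pool.Agent.helper85.BVP
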