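import Pool.Agent.helper85.BVP.Bilinear
import Pool.Agent.Lib.SieveInterval

/-!
# Vaughan's identity and the type I sums
-/

namespace Pool.Agent.helper85.BVP

open Finset Real ArithmeticFunction

/-- truncation of an arithmetic function to `n ≤ V`. -/
noncomputable def trunc (f : ArithmeticFunction ℝ) (V : ℕ) : ArithmeticFunction ℝ :=
  ⟨fun n => if n ≤ V then f n else 0, by simp⟩

lemma trunc_apply (f : ArithmeticFunction ℝ) (V n : ℕ) :
    trunc f V n = if n ≤ V then f n else 0 := rfl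

/-- weighted sum of a Dirichlet convolution. -/
lemma conv_sum (f g : ArithmeticFunction ℝ) (w : ℕ → ℝ) (x : ℕ) :
    ∑ n ∈ Ioc 0 x, (f * g) n * w n
      = ∑ a ∈ Ioc 0 x, f a * ∑ b ∈ Ioc 0 (x / a), g b * w (a * b) := by
  have h1 : ∑ n ∈ Ioc 0 x, (f * g) n * w n
      = ∑ p ∈ Ioc 0 x ×ˢ Ioc 0 x with p.1 * p.2 ≤ x, f p.1 * g p.2 * w (p.1 * p.2) := by
    simp only [mul_apply]
    trans ∑ n ∈ Ioc 0 x, ∑ p ∈ Ioc 0 x ×ˢ Ioc 0 x with p.1 * p.2 = n, f p.1 * g p.2 * w (p.1 * p.2)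
    · refine sum_congr rfl fun n hn ↦ ?_
      simp only [mem_Ioc] at hn
      rw [Nat.divisorsAntidiagonal_eq_prod_filter_of_le hn.1.ne' hn.2, sum_mul]
      refine sum_congr rfl fun p hp => ?_
      rw [(mem_filter.mp hp).2]
    · simp_rw [sum_filter]
      rw [sum_comm]
      exact sum_congr rfl fun _ _ ↦ (by simp_all)
  rw [h1, sum_filter, sum_product]
  refine sum_congr rfl fun n hn ↦ ?_
  rw [mem_Ioc] at hn
  rw [← sum_filter, mul_sum]
  have h2 : (Ioc 0 x).filter (fun m => n * m ≤ x) = Ioc 0 (x / n) := by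
    ext m
    rw [mem_filter, mem_Ioc, mem_Ioc, Nat.le_div_iff_mul_le hn.1]
    constructor
    · rintro ⟨⟨h1, h2⟩, h3⟩
      exact ⟨h1, by rw [mul_comm]; exact h3⟩
    · rintro ⟨h1, h2⟩
      have h3 : n * m ≤ x := by rw [mul_comm]; exact h2
      exact ⟨⟨h1, (Nat.le_mul_of_pos_left m hn.1).trans h3⟩, h3⟩
  rw [h2]
  exact sum_congr rfl fun m _ => by ring

/-- real zeta, Moebius and log as arithmetic functions. -/
noncomputable abbrev Zr : ArithmeticFunction ℝ := ((zeta : ArithmeticFunction ℕ) : ArithmeticFunction ℝ)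
noncomputable abbrev Mr : ArithmeticFunction ℝ := ((moebius : ArithmeticFunction ℤ) : ArithmeticFunction ℝ)

/-- `∑_{b ∣ n, b > V} μ(b)`. -/
noncomputable def beta (V : ℕ) : ArithmeticFunction ℝ := (Mr - trunc Mr V) * Zr

/-- **Vaughan's identity.** -/
lemma vaughan (U V : ℕ) : vonMangoldt = trunc vonMangoldt U + trunc Mr V * ArithmeticFunction.log
      - trunc Mr V * (trunc vonMangoldt U * Zr) + (vonMangoldt - trunc vonMangoldt U) * beta V := by
  have h1 : (vonMangoldt : ArithmeticFunction ℝ) * Zr = ArithmeticFunction.log := vonMangoldt_mul_zeta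
  have h2 : Mr * Zr = 1 := coe_moebius_mul_coe_zeta
  rw [← h1, beta]
  linear_combination (-(vonMangoldt : ArithmeticFunction ℝ) + trunc vonMangoldt U) * h2

/-! ### type I -/

section
variable (q : ℕ) [hq : Fact q.Prime]

lemma sum_ker_base (c : ZMod q) (y : ℕ) : |∑ k ∈ Ioc 0 y, ker q c k| ≤ 2 := by
  have hq1 := hq.out.one_lt
  have hqr : (1 : ℝ) ≤ (q : ℝ) - 1 := by
    have : (2 : ℝ) ≤ q := by exact_mod_cast hq1
    linarith
  have hq0 : (0 : ℝ) < q := by linarith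
  have hcls : ∀ x : ZMod q, (Ioc 0 y).filter (fun n : ℕ => (n : ZMod q) = x)
      = {n ∈ Ioc 0 (0 + y) | n ≡ x.val [MOD q]} := by
    intro x
    ext n
    rw [mem_filter, mem_filter, zero_add]
    refine and_congr_right fun _ => ?_
    rw [← ZMod.natCast_eq_natCast_iff, ZMod.natCast_zmod_val]
  have hN : ∀ x : ZMod q, |((#((Ioc 0 y).filter (fun n : ℕ => (n : ZMod q) = x)) : ℕ) : ℝ) - y / q| ≤ 1 := by
    intro x
    rw [hcls x]
    exact Pool.Agent.Lib.BrunHooley.card_modEq_approx 0 y q x.val hq.out.pos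
  have e : ∑ k ∈ Ioc 0 y, ker q c k
      = ((#((Ioc 0 y).filter (fun n : ℕ => (n : ZMod q) = c)) : ℕ) : ℝ)
        - (y - (#((Ioc 0 y).filter (fun n : ℕ => (n : ZMod q) = 0)) : ℕ)) / ((q : ℝ) - 1) := by
    simp only [ker, sum_sub_distrib]
    congr 1
    · rw [← sum_filter, sum_const, nsmul_eq_mul, mul_one]
    · have : ∀ k ∈ Ioc 0 y, (if (k : ZMod q) = 0 then (0 : ℝ) else 1 / ((q : ℝ) - 1))
          = 1 / ((q : ℝ) - 1) - (if (k : ZMod q) = 0 then 1 / ((q : ℝ) - 1) else 0) := by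
        intro k _
        split_ifs <;> ring
      rw [sum_congr rfl this, sum_sub_distrib, ← sum_filter, sum_const, sum_const, nsmul_eq_mul,
        nsmul_eq_mul, Nat.card_Ioc, Nat.sub_zero]
      ring
  rw [e]
  set Nc := ((#((Ioc 0 y).filter (fun n : ℕ => (n : ZMod q) = c)) : ℕ) : ℝ) with hNc
  set N0 := ((#((Ioc 0 y).filter (fun n : ℕ => (n : ZMod q) = 0)) : ℕ) : ℝ) with hN0
  have h1 : Nc - (y - N0) / ((q : ℝ) - 1) = (Nc - y / q) + (N0 - y / q) / ((q : ℝ) - 1) := by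
    have : (q : ℝ) - 1 ≠ 0 := by linarith
    field_simp
    ring
  rw [h1]
  have h2 := hN c
  have h3 := hN 0
  have h4 : |(N0 - y / q) / ((q : ℝ) - 1)| ≤ 1 := by
    rw [abs_div, abs_of_pos (by linarith : (0 : ℝ) < (q : ℝ) - 1), div_le_one (by linarith)]
    linarith
  calc _ ≤ |Nc - y / q| + |(N0 - y / q) / ((q : ℝ) - 1)| := abs_add_le _ _
    _ ≤ 2 := by linarith

lemma sum_ker_mul (c : ZMod q) (hc : c ≠ 0) (d y : ℕ) : |∑ k ∈ Ioc 0 y, ker q c (d * k)| ≤ 2 := by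
  by_cases hd : (d : ZMod q) = 0
  · have : ∀ k ∈ Ioc 0 y, ker q c (d * k) = 0 := by
      intro k _
      rw [ker, Nat.cast_mul, hd, zero_mul, if_neg hc.symm, if_pos rfl, sub_zero]
    rw [sum_eq_zero this]
    norm_num
  · have : ∀ k ∈ Ioc 0 y, ker q c (d * k) = ker q ((d : ZMod q)⁻¹ * c) k := by
      intro k _
      rw [ker, ker, Nat.cast_mul]
      have h1 : ((d : ZMod q) * k = c) ↔ ((k : ZMod q) = (d : ZMod q)⁻¹ * c) := by
        constructor
        · intro h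
          rw [← h, ← mul_assoc, inv_mul_cancel₀ hd, one_mul]
        · intro h
          rw [h, ← mul_assoc, mul_inv_cancel₀ hd, one_mul]
      have h2 : ((d : ZMod q) * k = 0) ↔ ((k : ZMod q) = 0) := by
        rw [mul_eq_zero]
        tauto
      simp only [h1, h2]
    rw [sum_congr rfl this]
    exact sum_ker_base q _ y

end

/-- partial summation for a monotone weight. -/
lemma abel_bound (g κ : ℕ → ℝ) (hg : Monotone g) (hg0 : 0 ≤ g 0) (B : ℝ)
    (hB : ∀ y, |∑ k ∈ Ioc 0 y, κ k| ≤ B) (y : ℕ) :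
    |∑ k ∈ Ioc 0 y, g k * κ k| ≤ 2 * B * g y := by
  have hB0 : 0 ≤ B := (abs_nonneg _).trans (hB 0)
  have key : ∀ y : ℕ, |∑ k ∈ Ioc 0 y, g k * κ k - g y * ∑ k ∈ Ioc 0 y, κ k| ≤ B * (g y - g 0) := by
    intro y
    induction y with
    | zero => simp
    | succ y ih =>
      rw [sum_Ioc_succ_top (Nat.zero_le y), sum_Ioc_succ_top (Nat.zero_le y)]
      have e : ∑ k ∈ Ioc 0 y, g k * κ k + g (y + 1) * κ (y + 1)
          - g (y + 1) * (∑ k ∈ Ioc 0 y, κ k + κ (y + 1))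
          = (∑ k ∈ Ioc 0 y, g k * κ k - g y * ∑ k ∈ Ioc 0 y, κ k)
            - (g (y + 1) - g y) * ∑ k ∈ Ioc 0 y, κ k := by ring
      rw [e]
      have h1 : 0 ≤ g (y + 1) - g y := sub_nonneg.mpr (hg (Nat.le_succ y))
      have h2 : |(g (y + 1) - g y) * ∑ k ∈ Ioc 0 y, κ k| ≤ (g (y + 1) - g y) * B := by
        rw [abs_mul, abs_of_nonneg h1]
        exact mul_le_mul_of_nonneg_left (hB y) h1
      calc _ ≤ |∑ k ∈ Ioc 0 y, g k * κ k - g y * ∑ k ∈ Ioc 0 y, κ k|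
            + |(g (y + 1) - g y) * ∑ k ∈ Ioc 0 y, κ k| := abs_sub _ _
        _ ≤ B * (g y - g 0) + (g (y + 1) - g y) * B := add_le_add ih h2
        _ = _ := by ring
  have h1 := key y
  have hgy : 0 ≤ g y := hg0.trans (hg (Nat.zero_le y))
  have h2 : |g y * ∑ k ∈ Ioc 0 y, κ k| ≤ g y * B := by
    rw [abs_mul, abs_of_nonneg hgy]
    exact mul_le_mul_of_nonneg_left (hB y) hgy
  have h3 : |∑ k ∈ Ioc 0 y, g k * κ k| ≤ |∑ k ∈ Ioc 0 y, g k * κ k - g y * ∑ k ∈ Ioc 0 y, κ k|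
      + |g y * ∑ k ∈ Ioc 0 y, κ k| := by
    have := abs_add_le (∑ k ∈ Ioc 0 y, g k * κ k - g y * ∑ k ∈ Ioc 0 y, κ k)
      (g y * ∑ k ∈ Ioc 0 y, κ k)
    rwa [sub_add_cancel] at this
  nlinarith [mul_nonneg hB0 hg0]

lemma log_mono : Monotone (fun n : ℕ => Real.log n) := by
  intro m n hmn
  simp only
  rcases Nat.eq_zero_or_pos m with rfl | hm
  · simp [Real.log_natCast_nonneg]
  · exact Real.log_le_log (by exact_mod_cast hm) (by exact_mod_cast hmn)

end Pool.Agent.helper85.BVP
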