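import Mathlib

/-!
# The dual large sieve inequality and the additive large sieve
-/

namespace Pool.Agent.helper85.BVP

open Finset Real

/-- `e(x) = exp(2 π i x)`. -/
noncomputable def ex (x : ℝ) : ℂ := Complex.exp (Complex.I * ((2 * π * x : ℝ) : ℂ))

lemma norm_ex (x : ℝ) : ‖ex x‖ = 1 := Complex.norm_exp_I_mul_ofReal _

lemma ex_add (x y : ℝ) : ex (x + y) = ex x * ex y := by
  rw [ex, ex, ex, ← Complex.exp_add]
  congr 1
  push_cast
  ring

lemma ex_zero : ex 0 = 1 := by simp [ex]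

lemma ex_int (m : ℤ) : ex m = 1 := by
  rw [ex, Complex.exp_eq_one_iff]
  exact ⟨m, by push_cast; ring⟩

lemma ex_nat_mul (n : ℕ) (x : ℝ) : ex (n * x) = ex x ^ n := by
  rw [ex, ex, ← Complex.exp_nat_mul]
  congr 1
  push_cast
  ring

lemma conj_ex (x : ℝ) : (starRingEnd ℂ) (ex x) = ex (-x) := by
  rw [ex, ex, ← Complex.exp_conj]
  congr 1
  rw [map_mul, Complex.conj_I, Complex.conj_ofReal]
  push_cast
  ring

lemma ex_sub (x y : ℝ) : ex (x - y) = ex x * (starRingEnd ℂ) (ex y) := by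
  rw [conj_ex, sub_eq_add_neg, ex_add]

lemma norm_ex_sub_one (x : ℝ) (hx : |x| ≤ 1 / 2) : 4 * |x| ≤ ‖ex x - 1‖ := by
  rw [ex, Complex.norm_exp_I_mul_ofReal_sub_one, norm_mul, Real.norm_eq_abs, Real.norm_eq_abs]
  have e : 2 * π * x / 2 = π * x := by ring
  rw [e]
  have hpi := Real.pi_pos
  have h1 : |π * x| ≤ π / 2 := by
    rw [abs_mul, abs_of_pos hpi]
    nlinarith
  have h2 := Real.mul_abs_le_abs_sin h1
  rw [abs_mul, abs_of_pos hpi] at h2
  have h3 : 2 / π * (π * |x|) = 2 * |x| := by field_simp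
  rw [h3] at h2
  have h4 : |(2 : ℝ)| = 2 := by norm_num
  rw [h4]
  linarith

/-- distance to the nearest integer, signed. -/
noncomputable def sd (x : ℝ) : ℝ := x - round x

lemma abs_sd_le (x : ℝ) : |sd x| ≤ 1 / 2 := abs_sub_round x

lemma abs_sd_le_int (x : ℝ) (m : ℤ) : |sd x| ≤ |x - m| := round_le x m

lemma ex_sd (x : ℝ) : ex (sd x) = ex x := by
  have : x = sd x + (round x : ℤ) := by rw [sd]; ring
  conv_rhs => rw [this, ex_add, ex_int, mul_one]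

lemma norm_geom_le_card (U : ℕ) (β : ℝ) : ‖∑ u ∈ range U, ex (u * β)‖ ≤ U := by
  refine (norm_sum_le _ _).trans ?_
  simp [norm_ex]

lemma norm_geom_le (U : ℕ) (β : ℝ) (h : sd β ≠ 0) :
    ‖∑ u ∈ range U, ex (u * β)‖ ≤ 1 / (2 * |sd β|) := by
  have h1 : ∑ u ∈ range U, ex (u * β) = ∑ u ∈ range U, ex (sd β) ^ u := by
    refine sum_congr rfl fun u _ => ?_
    rw [ex_nat_mul, ex_sd]
  have h0 : 0 < |sd β| := abs_pos.mpr h
  have h2 : 4 * |sd β| ≤ ‖ex (sd β) - 1‖ := norm_ex_sub_one _ (abs_sd_le β)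
  have hne : ex (sd β) - 1 ≠ 0 := by
    intro h'
    rw [h', norm_zero] at h2
    linarith
  have hpos : 0 < ‖ex (sd β) - 1‖ := norm_pos_iff.mpr hne
  rw [h1, geom_sum_eq (sub_ne_zero.mp hne), norm_div, div_le_div_iff₀ hpos (by positivity)]
  have h3 : ‖ex (sd β) ^ U - 1‖ ≤ 2 := by
    refine (norm_sub_le _ _).trans ?_
    rw [norm_pow, norm_ex, one_pow, norm_one]
    norm_num
  nlinarith

/-- well spaced positive reals. -/
lemma spaced_sum {ι : Type*} (S : Finset ι) (y : ι → ℝ) (δ : ℝ) (hδ : 0 < δ)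
    (hy : ∀ k ∈ S, δ ≤ y k) (hsp : ∀ k ∈ S, ∀ k' ∈ S, k ≠ k' → δ ≤ |y k - y k'|) :
    ∑ k ∈ S, 1 / y k ^ 2 ≤ 2 / δ ^ 2 := by
  classical
  set m : ι → ℕ := fun k => ⌊y k / δ⌋₊ with hm
  have hm1 : ∀ k ∈ S, 1 ≤ m k := by
    intro k hk
    rw [hm]
    simp only
    rw [Nat.one_le_floor_iff, le_div_iff₀ hδ, one_mul]
    exact hy k hk
  have hinj : Set.InjOn m S := by
    intro k hk k' hk' h
    by_contra hne
    have h1 := hsp k hk k' hk' hne
    have hk0 : 0 ≤ y k / δ := div_nonneg (hδ.le.trans (hy k hk)) hδ.le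
    have hk0' : 0 ≤ y k' / δ := div_nonneg (hδ.le.trans (hy k' hk')) hδ.le
    have a1 := Nat.floor_le hk0
    have a2 := Nat.lt_floor_add_one (y k / δ)
    have b1 := Nat.floor_le hk0'
    have b2 := Nat.lt_floor_add_one (y k' / δ)
    simp only [hm] at h
    rw [h] at a1 a2
    have h2 : |y k / δ - y k' / δ| < 1 := by
      rw [abs_lt]
      constructor <;> linarith
    rw [← sub_div, abs_div, abs_of_pos hδ, div_lt_one hδ] at h2
    linarith
  have h1 : ∀ k ∈ S, 1 / y k ^ 2 ≤ 1 / δ ^ 2 * ((m k : ℝ) ^ 2)⁻¹ := by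
    intro k hk
    have hk0 : 0 ≤ y k / δ := div_nonneg (hδ.le.trans (hy k hk)) hδ.le
    have a1 := Nat.floor_le hk0
    have h2 : (1 : ℝ) ≤ m k := by exact_mod_cast hm1 k hk
    have h3 : (m k : ℝ) * δ ≤ y k := by
      rw [le_div_iff₀ hδ] at a1
      exact a1
    rw [← one_div, one_div_mul_one_div]
    apply one_div_le_one_div_of_le (by positivity)
    rw [← mul_pow]
    apply pow_le_pow_left₀ (by positivity)
    linarith
  refine (sum_le_sum h1).trans ?_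
  rw [← mul_sum]
  have h2 : ∑ k ∈ S, ((m k : ℝ) ^ 2)⁻¹ = ∑ i ∈ S.image m, ((i : ℝ) ^ 2)⁻¹ := by
    rw [sum_image hinj]
  have h3 : ∑ i ∈ S.image m, ((i : ℝ) ^ 2)⁻¹ ≤ ∑ i ∈ Ioo 0 ((S.image m).sup id + 1), ((i : ℝ) ^ 2)⁻¹ := by
    refine sum_le_sum_of_subset_of_nonneg ?_ (fun _ _ _ => by positivity)
    intro i hi
    rw [mem_Ioo]
    constructor
    · obtain ⟨k, hk, rfl⟩ := mem_image.mp hi
      exact hm1 k hk
    · have : id i ≤ (S.image m).sup id := le_sup (f := id) hi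
      simp only [id] at this
      exact Nat.lt_succ_of_le this
  have h4 := sum_Ioo_inv_sq_le (α := ℝ) 0 ((S.image m).sup id + 1)
  have h5 : (2 : ℝ) / (((0 : ℕ) : ℝ) + 1) = 2 := by norm_num
  rw [h5] at h4
  rw [h2]
  calc 1 / δ ^ 2 * ∑ i ∈ S.image m, ((i : ℝ) ^ 2)⁻¹ ≤ 1 / δ ^ 2 * 2 := by
        apply mul_le_mul_of_nonneg_left (h3.trans h4) (by positivity)
    _ = 2 / δ ^ 2 := by ring

variable {ι : Type*} [DecidableEq ι]

/-- sum over well spaced points. -/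
lemma sum_geom_sq (J : Finset ι) (α : ι → ℝ) (δ : ℝ) (hδ : 0 < δ)
    (hsp : ∀ j ∈ J, ∀ k ∈ J, j ≠ k → δ ≤ |sd (α j - α k)|) (U : ℕ) (j : ι) (hj : j ∈ J) :
    ∑ k ∈ J, ‖∑ u ∈ range U, ex (u * (α j - α k))‖ ^ 2 ≤ (U : ℝ) ^ 2 + 1 / δ ^ 2 := by
  rw [← add_sum_erase J _ hj]
  refine add_le_add ?_ ?_
  · exact pow_le_pow_left₀ (norm_nonneg _) (norm_geom_le_card _ _) 2
  set y : ι → ℝ := fun k => sd (α j - α k) with hy
  have hyk : ∀ k ∈ J.erase j, δ ≤ |y k| := by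
    intro k hk
    rw [mem_erase] at hk
    exact hsp j hj k hk.2 hk.1.symm
  have hyy : ∀ k ∈ J.erase j, ∀ k' ∈ J.erase j, k ≠ k' → δ ≤ |y k - y k'| := by
    intro k hk k' hk' hne
    rw [mem_erase] at hk hk'
    have h1 := hsp k' hk'.2 k hk.2 hne.symm
    refine h1.trans ?_
    have h2 := abs_sd_le_int (α k' - α k) (round (α j - α k) - round (α j - α k'))
    refine h2.trans (le_of_eq ?_)
    rw [hy]
    simp only [sd]
    push_cast
    congr 1
    ring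
  have h1 : ∀ k ∈ J.erase j, ‖∑ u ∈ range U, ex (u * (α j - α k))‖ ^ 2 ≤ 1 / 4 * (1 / y k ^ 2) := by
    intro k hk
    have h0 : y k ≠ 0 := by
      intro h
      have := hyk k hk
      rw [h, abs_zero] at this
      linarith
    have h2 := norm_geom_le U (α j - α k) h0
    have h3 := pow_le_pow_left₀ (norm_nonneg _) h2 2
    refine h3.trans (le_of_eq ?_)
    have h4 : |sd (α j - α k)| ^ 2 = y k ^ 2 := sq_abs _
    rw [div_pow, mul_pow, h4]
    ring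
  refine (sum_le_sum h1).trans ?_
  rw [← mul_sum]
  -- split by sign
  have h2 : ∑ k ∈ J.erase j, 1 / y k ^ 2 ≤ 2 / δ ^ 2 + 2 / δ ^ 2 := by
    rw [← sum_filter_add_sum_filter_not (J.erase j) (fun k => 0 < y k)]
    refine add_le_add ?_ ?_
    · refine spaced_sum _ y δ hδ ?_ ?_
      · intro k hk
        rw [mem_filter] at hk
        have := hyk k hk.1
        rwa [abs_of_pos hk.2] at this
      · intro k hk k' hk' hne
        exact hyy k (mem_filter.mp hk).1 k' (mem_filter.mp hk').1 hne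
    · have h3 : ∀ k ∈ (J.erase j).filter (fun k => ¬ 0 < y k), 1 / y k ^ 2 = 1 / (- y k) ^ 2 := by
        intro k _
        rw [neg_sq]
      rw [sum_congr rfl h3]
      refine spaced_sum _ (fun k => - y k) δ hδ ?_ ?_
      · intro k hk
        rw [mem_filter] at hk
        have := hyk k hk.1
        rwa [abs_of_nonpos (not_lt.mp hk.2)] at this
      · intro k hk k' hk' hne
        have := hyy k (mem_filter.mp hk).1 k' (mem_filter.mp hk').1 hne
        rw [show - y k - - y k' = -(y k - y k') by ring, abs_neg]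
        exact this
  calc 1 / 4 * ∑ k ∈ J.erase j, 1 / y k ^ 2 ≤ 1 / 4 * (2 / δ ^ 2 + 2 / δ ^ 2) := by
        apply mul_le_mul_of_nonneg_left h2 (by norm_num)
    _ = 1 / δ ^ 2 := by ring

omit [DecidableEq ι] in
/-- weight lemma: sums over `n < 2L` are dominated by sums over pairs. -/
lemma weight (L : ℕ) (f : ℤ → ℝ) (hf : ∀ n, 0 ≤ f n) (M : ℤ) :
    (L : ℝ) * ∑ n ∈ range (2 * L), f (M + n)
      ≤ ∑ u ∈ range (2 * L), ∑ v ∈ range (2 * L), f (M - (L - 1) + u + v) := by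
  classical
  have e1 : (L : ℝ) * ∑ n ∈ range (2 * L), f (M + n)
      = ∑ x ∈ range (2 * L) ×ˢ range L, f (M + (x.1 : ℤ)) := by
    rw [sum_product, mul_sum]
    refine sum_congr rfl fun n _ => ?_
    simp
  have e2 : ∑ u ∈ range (2 * L), ∑ v ∈ range (2 * L), f (M - (L - 1) + u + v)
      = ∑ x ∈ range (2 * L) ×ˢ range (2 * L), f (M - (L - 1) + (x.1 : ℤ) + (x.2 : ℤ)) := by
    rw [sum_product]
  rw [e1, e2]
  set φ : ℕ × ℕ → ℕ × ℕ := fun x =>
    if x.1 < L then (x.2, x.1 + L - 1 - x.2) else (x.2 + L, x.1 - 1 - x.2) with hφ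
  have hinj : Set.InjOn φ (range (2 * L) ×ˢ range L : Finset (ℕ × ℕ)) := by
    rintro ⟨n, i⟩ hx ⟨n', i'⟩ hx' heq
    rw [mem_coe, mem_product, mem_range, mem_range] at hx hx'
    simp only [hφ] at heq hx hx'
    split_ifs at heq with h1 h2 h2 <;> simp only [Prod.mk.injEq] at heq ⊢ <;> omega
  have hval : ∀ x ∈ range (2 * L) ×ˢ range L,
      f (M + (x.1 : ℤ)) = f (M - (L - 1) + ((φ x).1 : ℤ) + ((φ x).2 : ℤ)) := by
    rintro ⟨n, i⟩ hx
    rw [mem_product, mem_range, mem_range] at hx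
    simp only [hφ] at hx ⊢
    congr 1
    split_ifs with h1
    · simp only
      omega
    · simp only
      omega
  rw [sum_congr rfl hval, ← sum_image (f := fun y : ℕ × ℕ => f (M - (L - 1) + (y.1 : ℤ) + (y.2 : ℤ))) hinj]
  refine sum_le_sum_of_subset_of_nonneg ?_ (fun _ _ _ => hf _)
  intro y hy
  obtain ⟨⟨n, i⟩, hx, rfl⟩ := mem_image.mp hy
  rw [mem_product, mem_range, mem_range] at hx ⊢
  simp only [hφ] at hx ⊢
  split_ifs with h1
  · simp only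
    omega
  · simp only
    omega

/-- **Dual large sieve.** -/
theorem dual (J : Finset ι) (α : ι → ℝ) (δ : ℝ) (hδ : 0 < δ)
    (hsp : ∀ j ∈ J, ∀ k ∈ J, j ≠ k → δ ≤ |sd (α j - α k)|) (c : ι → ℂ) (M : ℤ) (L : ℕ) :
    (L : ℝ) * ∑ n ∈ range (2 * L), ‖∑ j ∈ J, c j * ex (((M + n : ℤ) : ℝ) * α j)‖ ^ 2
      ≤ (4 * (L : ℝ) ^ 2 + 1 / δ ^ 2) * ∑ j ∈ J, ‖c j‖ ^ 2 := by
  have h1 := weight L (fun n => ‖∑ j ∈ J, c j * ex ((n : ℝ) * α j)‖ ^ 2)
    (fun _ => by positivity) M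
  refine h1.trans ?_
  -- expand the square
  have h2 : ∀ n : ℤ, ((‖∑ j ∈ J, c j * ex ((n : ℝ) * α j)‖ ^ 2 : ℝ) : ℂ)
      = ∑ j ∈ J, ∑ k ∈ J, c j * (starRingEnd ℂ) (c k) * ex ((n : ℝ) * (α j - α k)) := by
    intro n
    rw [← Complex.normSq_eq_norm_sq, ← Complex.mul_conj, map_sum, sum_mul_sum]
    refine sum_congr rfl fun j _ => sum_congr rfl fun k _ => ?_
    rw [map_mul, mul_sub, ex_sub]
    ring
  have h3 : ((∑ u ∈ range (2 * L), ∑ v ∈ range (2 * L),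
      ‖∑ j ∈ J, c j * ex (((M - (L - 1) + u + v : ℤ) : ℝ) * α j)‖ ^ 2 : ℝ) : ℂ)
      = ∑ j ∈ J, ∑ k ∈ J, c j * (starRingEnd ℂ) (c k) * ex (((M - (L - 1) : ℤ) : ℝ) * (α j - α k))
        * (∑ u ∈ range (2 * L), ex (u * (α j - α k))) ^ 2 := by
    push_cast
    have h4 : ∀ u v : ℕ, ((‖∑ j ∈ J, c j * ex (((M : ℝ) - ((L : ℝ) - 1) + u + v) * α j)‖ : ℂ)) ^ 2
        = ∑ j ∈ J, ∑ k ∈ J, c j * (starRingEnd ℂ) (c k)
          * ex (((M - (L - 1) : ℤ) : ℝ) * (α j - α k)) * (ex (u * (α j - α k)) * ex (v * (α j - α k))) := by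
      intro u v
      have := h2 (M - (L - 1) + u + v)
      push_cast at this
      rw [this]
      refine sum_congr rfl fun j _ => sum_congr rfl fun k _ => ?_
      have e : ((M : ℝ) - ((L : ℝ) - 1) + u + v) * (α j - α k)
          = ((M - (L - 1) : ℤ) : ℝ) * (α j - α k) + (u * (α j - α k) + v * (α j - α k)) := by
        push_cast
        ring
      rw [e, ex_add, ex_add]
      ring
    simp_rw [h4]
    have h5 : ∀ j ∈ J, ∀ k ∈ J, ∑ u ∈ range (2 * L), ∑ v ∈ range (2 * L),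
        c j * (starRingEnd ℂ) (c k)
          * ex (((M - (L - 1) : ℤ) : ℝ) * (α j - α k)) * (ex (u * (α j - α k)) * ex (v * (α j - α k)))
        = c j * (starRingEnd ℂ) (c k) * ex (((M - (L - 1) : ℤ) : ℝ) * (α j - α k))
        * (∑ u ∈ range (2 * L), ex (u * (α j - α k))) ^ 2 := by
      intro j _ k _
      rw [pow_two, sum_mul_sum, mul_sum]
      refine sum_congr rfl fun u _ => ?_
      rw [mul_sum]
    calc _ = ∑ u ∈ range (2 * L), ∑ j ∈ J, ∑ k ∈ J, ∑ v ∈ range (2 * L), c j * (starRingEnd ℂ) (c k)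
          * ex (((M - (L - 1) : ℤ) : ℝ) * (α j - α k))
          * (ex (u * (α j - α k)) * ex (v * (α j - α k))) := by
          refine sum_congr rfl fun u _ => ?_
          rw [sum_comm]
          refine sum_congr rfl fun j _ => ?_
          rw [sum_comm]
      _ = ∑ j ∈ J, ∑ k ∈ J, ∑ u ∈ range (2 * L), ∑ v ∈ range (2 * L), c j * (starRingEnd ℂ) (c k)
          * ex (((M - (L - 1) : ℤ) : ℝ) * (α j - α k))
          * (ex (u * (α j - α k)) * ex (v * (α j - α k))) := by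
          rw [sum_comm]
          refine sum_congr rfl fun j _ => ?_
          rw [sum_comm]
      _ = _ := by
          push_cast
          refine sum_congr rfl fun j hj => sum_congr rfl fun k hk => ?_
          have := h5 j hj k hk
          push_cast at this
          exact this
  set G : ι → ι → ℝ := fun j k => ‖∑ u ∈ range (2 * L), ex (u * (α j - α k))‖ ^ 2 with hG
  have hGsymm : ∀ j k, G j k = G k j := by
    intro j k
    rw [hG]
    simp only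
    congr 1
    rw [← Complex.norm_conj, map_sum]
    congr 1
    refine sum_congr rfl fun u _ => ?_
    rw [conj_ex]
    congr 1
    ring
  have h6 : ∑ u ∈ range (2 * L), ∑ v ∈ range (2 * L),
      ‖∑ j ∈ J, c j * ex (((M - (L - 1) + u + v : ℤ) : ℝ) * α j)‖ ^ 2
      ≤ ∑ j ∈ J, ∑ k ∈ J, ‖c j‖ * ‖c k‖ * G j k := by
    have h7 : ∑ u ∈ range (2 * L), ∑ v ∈ range (2 * L),
      ‖∑ j ∈ J, c j * ex (((M - (L - 1) + u + v : ℤ) : ℝ) * α j)‖ ^ 2
      ≤ ‖((∑ u ∈ range (2 * L), ∑ v ∈ range (2 * L),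
      ‖∑ j ∈ J, c j * ex (((M - (L - 1) + u + v : ℤ) : ℝ) * α j)‖ ^ 2 : ℝ) : ℂ)‖ := by
      rw [Complex.norm_real]
      exact le_abs_self _
    refine h7.trans ?_
    rw [h3]
    refine (norm_sum_le _ _).trans (sum_le_sum fun j _ => ?_)
    refine (norm_sum_le _ _).trans (sum_le_sum fun k _ => ?_)
    rw [norm_mul, norm_mul, norm_mul, norm_ex, mul_one, Complex.norm_conj, norm_pow]
  refine h6.trans ?_
  have h8 : ∑ j ∈ J, ∑ k ∈ J, ‖c j‖ * ‖c k‖ * G j k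
      ≤ ∑ j ∈ J, ∑ k ∈ J, ‖c j‖ ^ 2 * G j k := by
    have a1 : ∑ j ∈ J, ∑ k ∈ J, ‖c j‖ * ‖c k‖ * G j k
        ≤ ∑ j ∈ J, ∑ k ∈ J, (1 / 2 * (‖c j‖ ^ 2 * G j k) + 1 / 2 * (‖c k‖ ^ 2 * G j k)) := by
      refine sum_le_sum fun j _ => sum_le_sum fun k _ => ?_
      have hG0 : 0 ≤ G j k := by rw [hG]; positivity
      have : ‖c j‖ * ‖c k‖ ≤ 1 / 2 * ‖c j‖ ^ 2 + 1 / 2 * ‖c k‖ ^ 2 := by
        nlinarith [sq_nonneg (‖c j‖ - ‖c k‖)]
      calc ‖c j‖ * ‖c k‖ * G j k ≤ (1 / 2 * ‖c j‖ ^ 2 + 1 / 2 * ‖c k‖ ^ 2) * G j k :=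
            mul_le_mul_of_nonneg_right this hG0
        _ = _ := by ring
    refine a1.trans (le_of_eq ?_)
    simp_rw [sum_add_distrib]
    have a2 : ∑ j ∈ J, ∑ k ∈ J, 1 / 2 * (‖c k‖ ^ 2 * G j k)
        = ∑ j ∈ J, ∑ k ∈ J, 1 / 2 * (‖c j‖ ^ 2 * G j k) := by
      rw [sum_comm]
      refine sum_congr rfl fun j _ => sum_congr rfl fun k _ => ?_
      rw [hGsymm]
    rw [a2, ← sum_add_distrib]
    refine sum_congr rfl fun j _ => ?_
    rw [← sum_add_distrib]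
    refine sum_congr rfl fun k _ => ?_
    ring
  refine h8.trans ?_
  rw [mul_sum]
  refine sum_le_sum fun j hj => ?_
  rw [← mul_sum, mul_comm]
  refine mul_le_mul_of_nonneg_right ?_ (by positivity)
  have h9 := sum_geom_sq J α δ hδ hsp (2 * L) j hj
  refine h9.trans (le_of_eq ?_)
  push_cast
  ring

/-- **Additive large sieve.** -/
theorem additive (J : Finset ι) (α : ι → ℝ) (δ : ℝ) (hδ : 0 < δ)
    (hsp : ∀ j ∈ J, ∀ k ∈ J, j ≠ k → δ ≤ |sd (α j - α k)|) (a : ℕ → ℂ) (M : ℤ) (L : ℕ)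
    (hL : 0 < L) :
    (L : ℝ) * ∑ j ∈ J, ‖∑ n ∈ range (2 * L), a n * ex (((M + n : ℤ) : ℝ) * α j)‖ ^ 2
      ≤ (4 * (L : ℝ) ^ 2 + 1 / δ ^ 2) * ∑ n ∈ range (2 * L), ‖a n‖ ^ 2 := by
  set S : ι → ℂ := fun j => ∑ n ∈ range (2 * L), a n * ex (((M + n : ℤ) : ℝ) * α j) with hS
  set W : ℝ := ∑ j ∈ J, ‖S j‖ ^ 2 with hW
  set A : ℝ := ∑ n ∈ range (2 * L), ‖a n‖ ^ 2 with hA
  set D : ℝ := 4 * (L : ℝ) ^ 2 + 1 / δ ^ 2 with hD
  have hW0 : 0 ≤ W := sum_nonneg fun _ _ => by positivity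
  have hA0 : 0 ≤ A := sum_nonneg fun _ _ => by positivity
  have hD0 : 0 ≤ D := by positivity
  have hLr : (0 : ℝ) < L := by exact_mod_cast hL
  have hdual := dual J α δ hδ hsp (fun j => (starRingEnd ℂ) (S j)) M L
  simp only [Complex.norm_conj] at hdual
  set T : ℕ → ℂ := fun n => ∑ j ∈ J, (starRingEnd ℂ) (S j) * ex (((M + n : ℤ) : ℝ) * α j) with hT
  have h1 : (W : ℂ) = ∑ n ∈ range (2 * L), a n * T n := by
    rw [hW]
    push_cast
    have h2 : ∀ j ∈ J, ((‖S j‖ : ℂ)) ^ 2 = ∑ n ∈ range (2 * L), (starRingEnd ℂ) (S j)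
        * (a n * ex (((M + n : ℤ) : ℝ) * α j)) := by
      intro j _
      rw [← mul_sum, mul_comm]
      have e : ∑ n ∈ range (2 * L), a n * ex (((M + n : ℤ) : ℝ) * α j) = S j := rfl
      rw [e, Complex.mul_conj, Complex.normSq_eq_norm_sq]
      push_cast
      rfl
    rw [sum_congr rfl h2, sum_comm]
    refine sum_congr rfl fun n _ => ?_
    rw [hT]
    simp only
    rw [mul_sum]
    refine sum_congr rfl fun j _ => ?_
    ring
  have h3 : W ≤ ∑ n ∈ range (2 * L), ‖a n‖ * ‖T n‖ := by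
    have : W ≤ ‖(W : ℂ)‖ := by
      rw [Complex.norm_real]
      exact le_abs_self _
    refine this.trans ?_
    rw [h1]
    refine (norm_sum_le _ _).trans (le_of_eq ?_)
    exact sum_congr rfl fun n _ => norm_mul _ _
  have h4 : (∑ n ∈ range (2 * L), ‖a n‖ * ‖T n‖) ^ 2
      ≤ A * ∑ n ∈ range (2 * L), ‖T n‖ ^ 2 := sum_mul_sq_le_sq_mul_sq _ _ _
  have h5 : W ^ 2 ≤ A * ∑ n ∈ range (2 * L), ‖T n‖ ^ 2 := (pow_le_pow_left₀ hW0 h3 2).trans h4
  have h6 : L * W ^ 2 ≤ A * (D * W) := by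
    calc L * W ^ 2 ≤ L * (A * ∑ n ∈ range (2 * L), ‖T n‖ ^ 2) := by gcongr
      _ = A * (L * ∑ n ∈ range (2 * L), ‖T n‖ ^ 2) := by ring
      _ ≤ A * (D * W) := by gcongr
  rcases hW0.eq_or_lt with h | h
  · rw [← h, mul_zero]; positivity
  · have : (L * W) * W ≤ (D * A) * W := by nlinarith
    exact le_of_mul_le_mul_right this h

end Pool.Agent.helper85.BVP
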