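import Pool.Agent.helper85.BVP.Vaughan
import Pool.Agent.helper85.BVP.Tau

/-!
# Type II sums: decomposition into boxes
-/

namespace Pool.Agent.helper85.BVP

open Finset Real ArithmeticFunction

/-- break points. -/
def brk (U K : ℕ) : ℕ → ℕ
  | 0 => U
  | j + 1 => brk U K j + brk U K j / K + 1

lemma brk_succ (U K j : ℕ) : brk U K (j + 1) = brk U K j + brk U K j / K + 1 := rfl

lemma brk_lt (U K j : ℕ) : brk U K j < brk U K (j + 1) := by
  rw [brk_succ]
  exact Nat.lt_succ_of_le (Nat.le_add_right _ _)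

lemma le_brk (U K j : ℕ) : U ≤ brk U K j := by
  induction j with
  | zero => exact le_rfl
  | succ j ih => exact ih.trans (brk_lt U K j).le

lemma brk_mono (U K : ℕ) : Monotone (brk U K) :=
  monotone_nat_of_le_succ fun j => (brk_lt U K j).le

lemma brk_ratio (U K j : ℕ) : brk U K (j + 1) * K ≤ (brk U K j + 1) * (K + 1) := by
  rw [brk_succ]
  have := Nat.div_mul_le_self (brk U K j) K
  nlinarith

lemma brk_add (U K j : ℕ) (i : ℕ) : brk U K j + i * (brk U K j / K + 1) ≤ brk U K (j + i) := by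
  induction i with
  | zero => simp
  | succ i ih =>
    rw [← add_assoc, brk_succ]
    have h1 : brk U K j / K ≤ brk U K (j + i) / K := Nat.div_le_div_right (brk_mono U K (by omega))
    have e : (i + 1) * (brk U K j / K + 1) = i * (brk U K j / K + 1) + (brk U K j / K + 1) := by ring
    omega

lemma brk_double (U K j : ℕ) (hK : 0 < K) : 2 * brk U K j ≤ brk U K (j + K) := by
  have h1 := brk_add U K j K
  have h2 : brk U K j < (brk U K j / K + 1) * K := by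
    have := Nat.div_add_mod (brk U K j) K
    have := Nat.mod_lt (brk U K j) hK
    nlinarith
  have h3 : K * (brk U K j / K + 1) = (brk U K j / K + 1) * K := mul_comm _ _
  omega

lemma brk_pow (U K t : ℕ) (hK : 0 < K) (hU : 0 < U) : 2 ^ t ≤ brk U K (K * t) := by
  induction t with
  | zero =>
    rw [pow_zero, mul_zero]
    exact hU
  | succ t ih =>
    have := brk_double U K (K * t) hK
    rw [pow_succ, mul_add, mul_one]
    omega

lemma sum_brk (U K : ℕ) (G : ℕ → ℝ) (J : ℕ) :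
    ∑ a ∈ Ioc U (brk U K J), G a = ∑ j ∈ range J, ∑ a ∈ Ioc (brk U K j) (brk U K (j + 1)), G a := by
  induction J with
  | zero => simp [brk]
  | succ J ih =>
    rw [sum_range_succ, ← ih, sum_Ioc_consecutive _ (le_brk U K J) (brk_lt U K J).le]

/-- `Λ(n) 1_{n > U}`. -/
noncomputable def alpha (U : ℕ) : ArithmeticFunction ℝ := vonMangoldt - trunc vonMangoldt U

lemma alpha_apply (U n : ℕ) : alpha U n = if n ≤ U then 0 else vonMangoldt n := by
  have : alpha U n = vonMangoldt n - trunc vonMangoldt U n := rfl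
  rw [this, trunc_apply]
  split_ifs <;> simp

lemma alpha_nonneg (U n : ℕ) : 0 ≤ alpha U n := by
  rw [alpha_apply]
  split_ifs
  · exact le_rfl
  · exact vonMangoldt_nonneg

lemma alpha_le (U n : ℕ) : alpha U n ≤ vonMangoldt n := by
  rw [alpha_apply]
  split_ifs
  · exact vonMangoldt_nonneg
  · exact le_rfl

lemma alpha_le_log (U n : ℕ) : alpha U n ≤ Real.log n := (alpha_le U n).trans vonMangoldt_le_log

lemma Zr_apply (n : ℕ) (hn : n ≠ 0) : Zr n = 1 := by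
  rw [Zr, natCoe_apply, zeta_apply, if_neg hn, Nat.cast_one]

lemma abs_Mr_le (n : ℕ) : |Mr n| ≤ 1 := by
  rw [Mr, intCoe_apply]
  exact_mod_cast abs_moebius_le_one (n := n)

lemma beta_apply (V n : ℕ) : beta V n = ∑ p ∈ n.divisorsAntidiagonal, if p.1 ≤ V then 0 else Mr p.1 := by
  rw [beta, mul_apply]
  refine sum_congr rfl fun p hp => ?_
  rw [Nat.mem_divisorsAntidiagonal] at hp
  have h2 : p.2 ≠ 0 := by
    intro h
    rw [h, mul_zero] at hp
    exact hp.2 hp.1.symm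
  rw [Zr_apply _ h2, mul_one]
  have : (Mr - trunc Mr V) p.1 = Mr p.1 - trunc Mr V p.1 := rfl
  rw [this, trunc_apply]
  split_ifs <;> simp

lemma beta_eq_zero (V n : ℕ) (h : n ≤ V) : beta V n = 0 := by
  rw [beta_apply]
  refine sum_eq_zero fun p hp => ?_
  have hp' := Nat.mem_divisorsAntidiagonal.mp hp
  have : p.1 ≤ n := by
    have hn : 0 < n := Nat.pos_of_ne_zero hp'.2
    exact Nat.le_of_dvd hn ⟨p.2, hp'.1.symm⟩
  rw [if_pos (this.trans h)]

lemma abs_beta_le (V n : ℕ) : |beta V n| ≤ tau n := by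
  rw [beta_apply]
  refine (abs_sum_le_sum_abs _ _).trans ?_
  have : ∑ p ∈ n.divisorsAntidiagonal, |if p.1 ≤ V then (0 : ℝ) else Mr p.1|
      ≤ ∑ p ∈ n.divisorsAntidiagonal, (1 : ℝ) := by
    refine sum_le_sum fun p _ => ?_
    split_ifs
    · simp
    · exact abs_Mr_le _
  refine this.trans (le_of_eq ?_)
  rw [sum_const, nsmul_eq_mul, mul_one, tau]
  congr 1
  rw [← Nat.map_div_right_divisors, card_map]

/-- `α * |β| ≤ log · τ`. -/
lemma alpha_conv_le (U V n : ℕ) (hn : n ≠ 0) :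
    ∑ p ∈ n.divisorsAntidiagonal, alpha U p.1 * |beta V p.2| ≤ Real.log n * tau n := by
  have h1 : ∑ p ∈ n.divisorsAntidiagonal, alpha U p.1 * |beta V p.2|
      ≤ ∑ p ∈ n.divisorsAntidiagonal, vonMangoldt p.1 * (Zr * Zr) p.2 := by
    refine sum_le_sum fun p hp => ?_
    have hp' := Nat.mem_divisorsAntidiagonal.mp hp
    have h2 : p.2 ≠ 0 := by
      intro h
      rw [h, mul_zero] at hp'
      exact hn hp'.1.symm
    have h3 : (Zr * Zr) p.2 = tau p.2 := by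
      rw [mul_apply]
      have : ∀ x ∈ p.2.divisorsAntidiagonal, Zr x.1 * Zr x.2 = (1 : ℝ) := by
        intro x hx
        have hx' := Nat.mem_divisorsAntidiagonal.mp hx
        rw [Zr_apply _ (by rintro h; rw [h, zero_mul] at hx'; exact h2 hx'.1.symm),
          Zr_apply _ (by rintro h; rw [h, mul_zero] at hx'; exact h2 hx'.1.symm), mul_one]
      rw [sum_congr rfl this, sum_const, nsmul_eq_mul, mul_one, tau]
      congr 1
      rw [← Nat.map_div_right_divisors, card_map]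
    rw [h3]
    exact mul_le_mul (alpha_le _ _) (abs_beta_le _ _) (abs_nonneg _) vonMangoldt_nonneg
  refine h1.trans ?_
  have h2 : ∑ p ∈ n.divisorsAntidiagonal, vonMangoldt p.1 * (Zr * Zr) p.2
      = (vonMangoldt * (Zr * Zr)) n := by rw [mul_apply]
  have h3 : (vonMangoldt * (Zr * Zr) : ArithmeticFunction ℝ) = ArithmeticFunction.log * Zr := by
    rw [← mul_assoc, vonMangoldt_mul_zeta]
  rw [h2, h3, mul_apply]
  have h4 : ∑ p ∈ n.divisorsAntidiagonal, ArithmeticFunction.log p.1 * Zr p.2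
      ≤ ∑ p ∈ n.divisorsAntidiagonal, Real.log n := by
    refine sum_le_sum fun p hp => ?_
    have hp' := Nat.mem_divisorsAntidiagonal.mp hp
    rw [Zr_apply _ (by rintro h; rw [h, mul_zero] at hp'; exact hn hp'.1.symm), mul_one, log_apply]
    exact log_nat_le (Nat.le_of_dvd (Nat.pos_of_ne_zero hn) ⟨p.2, hp'.1.symm⟩)
  refine h4.trans (le_of_eq ?_)
  rw [sum_const, nsmul_eq_mul, mul_comm, tau]
  congr 2
  rw [← Nat.map_div_right_divisors, card_map]

/-- one box. -/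
lemma box_bound (P : Finset ℕ) (hP : ∀ q ∈ P, q.Prime) (Q : ℕ) (hQ : 1 ≤ Q)
    (hPQ : ∀ q ∈ P, q ≤ Q) (hPQ' : ∀ q ∈ P, Q ≤ 2 * q) (c : ∀ q : ℕ, ZMod q)
    (hc : ∀ q ∈ P, c q ≠ 0) (x U m₀ m : ℕ) (hU : 1 ≤ U) (hm₀ : U ≤ m₀) (hm : m₀ ≤ m) :
    ∑ q ∈ P, |∑ a ∈ Ioc m₀ m, ∑ b ∈ Ioc 0 (x / m), alpha U a * beta U b * ker q (c q) (a * b)|
      ≤ 20 * (1 + Real.log x) ^ 3 * ((x : ℝ) / Q + 2 * x / √U + Q * √x) := by
  have hQr : (0 : ℝ) < Q := by exact_mod_cast hQ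
  have hUr : (1 : ℝ) ≤ U := by exact_mod_cast hU
  have hx0 : (0 : ℝ) ≤ x := Nat.cast_nonneg x
  set L := 1 + Real.log x with hL
  have hlog := Real.log_natCast_nonneg x
  have hL1 : 1 ≤ L := by linarith
  have hrhs : 0 ≤ 20 * L ^ 3 * ((x : ℝ) / Q + 2 * x / √U + Q * √x) := by positivity
  set N := x / m with hN
  by_cases hNU : N ≤ U
  · have : ∀ q ∈ P, |∑ a ∈ Ioc m₀ m, ∑ b ∈ Ioc 0 N, alpha U a * beta U b * ker q (c q) (a * b)| = 0 := by
      intro q _
      rw [abs_eq_zero]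
      refine sum_eq_zero fun a _ => sum_eq_zero fun b hb => ?_
      rw [beta_eq_zero U b ((mem_Ioc.mp hb).2.trans hNU)]
      ring
    rw [sum_eq_zero this]
    exact hrhs
  push Not at hNU
  have hm0 : 0 < m := by omega
  have hmN : m * N ≤ x := Nat.mul_div_le x m
  have hmx : m ≤ x := by
    calc m = m * 1 := (mul_one m).symm
      _ ≤ m * N := Nat.mul_le_mul_left m (by omega)
      _ ≤ x := hmN
  have hx1 : 1 ≤ x := by omega
  have hb := bilinear_sum P hP Q hQ hPQ hPQ' c hc m₀ (m - m₀) 0 N (Ioc m₀ m) (Ioc 0 N)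
    (by rw [Nat.add_sub_cancel' hm]) (by rw [zero_add]) (fun a => alpha U a) (fun b => beta U b)
  refine hb.trans ?_
  have hα : ∑ a ∈ Ioc m₀ m, alpha U a ^ 2 ≤ m * L ^ 2 := by
    have h1 : ∀ a ∈ Ioc m₀ m, alpha U a ^ 2 ≤ L ^ 2 := by
      intro a ha
      refine pow_le_pow_left₀ (alpha_nonneg U a) ?_ 2
      refine (alpha_le_log U a).trans ?_
      have := log_nat_le ((mem_Ioc.mp ha).2.trans hmx)
      linarith
    refine (sum_le_sum h1).trans ?_
    rw [sum_const, nsmul_eq_mul, Nat.card_Ioc]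
    refine mul_le_mul_of_nonneg_right ?_ (by positivity)
    exact_mod_cast Nat.sub_le m m₀
  have hβ : ∑ b ∈ Ioc 0 N, beta U b ^ 2 ≤ N * L ^ 3 := by
    have h1 : ∀ b ∈ Ioc 0 N, beta U b ^ 2 ≤ tau b ^ 2 := by
      intro b _
      rw [← sq_abs]
      exact pow_le_pow_left₀ (abs_nonneg _) (abs_beta_le U b) 2
    refine (sum_le_sum h1).trans ((sum_tau_sq_le N).trans ?_)
    refine mul_le_mul_of_nonneg_left ?_ (Nat.cast_nonneg N)
    have h2 := Real.log_natCast_nonneg N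
    have h3 := log_nat_le (Nat.div_le_self x m)
    rw [← hN] at h3
    exact pow_le_pow_left₀ (by linarith) (by linarith) 3
  have hmr : (0 : ℝ) ≤ m := Nat.cast_nonneg m
  have hNr : (0 : ℝ) ≤ N := Nat.cast_nonneg N
  have hmNr : (m : ℝ) * N ≤ x := by exact_mod_cast hmN
  have hU0 : (0 : ℝ) < U := by linarith
  have hNx : (N : ℝ) ≤ x / U := by
    rw [le_div_iff₀ hU0]
    have : (U : ℝ) ≤ m := by exact_mod_cast (by omega : U ≤ m)
    nlinarith
  have hmxU : (m : ℝ) ≤ x / U := by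
    rw [le_div_iff₀ hU0]
    have : (U : ℝ) ≤ N := by exact_mod_cast hNU.le
    nlinarith
  have hmm : (((m - m₀ : ℕ) : ℝ)) ≤ m := by exact_mod_cast Nat.sub_le m m₀
  have h1 : (((m - m₀ : ℕ) : ℝ) + Q ^ 2) * ((N : ℝ) + Q ^ 2) * (∑ a ∈ Ioc m₀ m, alpha U a ^ 2)
      * (∑ b ∈ Ioc 0 N, beta U b ^ 2)
      ≤ (L ^ 3) ^ 2 * (x * (√x + Q * (2 * √x / √U) + Q ^ 2) ^ 2) := by
    have h2 : (((m - m₀ : ℕ) : ℝ) + Q ^ 2) * ((N : ℝ) + Q ^ 2) ≤ (√x + Q * (2 * √x / √U) + Q ^ 2) ^ 2 := by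
      have hsx := Real.sq_sqrt hx0
      have hsU := Real.sq_sqrt hU0.le
      have hsU0 : 0 < √(U : ℝ) := Real.sqrt_pos.mpr hU0
      have h3 : (2 * √(x : ℝ) / √U) ^ 2 = 4 * (x / U) := by
        rw [div_pow, mul_pow, hsx, hsU]
        ring
      have h4 : (((m - m₀ : ℕ) : ℝ) + Q ^ 2) * ((N : ℝ) + Q ^ 2) ≤ (m + Q ^ 2) * (N + Q ^ 2) := by
        gcongr
      have h5 : ((m : ℝ) + Q ^ 2) * (N + Q ^ 2) ≤ x + Q ^ 2 * (2 * (x / U)) + (Q ^ 2) ^ 2 := by
        nlinarith [sq_nonneg (Q : ℝ)]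
      refine h4.trans (h5.trans ?_)
      have e : (√(x : ℝ) + Q * (2 * √x / √U) + Q ^ 2) ^ 2
          = √x ^ 2 + Q ^ 2 * (2 * √x / √U) ^ 2 + (Q ^ 2) ^ 2
            + 2 * (√x * (Q * (2 * √x / √U)) + √x * Q ^ 2 + (Q * (2 * √x / √U)) * Q ^ 2) := by ring
      rw [e, hsx, h3]
      have h6 : 0 ≤ √(x : ℝ) * (Q * (2 * √x / √U)) + √x * Q ^ 2 + (Q * (2 * √x / √U)) * Q ^ 2 := by
        positivity
      have h7 : 0 ≤ (Q : ℝ) ^ 2 * (x / U) := by positivity
      nlinarith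
    have h8 : (∑ a ∈ Ioc m₀ m, alpha U a ^ 2) * (∑ b ∈ Ioc 0 N, beta U b ^ 2) ≤ x * L ^ 6 := by
      calc _ ≤ (m * L ^ 2) * (N * L ^ 3) :=
            mul_le_mul hα hβ (sum_nonneg fun _ _ => sq_nonneg _) (by positivity)
        _ = (m * N) * L ^ 5 := by ring
        _ ≤ x * L ^ 6 := by
            refine mul_le_mul hmNr (pow_le_pow_right₀ hL1 (by norm_num)) (by positivity) hx0
    calc _ = (((m - m₀ : ℕ) : ℝ) + Q ^ 2) * ((N : ℝ) + Q ^ 2) * ((∑ a ∈ Ioc m₀ m, alpha U a ^ 2)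
      * (∑ b ∈ Ioc 0 N, beta U b ^ 2)) := by ring
      _ ≤ (√x + Q * (2 * √x / √U) + Q ^ 2) ^ 2 * (x * L ^ 6) :=
          mul_le_mul h2 h8 (mul_nonneg (sum_nonneg fun _ _ => sq_nonneg _)
            (sum_nonneg fun _ _ => sq_nonneg _)) (by positivity)
      _ = _ := by ring
  have h2 := Real.sqrt_le_sqrt h1
  have h3 : √((L ^ 3) ^ 2 * (x * (√x + Q * (2 * √x / √U) + Q ^ 2) ^ 2))
      = L ^ 3 * (√x * (√x + Q * (2 * √x / √U) + Q ^ 2)) := by
    rw [Real.sqrt_mul (by positivity), Real.sqrt_sq (by positivity), Real.sqrt_mul hx0,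
      Real.sqrt_sq (by positivity)]
  rw [h3] at h2
  calc _ ≤ 20 / (Q : ℝ) * (L ^ 3 * (√x * (√x + Q * (2 * √x / √U) + Q ^ 2))) :=
        mul_le_mul_of_nonneg_left h2 (by positivity)
    _ = 20 * L ^ 3 * ((√x * √x) / Q + 2 * (√x * √x) / √U + Q * √x) := by
        have hsU0 : 0 < √(U : ℝ) := Real.sqrt_pos.mpr hU0
        field_simp
    _ = _ := by rw [Real.mul_self_sqrt hx0]

end Pool.Agent.helper85.BVP
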