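import Pool.Agent.Lib.SieveInterval
import Pool.Agent.Lib.PrimeSums

/-!
# Arithmetic sums used in the second moment

The first part (the function `h`, the choice of the sieving level, `theta_half`) is copied from
`Pool.Agent.helper35.LinPrimes`, so that this library does not depend on it.
-/

namespace Pool.Agent.helper85.BVP

open Finset Pool.Agent.Lib.BrunHooley

/-- `h n = n / φ(n)`. -/
noncomputable def h (n : ℕ) : ℝ := ∏ p ∈ n.primeFactors, (1 - 1 / (p : ℝ))⁻¹

lemma one_sub_inv_pos {p : ℕ} (hp : p.Prime) : 0 < 1 - 1 / (p : ℝ) := by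
  have : (2 : ℝ) ≤ p := by exact_mod_cast hp.two_le
  rw [sub_pos, div_lt_one (by linarith)]
  linarith

lemma one_le_inv {p : ℕ} (hp : p.Prime) : 1 ≤ (1 - 1 / (p : ℝ))⁻¹ := by
  rw [one_le_inv₀ (one_sub_inv_pos hp)]
  have : (0 : ℝ) ≤ 1 / p := by positivity
  linarith

lemma one_le_h (n : ℕ) : 1 ≤ h n :=
  Finset.one_le_prod fun _ hp => one_le_inv (Nat.prime_of_mem_primeFactors hp)

lemma h_pos (n : ℕ) : 0 < h n := lt_of_lt_of_le one_pos (one_le_h n)

lemma h_mul_le {m n : ℕ} (hm : m ≠ 0) (hn : n ≠ 0) : h (m * n) ≤ h m * h n := by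
  unfold h
  rw [Nat.primeFactors_mul hm hn, ← Finset.prod_union_inter]
  have h1 : 1 ≤ ∏ p ∈ m.primeFactors ∩ n.primeFactors, (1 - 1 / (p : ℝ))⁻¹ :=
    Finset.one_le_prod fun p hp => one_le_inv (Nat.prime_of_mem_primeFactors (mem_inter.mp hp).1)
  have h2 : 0 ≤ ∏ p ∈ m.primeFactors ∪ n.primeFactors, (1 - 1 / (p : ℝ))⁻¹ := by
    refine prod_nonneg fun p hp => ?_
    have hp' : p.Prime := by
      rcases mem_union.mp hp with h | h <;> exact Nat.prime_of_mem_primeFactors h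
    exact zero_le_one.trans (one_le_inv hp')
  nlinarith

lemma h_prime_pow {l j : ℕ} (hl : l.Prime) : h (l ^ j) ≤ 2 := by
  rcases Nat.eq_zero_or_pos j with rfl | hj
  · simp [h]
  · rw [h, Nat.primeFactors_prime_pow hj.ne' hl, prod_singleton]
    have h2 : (2 : ℝ) ≤ l := by exact_mod_cast hl.two_le
    rw [inv_le_comm₀ (one_sub_inv_pos hl) (by norm_num)]
    have : 1 / (l : ℝ) ≤ 1 / 2 := one_div_le_one_div_of_le (by norm_num) h2
    linarith

/-- sieve product, one residue class outside the divisors of `d`. -/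
lemma prod_bt (z d : ℕ) (hz : 1 ≤ z) (hd : d ≠ 0) (w : ℕ → ℕ) (hw : ∀ l, l.Prime → ¬ l ∣ d → 1 ≤ w l)
    (hwl : ∀ l, l.Prime → w l < l) :
    ∏ l ∈ Nat.primesLE z, (1 - (w l : ℝ) / l) ≤ h d / Real.log (z + 1) := by
  have hlog : 0 < Real.log (z + 1) := Real.log_pos (by
    have : (1 : ℝ) ≤ z := by exact_mod_cast hz
    linarith)
  have h1 : ∀ l ∈ Nat.primesLE z, (1 - (w l : ℝ) / l)
      ≤ (1 - 1 / (l : ℝ)) * (if l ∣ d then (1 - 1 / (l : ℝ))⁻¹ else 1) := by
    intro l hl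
    have hlp := (Nat.mem_primesLE.mp hl).2
    have hl0 : (0 : ℝ) < l := by exact_mod_cast hlp.pos
    split_ifs with hd
    · rw [mul_inv_cancel₀ (one_sub_inv_pos hlp).ne']
      have : 0 ≤ (w l : ℝ) / l := by positivity
      linarith
    · rw [mul_one]
      have : 1 / (l : ℝ) ≤ w l / l :=
        div_le_div_of_nonneg_right (by exact_mod_cast hw l hlp hd) hl0.le
      linarith
  have h0 : ∀ l ∈ Nat.primesLE z, 0 ≤ (1 - (w l : ℝ) / l) := by
    intro l hl
    have hlp := (Nat.mem_primesLE.mp hl).2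
    have hl0 : (0 : ℝ) < l := by exact_mod_cast hlp.pos
    rw [sub_nonneg, div_le_one hl0]
    exact_mod_cast (hwl l hlp).le
  refine (prod_le_prod h0 h1).trans ?_
  rw [prod_mul_distrib]
  have h2 := Pool.Agent.Lib.PrimeSums.prod_one_sub_le z hz
  have h3 : ∏ l ∈ Nat.primesLE z, (if l ∣ d then (1 - 1 / (l : ℝ))⁻¹ else 1) ≤ h d := by
    rw [← prod_filter, h]
    refine Finset.prod_le_prod_of_subset_of_one_le ?_ ?_ ?_
    · intro l hl
      rw [mem_filter, Nat.mem_primesLE] at hl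
      exact Nat.mem_primeFactors.mpr ⟨hl.1.2, hl.2, hd⟩
    · intro l hl
      rw [mem_filter, Nat.mem_primesLE] at hl
      exact zero_le_one.trans (one_le_inv hl.1.2)
    · intro l hl _
      exact one_le_inv (Nat.prime_of_mem_primeFactors hl)
  have h4 : 0 ≤ ∏ l ∈ Nat.primesLE z, (if l ∣ d then (1 - 1 / (l : ℝ))⁻¹ else 1) := by
    refine prod_nonneg fun l hl => ?_
    split_ifs
    · exact zero_le_one.trans (one_le_inv (Nat.mem_primesLE.mp hl).2)
    · exact zero_le_one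
  calc _ ≤ (1 / Real.log (z + 1)) * h d := mul_le_mul h2 h3 h4 (by positivity)
    _ = _ := by ring

/-- sieve product, two residue classes outside the divisors of `n`. -/
lemma sum_inv_sq_primes (n : ℕ) : ∑ l ∈ Nat.primesLE n, 1 / (l : ℝ) ^ 2 ≤ 1 := by
  have h1 : ∀ m : ℕ, ∑ l ∈ Ico 2 (m + 2), 1 / (l : ℝ) ^ 2 ≤ 1 - 1 / ((m : ℝ) + 1) := by
    intro m
    induction m with
    | zero => simp
    | succ m ih =>
      rw [sum_Ico_succ_top (by omega)]
      have h2 : (0 : ℝ) < m + 1 := by positivity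
      have h3 : (0 : ℝ) < m + 2 := by positivity
      have e : 1 / (((m + 2 : ℕ) : ℝ)) ^ 2 ≤ 1 / ((m : ℝ) + 1) - 1 / (m + 2) := by
        push_cast
        rw [div_sub_div _ _ h2.ne' h3.ne', div_le_div_iff₀ (by positivity) (by positivity)]
        nlinarith
      push_cast at *
      have e2 : (m : ℝ) + 1 + 1 = m + 2 := by ring
      rw [e2]
      linarith
  calc ∑ l ∈ Nat.primesLE n, 1 / (l : ℝ) ^ 2 ≤ ∑ l ∈ Ico 2 (n + 2), 1 / (l : ℝ) ^ 2 := by
        refine sum_le_sum_of_subset_of_nonneg ?_ (fun _ _ _ => by positivity)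
        intro l hl
        rw [Nat.mem_primesLE] at hl
        have := hl.2.two_le
        rw [mem_Ico]; omega
    _ ≤ 1 - 1 / ((n : ℝ) + 1) := h1 n
    _ ≤ 1 := by
        have : (0 : ℝ) ≤ 1 / ((n : ℝ) + 1) := by positivity
        linarith

lemma log_le_of_sq {x u : ℝ} (hu : 0 < u) (h : x = u ^ 4) : Real.log x ≤ 4 * u := by
  rw [h, Real.log_pow]
  have := Real.log_le_sub_one_of_pos hu
  push_cast
  linarith

/-- choice of the sifting level. -/
lemma pick_r (B y : ℕ) (hy : 4 ^ (B + 1) ≤ y) :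
    ∃ r, (Z r) ^ (2 * (B + 1)) ≤ y ∧ Real.log y ≤ 4 * (B + 1) * Real.log (Z r) := by
  classical
  set P : ℕ → Prop := fun r => (Z r) ^ (2 * (B + 1)) ≤ y with hP
  have h0 : P 0 := by
    have e : Z 0 = 2 := by norm_num [Z]
    rw [hP]
    simp only [e]
    rw [pow_mul]
    exact hy
  set r := Nat.findGreatest P y with hr
  have hPr : P r := Nat.findGreatest_spec (P := P) (Nat.zero_le y) h0
  have hZr : ∀ n : ℕ, n < Z n := by
    intro n
    have h1 : n < 2 ^ n := Nat.lt_two_pow_self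
    have h2 : 2 ^ n < 2 ^ 2 ^ n := Nat.lt_two_pow_self
    exact h1.trans h2
  have hnot : ¬ P (r + 1) := by
    intro h
    have h1 : r + 1 < Z (r + 1) := hZr _
    have h2 : Z (r + 1) ≤ (Z (r + 1)) ^ (2 * (B + 1)) := Nat.le_self_pow (by omega) _
    have h3 : (Z (r + 1)) ^ (2 * (B + 1)) ≤ y := h
    exact Nat.findGreatest_is_greatest (P := P) (Nat.lt_succ_self r) (by omega) h
  refine ⟨r, hPr, ?_⟩
  have hlt : y < (Z r) ^ (4 * (B + 1)) := by
    have h1 : y < (Z (r + 1)) ^ (2 * (B + 1)) := not_le.mp hnot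
    rw [Z_succ, ← pow_two, ← pow_mul] at h1
    rw [show 4 * (B + 1) = 2 * (2 * (B + 1)) by ring]
    exact h1
  have hy0 : (0 : ℝ) < y := by
    have : 0 < 4 ^ (B + 1) := by positivity
    exact_mod_cast lt_of_lt_of_le this hy
  have h1 : Real.log y ≤ Real.log ((Z r : ℝ) ^ (4 * (B + 1))) :=
    Real.log_le_log hy0 (by exact_mod_cast hlt.le)
  rw [Real.log_pow] at h1
  push_cast at h1
  linarith

lemma theta_half (n : ℕ) (hn : 50 ^ 4 ≤ n) : (n : ℝ) / 2 ≤ Chebyshev.theta n := by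
  have h1 := Chebyshev.theta_ge n
  have hnr : (50 : ℝ) ^ 4 ≤ n := by exact_mod_cast hn
  have hn0 : (0 : ℝ) < n := by linarith [show (0 : ℝ) < 50 ^ 4 by positivity]
  set s := Real.sqrt n with hs_def
  have hs0 : 0 < s := Real.sqrt_pos.mpr hn0
  have hs2 : s ^ 2 = n := Real.sq_sqrt hn0.le
  set u := Real.sqrt s with hu_def
  have hu0 : 0 < u := Real.sqrt_pos.mpr hs0
  have hu2 : u ^ 2 = s := Real.sq_sqrt hs0.le
  have hu4 : (n : ℝ) = u ^ 4 := by rw [← hs2, ← hu2]; ring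
  have hlogu : Real.log n ≤ 4 * u := log_le_of_sq hu0 hu4
  have hu50 : 50 ≤ u := by
    rw [hu4] at hnr
    exact (pow_le_pow_iff_left₀ (by norm_num) hu0.le (by norm_num)).mp hnr
  have h2 : Real.log (n + 1) ≤ 1 + 4 * u := by
    have h3 : Real.log (n + 1) ≤ Real.log (2 * n) := Real.log_le_log (by linarith) (by
      have : (1 : ℝ) ≤ n := le_trans (by norm_num) hnr
      linarith)
    rw [Real.log_mul (by norm_num) hn0.ne'] at h3
    have := Real.log_two_lt_d9
    linarith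
  have h4 : 2 * s * Real.log n ≤ 8 * u ^ 3 := by
    rw [← hu2]
    nlinarith [mul_le_mul_of_nonneg_left hlogu (by positivity : 0 ≤ 2 * u ^ 2)]
  have h5 := Real.log_two_gt_d9
  have h6 : (n : ℝ) * 0.69 ≤ n * Real.log 2 := mul_le_mul_of_nonneg_left (by linarith) hn0.le
  have h7 : 8 * u ^ 3 + (1 + 4 * u) ≤ 0.19 * u ^ 4 := by
    have e1 : 50 * u ^ 3 ≤ u ^ 4 := by nlinarith [pow_pos hu0 3]
    have e2 : 2500 * u ^ 2 ≤ u ^ 4 := by nlinarith [pow_pos hu0 2, mul_le_mul hu50 hu50 (by norm_num) hu0.le]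
    nlinarith
  rw [← hu4] at h7
  linarith

lemma h4_le (b : ℕ) : h b ^ 4 ≤ ∑ T ∈ b.primeFactors.powerset, ∏ l ∈ T, (30 / (l : ℝ)) := by
  rw [← Finset.prod_one_add, h, ← prod_pow]
  refine prod_le_prod (fun l hl => by
    have := one_le_inv (Nat.prime_of_mem_primeFactors hl)
    positivity) fun l hl => ?_
  have hlp := Nat.prime_of_mem_primeFactors hl
  have h2 : (2 : ℝ) ≤ l := by exact_mod_cast hlp.two_le
  have e : (1 - 1 / (l : ℝ)) = (l - 1) / l := by field_simp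
  rw [e, inv_div, div_pow, div_le_iff₀ (by
    have : (0 : ℝ) < l - 1 := by linarith
    positivity)]
  have e2 : (1 + 30 / (l : ℝ)) * (l - 1) ^ 4 = (l + 30) * (l - 1) ^ 4 / l := by field_simp
  rw [e2, le_div_iff₀ (by linarith)]
  set t := (l : ℝ) - 2 with ht
  have ht0 : 0 ≤ t := by linarith
  have hl' : (l : ℝ) = t + 2 := by rw [ht]; ring
  rw [hl']
  have : (t + 2 + 30) * (t + 2 - 1) ^ 4 - (t + 2) ^ 4 * (t + 2)
      = 26 * t ^ 4 + 94 * t ^ 3 + 116 * t ^ 2 + 49 * t := by ring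
  have h3 : 0 ≤ 26 * t ^ 4 + 94 * t ^ 3 + 116 * t ^ 2 + 49 * t := by positivity
  linarith

lemma sum_h4 (n : ℕ) : ∑ b ∈ Ioc 0 n, h b ^ 4 ≤ Real.exp 30 * n := by
  classical
  have h1 : ∑ b ∈ Ioc 0 n, h b ^ 4
      ≤ ∑ b ∈ Ioc 0 n, ∑ T ∈ (Nat.primesLE n).powerset,
        if (∏ l ∈ T, l) ∣ b then (∏ l ∈ T, (30 / (l : ℝ))) else 0 := by
    refine sum_le_sum fun b hb => ?_
    rw [mem_Ioc] at hb
    calc h b ^ 4 ≤ ∑ T ∈ b.primeFactors.powerset, ∏ l ∈ T, (30 / (l : ℝ)) := h4_le b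
      _ ≤ ∑ T ∈ b.primeFactors.powerset,
            if (∏ l ∈ T, l) ∣ b then (∏ l ∈ T, (30 / (l : ℝ))) else 0 := by
          refine sum_le_sum fun T hT => ?_
          rw [mem_powerset] at hT
          rw [if_pos]
          refine Finset.prod_primes_dvd b (fun l hl => ?_) (fun l hl => ?_)
          · exact (Nat.prime_of_mem_primeFactors (hT hl)).prime
          · exact Nat.dvd_of_mem_primeFactors (hT hl)
      _ ≤ _ := by
          refine sum_le_sum_of_subset_of_nonneg ?_ (fun T _ _ => ?_)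
          · refine powerset_mono.mpr fun l hl => ?_
            rw [Nat.mem_primesLE]
            exact ⟨(Nat.le_of_dvd (by omega) (Nat.dvd_of_mem_primeFactors hl)).trans hb.2,
              Nat.prime_of_mem_primeFactors hl⟩
          · split_ifs
            · positivity
            · exact le_rfl
  refine h1.trans ?_
  rw [sum_comm]
  have h2 : ∀ T ∈ (Nat.primesLE n).powerset, (∑ b ∈ Ioc 0 n,
      if (∏ l ∈ T, l) ∣ b then (∏ l ∈ T, (30 / (l : ℝ))) else 0)
      ≤ (∏ l ∈ T, (30 / (l : ℝ) ^ 2)) * n := by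
    intro T hT
    rw [mem_powerset] at hT
    have hpos : 0 < ∏ l ∈ T, l := prod_pos fun l hl => (Nat.mem_primesLE.mp (hT hl)).2.pos
    rw [← sum_filter, sum_const, nsmul_eq_mul, Nat.Ioc_filter_dvd_card_eq_div]
    have h3 : ((n / ∏ l ∈ T, l : ℕ) : ℝ) ≤ n / ((∏ l ∈ T, l : ℕ) : ℝ) := Nat.cast_div_le
    refine (mul_le_mul_of_nonneg_right h3 (prod_nonneg fun l _ => by positivity)).trans (le_of_eq ?_)
    push_cast
    rw [div_mul_eq_mul_div, mul_comm (n : ℝ), mul_div_right_comm, ← prod_div_distrib]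
    congr 1
    refine prod_congr rfl fun l _ => ?_
    rw [pow_two, ← div_div]
  refine (sum_le_sum h2).trans ?_
  rw [← sum_mul, ← Finset.prod_one_add]
  refine mul_le_mul_of_nonneg_right ?_ (Nat.cast_nonneg n)
  calc ∏ l ∈ Nat.primesLE n, (1 + 30 / (l : ℝ) ^ 2)
      ≤ ∏ l ∈ Nat.primesLE n, Real.exp (30 * (1 / (l : ℝ) ^ 2)) := by
        refine prod_le_prod (fun l _ => by positivity) fun l _ => ?_
        have := Real.add_one_le_exp (30 * (1 / (l : ℝ) ^ 2))
        have e : 30 / (l : ℝ) ^ 2 = 30 * (1 / (l : ℝ) ^ 2) := by ring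
        rw [e]; linarith
    _ = Real.exp (30 * ∑ l ∈ Nat.primesLE n, 1 / (l : ℝ) ^ 2) := by
        rw [mul_sum, Real.exp_sum]
    _ ≤ Real.exp 30 := by
        rw [Real.exp_le_exp]
        have := sum_inv_sq_primes n
        linarith

end Pool.Agent.helper85.BVP
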