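import Pool.Agent.helper85.BVP.Var

/-!
# Bilinear forms in residue classes to prime moduli
-/

namespace Pool.Agent.helper85.BVP

open Finset Real

/-- `1_{n = c (q)} - 1_{(n,q)=1} / (q - 1)`. -/
noncomputable def ker (q : ℕ) (c : ZMod q) (n : ℕ) : ℝ :=
  (if (n : ZMod q) = c then 1 else 0) - (if (n : ZMod q) = 0 then 0 else 1 / ((q : ℝ) - 1))

/-- the same on `ZMod q`. -/
noncomputable def kz (q : ℕ) (c : ZMod q) (x : ZMod q) : ℝ :=
  (if x = c then 1 else 0) - (if x = 0 then 0 else 1 / ((q : ℝ) - 1))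

lemma ker_eq (q : ℕ) (c : ZMod q) (n : ℕ) : ker q c n = kz q c n := rfl

section
variable (q : ℕ) [hq : Fact q.Prime]

lemma sum_kz (c : ZMod q) : ∑ x : ZMod q, kz q c x = 0 := by
  simp only [kz, sum_sub_distrib]
  rw [sum_ite_eq' univ c, if_pos (mem_univ c)]
  have h1 : ∑ x : ZMod q, (if x = 0 then (0 : ℝ) else 1 / ((q : ℝ) - 1))
      = ∑ x ∈ univ.erase (0 : ZMod q), 1 / ((q : ℝ) - 1) := by
    rw [← sum_erase univ (a := (0 : ZMod q)) (by simp)]
    refine sum_congr rfl fun x hx => ?_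
    rw [if_neg (mem_erase.mp hx).1]
  rw [h1, sum_const, card_erase_of_mem (mem_univ _), card_univ, ZMod.card, nsmul_eq_mul]
  have hq1 := hq.out.one_lt
  have h2 : ((q - 1 : ℕ) : ℝ) = (q : ℝ) - 1 := by
    rw [Nat.cast_sub hq1.le]; norm_num
  have h3 : (q : ℝ) - 1 ≠ 0 := by
    have : (1 : ℝ) < q := by exact_mod_cast hq1
    linarith
  rw [h2]
  field_simp
  ring

lemma sum_kz_mul (c : ZMod q) (hc : c ≠ 0) (h : ZMod q) : ∑ k : ZMod q, kz q c (h * k) = 0 := by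
  by_cases h0 : h = 0
  · subst h0
    refine sum_eq_zero fun k _ => ?_
    rw [zero_mul, kz, if_neg hc.symm, if_pos rfl, sub_zero]
  · rw [← sum_kz q c]
    exact Fintype.sum_equiv (Equiv.mulLeft₀ h h0) _ _ (fun k => rfl)

/-- shifting by constants does not change the form. -/
lemma form_shift (c : ZMod q) (hc : c ≠ 0) (A B : ZMod q → ℝ) (z w : ℝ) :
    ∑ h : ZMod q, ∑ k : ZMod q, A h * B k * kz q c (h * k)
      = ∑ h : ZMod q, ∑ k : ZMod q, (A h - z) * (B k - w) * kz q c (h * k) := by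
  have h1 : ∀ h : ZMod q, ∑ k : ZMod q, w * kz q c (h * k) = 0 := fun h => by
    rw [← mul_sum, sum_kz_mul q c hc, mul_zero]
  have h2 : ∀ k : ZMod q, ∑ h : ZMod q, kz q c (h * k) = 0 := fun k => by
    rw [← sum_kz_mul q c hc k]
    exact sum_congr rfl fun h _ => by rw [mul_comm]
  have e : ∀ h k : ZMod q, (A h - z) * (B k - w) * kz q c (h * k)
      = A h * B k * kz q c (h * k) - (A h - z) * (w * kz q c (h * k)) - z * B k * kz q c (h * k) := by
    intro h k; ring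
  simp_rw [e, sum_sub_distrib]
  have h3 : ∑ h : ZMod q, ∑ k : ZMod q, (A h - z) * (w * kz q c (h * k)) = 0 := by
    refine sum_eq_zero fun h _ => ?_
    rw [← mul_sum, h1, mul_zero]
  have h4 : ∑ h : ZMod q, ∑ k : ZMod q, z * B k * kz q c (h * k) = 0 := by
    rw [sum_comm]
    refine sum_eq_zero fun k _ => ?_
    rw [← mul_sum, h2, mul_zero]
  rw [h3, h4]
  ring

lemma form_bound (c : ZMod q) (hc : c ≠ 0) (A B : ZMod q → ℝ) :
    |∑ h : ZMod q, ∑ k : ZMod q, A h * B k * kz q c (h * k)|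
      ≤ 2 * (√(∑ h : ZMod q, A h ^ 2) * √(∑ k : ZMod q, B k ^ 2)) := by
  have hq1 := hq.out.one_lt
  have hqr : (0 : ℝ) < (q : ℝ) - 1 := by
    have : (1 : ℝ) < q := by exact_mod_cast hq1
    linarith
  set a2 := ∑ h : ZMod q, A h ^ 2 with ha2
  set b2 := ∑ k : ZMod q, B k ^ 2 with hb2
  have ha0 : 0 ≤ a2 := sum_nonneg fun _ _ => sq_nonneg _
  have hb0 : 0 ≤ b2 := sum_nonneg fun _ _ => sq_nonneg _
  have e : ∑ h : ZMod q, ∑ k : ZMod q, A h * B k * kz q c (h * k)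
      = ∑ x ∈ (univ : Finset (ZMod q × ZMod q)) with x.1 * x.2 = c, A x.1 * B x.2
        - 1 / ((q : ℝ) - 1) * ((∑ h ∈ univ.erase (0 : ZMod q), A h)
          * ∑ k ∈ univ.erase (0 : ZMod q), B k) := by
    have e1 : ∀ h k : ZMod q, A h * B k * kz q c (h * k)
        = (if h * k = c then A h * B k else 0)
          - 1 / ((q : ℝ) - 1) * ((if h = 0 then 0 else A h) * (if k = 0 then 0 else B k)) := by
      intro h k
      rw [kz]
      by_cases hh : h = 0
      · subst hh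
        rw [zero_mul, if_neg hc.symm, if_neg hc.symm]
        simp
      · by_cases hk : k = 0
        · subst hk
          rw [mul_zero, if_neg hc.symm, if_neg hc.symm]
          simp
        · rw [if_neg (mul_ne_zero hh hk), if_neg hh, if_neg hk]
          split_ifs <;> ring
    simp_rw [e1, sum_sub_distrib]
    congr 1
    · rw [sum_filter, ← univ_product_univ, sum_product]
    · simp_rw [← mul_sum]
      congr 1
      rw [← sum_mul]
      congr 1
      · rw [← sum_erase univ (a := (0 : ZMod q)) (by simp)]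
        exact sum_congr rfl fun x hx => if_neg (mem_erase.mp hx).1
      · rw [← sum_erase univ (a := (0 : ZMod q)) (by simp)]
        exact sum_congr rfl fun x hx => if_neg (mem_erase.mp hx).1
  rw [e]
  have hsq : √a2 * √b2 = √(a2 * b2) := (Real.sqrt_mul ha0 b2).symm
  have h1 : |∑ x ∈ (univ : Finset (ZMod q × ZMod q)) with x.1 * x.2 = c, A x.1 * B x.2|
      ≤ √a2 * √b2 := by
    rw [hsq]
    apply Real.abs_le_sqrt
    refine (sum_mul_sq_le_sq_mul_sq _ _ _).trans ?_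
    refine mul_le_mul ?_ ?_ (sum_nonneg fun _ _ => sq_nonneg _) ha0
    · rw [ha2, ← sum_fiberwise_of_maps_to (s := (univ : Finset (ZMod q × ZMod q)).filter
        (fun x => x.1 * x.2 = c)) (t := univ) (g := fun x => x.1) (fun _ _ => mem_univ _)]
      refine sum_le_sum fun h _ => ?_
      rw [sum_congr rfl (g := fun _ => A h ^ 2) (fun x hx => by rw [(mem_filter.mp hx).2]),
        sum_const, nsmul_eq_mul]
      have : #{x ∈ (univ : Finset (ZMod q × ZMod q)).filter (fun x => x.1 * x.2 = c) | x.1 = h} ≤ 1 := by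
        rw [card_le_one]
        rintro ⟨x, y⟩ hx ⟨x', y'⟩ hx'
        simp only [mem_filter, mem_univ, true_and] at hx hx'
        obtain ⟨hx1, rfl⟩ := hx
        obtain ⟨hx1', rfl⟩ := hx'
        have hx0 : x' ≠ 0 := by
          rintro rfl
          rw [zero_mul] at hx1
          exact hc hx1.symm
        have : y = y' := mul_left_cancel₀ hx0 (hx1.trans hx1'.symm)
        rw [this]
      have : ((#{x ∈ (univ : Finset (ZMod q × ZMod q)).filter (fun x => x.1 * x.2 = c) | x.1 = h} : ℕ) : ℝ)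
          ≤ 1 := by exact_mod_cast this
      nlinarith [sq_nonneg (A h)]
    · rw [hb2, ← sum_fiberwise_of_maps_to (s := (univ : Finset (ZMod q × ZMod q)).filter
        (fun x => x.1 * x.2 = c)) (t := univ) (g := fun x => x.2) (fun _ _ => mem_univ _)]
      refine sum_le_sum fun h _ => ?_
      rw [sum_congr rfl (g := fun _ => B h ^ 2) (fun x hx => by rw [(mem_filter.mp hx).2]),
        sum_const, nsmul_eq_mul]
      have : #{x ∈ (univ : Finset (ZMod q × ZMod q)).filter (fun x => x.1 * x.2 = c) | x.2 = h} ≤ 1 := by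
        rw [card_le_one]
        rintro ⟨x, y⟩ hx ⟨x', y'⟩ hx'
        simp only [mem_filter, mem_univ, true_and] at hx hx'
        obtain ⟨hx1, rfl⟩ := hx
        obtain ⟨hx1', rfl⟩ := hx'
        have hx0 : y' ≠ 0 := by
          rintro rfl
          rw [mul_zero] at hx1
          exact hc hx1.symm
        have : x = x' := mul_right_cancel₀ hx0 (hx1.trans hx1'.symm)
        rw [this]
      have : ((#{x ∈ (univ : Finset (ZMod q × ZMod q)).filter (fun x => x.1 * x.2 = c) | x.2 = h} : ℕ) : ℝ)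
          ≤ 1 := by exact_mod_cast this
      nlinarith [sq_nonneg (B h)]
  have hcard : ((#(univ.erase (0 : ZMod q)) : ℕ) : ℝ) = (q : ℝ) - 1 := by
    rw [card_erase_of_mem (mem_univ _), card_univ, ZMod.card, Nat.cast_sub hq1.le]
    norm_num
  have hcs : ∀ F : ZMod q → ℝ, |∑ h ∈ univ.erase (0 : ZMod q), F h|
      ≤ √(((q : ℝ) - 1) * ∑ h : ZMod q, F h ^ 2) := by
    intro F
    apply Real.abs_le_sqrt
    refine (sq_sum_le_card_mul_sum_sq).trans ?_
    rw [hcard]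
    refine mul_le_mul_of_nonneg_left ?_ hqr.le
    exact sum_le_sum_of_subset_of_nonneg (subset_univ _) (fun _ _ _ => sq_nonneg _)
  have h2 : |1 / ((q : ℝ) - 1) * ((∑ h ∈ univ.erase (0 : ZMod q), A h)
          * ∑ k ∈ univ.erase (0 : ZMod q), B k)| ≤ √a2 * √b2 := by
    rw [abs_mul, abs_mul, abs_of_pos (by positivity : 0 < 1 / ((q : ℝ) - 1))]
    have h3 := mul_le_mul (hcs A) (hcs B) (abs_nonneg _) (Real.sqrt_nonneg _)
    rw [← ha2, ← hb2, Real.sqrt_mul hqr.le, Real.sqrt_mul hqr.le] at h3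
    have h4 : √((q : ℝ) - 1) * √a2 * (√((q : ℝ) - 1) * √b2) = ((q : ℝ) - 1) * (√a2 * √b2) := by
      have := Real.mul_self_sqrt hqr.le
      calc _ = (√((q : ℝ) - 1) * √((q : ℝ) - 1)) * (√a2 * √b2) := by ring
        _ = _ := by rw [this]
    rw [h4] at h3
    calc 1 / ((q : ℝ) - 1) * (|∑ h ∈ univ.erase (0 : ZMod q), A h|
          * |∑ k ∈ univ.erase (0 : ZMod q), B k|)
        ≤ 1 / ((q : ℝ) - 1) * (((q : ℝ) - 1) * (√a2 * √b2)) := by
          apply mul_le_mul_of_nonneg_left h3 (by positivity)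
      _ = √a2 * √b2 := by field_simp
  calc _ ≤ |∑ x ∈ (univ : Finset (ZMod q × ZMod q)) with x.1 * x.2 = c, A x.1 * B x.2|
        + |1 / ((q : ℝ) - 1) * ((∑ h ∈ univ.erase (0 : ZMod q), A h)
          * ∑ k ∈ univ.erase (0 : ZMod q), B k)| := abs_sub _ _
    _ ≤ √a2 * √b2 + √a2 * √b2 := add_le_add h1 h2
    _ = _ := by ring

lemma sum_val (f : ℕ → ℝ) : ∑ x : ZMod q, f x.val = ∑ h ∈ range q, f h := by
  refine sum_bij (fun x _ => x.val) (fun x _ => mem_range.mpr (ZMod.val_lt x)) ?_ ?_ ?_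
  · intro x _ y _ h
    exact ZMod.val_injective q h
  · intro h hh
    exact ⟨(h : ZMod q), mem_univ _, ZMod.val_natCast_of_lt (mem_range.mp hh)⟩
  · intro x _
    rfl

lemma cls_val (S : Finset ℕ) (a : ℕ → ℝ) (x : ZMod q) :
    cls S a q x.val = ∑ n ∈ S.filter (fun n : ℕ => (n : ZMod q) = x), a n := by
  rw [cls]
  congr 1
  ext n
  rw [mem_filter, mem_filter]
  refine and_congr_right fun _ => ?_
  rw [← ZMod.val_natCast]
  exact ⟨fun h => ZMod.val_injective q h, fun h => by rw [h]⟩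

/-- bilinear form with the kernel `ker`. -/
lemma bil_bound (c : ZMod q) (hc : c ≠ 0) (S T : Finset ℕ) (α β : ℕ → ℝ) :
    |∑ m ∈ S, ∑ n ∈ T, α m * β n * ker q c (m * n)|
      ≤ 2 * (√(∑ h ∈ range q, (cls S α q h - (∑ n ∈ S, α n) / q) ^ 2)
        * √(∑ h ∈ range q, (cls T β q h - (∑ n ∈ T, β n) / q) ^ 2)) := by
  have e : ∑ m ∈ S, ∑ n ∈ T, α m * β n * ker q c (m * n)
      = ∑ h : ZMod q, ∑ k : ZMod q, cls S α q h.val * cls T β q k.val * kz q c (h * k) := by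
    simp_rw [cls_val, sum_mul_sum, sum_mul]
    rw [← sum_fiberwise_of_maps_to (s := S) (t := (univ : Finset (ZMod q)))
      (g := fun n : ℕ => (n : ZMod q)) (fun _ _ => mem_univ _)]
    refine sum_congr rfl fun h _ => ?_
    rw [sum_comm (s := (univ : Finset (ZMod q)))]
    refine sum_congr rfl fun m hm => ?_
    rw [← sum_fiberwise_of_maps_to (s := T) (t := (univ : Finset (ZMod q)))
      (g := fun n : ℕ => (n : ZMod q)) (fun _ _ => mem_univ _)]
    refine sum_congr rfl fun k _ => ?_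
    refine sum_congr rfl fun n hn => ?_
    rw [ker_eq, Nat.cast_mul, (mem_filter.mp hm).2, (mem_filter.mp hn).2]
  rw [e, form_shift q c hc _ _ ((∑ n ∈ S, α n) / q) ((∑ n ∈ T, β n) / q)]
  refine (form_bound q c hc _ _).trans (le_of_eq ?_)
  rw [← sum_val q (fun h => (cls S α q h - (∑ n ∈ S, α n) / q) ^ 2),
    ← sum_val q (fun h => (cls T β q h - (∑ n ∈ T, β n) / q) ^ 2)]

end

/-- **Bilinear forms on average over prime moduli.** -/
theorem bilinear_sum (P : Finset ℕ) (hP : ∀ q ∈ P, q.Prime) (Q : ℕ) (hQ : 1 ≤ Q)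
    (hPQ : ∀ q ∈ P, q ≤ Q) (hPQ' : ∀ q ∈ P, Q ≤ 2 * q) (c : ∀ q : ℕ, ZMod q)
    (hc : ∀ q ∈ P, c q ≠ 0) (M₁ M N₁ N : ℕ) (S T : Finset ℕ) (hS : S ⊆ Ioc M₁ (M₁ + M))
    (hT : T ⊆ Ioc N₁ (N₁ + N)) (α β : ℕ → ℝ) :
    ∑ q ∈ P, |∑ m ∈ S, ∑ n ∈ T, α m * β n * ker q (c q) (m * n)|
      ≤ 20 / Q * √(((M : ℝ) + Q ^ 2) * ((N : ℝ) + Q ^ 2) * (∑ m ∈ S, α m ^ 2)
        * (∑ n ∈ T, β n ^ 2)) := by
  have hQr : (0 : ℝ) < Q := by exact_mod_cast hQ
  set V : ℕ → ℝ := fun q => ∑ h ∈ range q, (cls S α q h - (∑ n ∈ S, α n) / q) ^ 2 with hV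
  set W : ℕ → ℝ := fun q => ∑ h ∈ range q, (cls T β q h - (∑ n ∈ T, β n) / q) ^ 2 with hW
  have hV0 : ∀ q, 0 ≤ V q := fun q => sum_nonneg fun _ _ => sq_nonneg _
  have hW0 : ∀ q, 0 ≤ W q := fun q => sum_nonneg fun _ _ => sq_nonneg _
  have h1 : ∀ q ∈ P, |∑ m ∈ S, ∑ n ∈ T, α m * β n * ker q (c q) (m * n)|
      ≤ 2 * (√(V q) * √(W q)) := by
    intro q hq
    have : Fact q.Prime := ⟨hP q hq⟩
    exact bil_bound q (c q) (hc q hq) S T α β
  refine (sum_le_sum h1).trans ?_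
  rw [← mul_sum]
  have h2 : ∑ q ∈ P, √(V q) * √(W q) ≤ √((∑ q ∈ P, V q) * ∑ q ∈ P, W q) := by
    apply Real.le_sqrt_of_sq_le
    refine (sum_mul_sq_le_sq_mul_sq _ _ _).trans (le_of_eq ?_)
    rw [sum_congr rfl fun q _ => Real.sq_sqrt (hV0 q), sum_congr rfl fun q _ => Real.sq_sqrt (hW0 q)]
  have key : ∀ (F : ℕ → ℝ), (∀ q, 0 ≤ F q) → ∀ B : ℝ, ∑ q ∈ P, (q : ℝ) * F q ≤ B →
      ∑ q ∈ P, F q ≤ 2 / Q * B := by
    intro F hF B hB
    have h3 : ∑ q ∈ P, F q ≤ ∑ q ∈ P, 2 / Q * ((q : ℝ) * F q) := by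
      refine sum_le_sum fun q hq => ?_
      have h4 : (Q : ℝ) ≤ 2 * q := by exact_mod_cast hPQ' q hq
      have h5 : 1 ≤ 2 / Q * (q : ℝ) := by
        rw [div_mul_eq_mul_div, le_div_iff₀ hQr]
        linarith
      calc F q = 1 * F q := (one_mul _).symm
        _ ≤ (2 / Q * (q : ℝ)) * F q := mul_le_mul_of_nonneg_right h5 (hF q)
        _ = _ := by ring
    refine h3.trans ?_
    rw [← mul_sum]
    exact mul_le_mul_of_nonneg_left hB (by positivity)
  have hVs := key V hV0 _ (var_sieve P hP Q hQ hPQ M₁ M S hS α)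
  have hWs := key W hW0 _ (var_sieve P hP Q hQ hPQ N₁ N T hT β)
  have hW1 : 0 ≤ ∑ q ∈ P, W q := sum_nonneg fun q _ => hW0 q
  have hV1 : 0 ≤ ∑ q ∈ P, V q := sum_nonneg fun q _ => hV0 q
  have h3 : √((∑ q ∈ P, V q) * ∑ q ∈ P, W q)
      ≤ √((10 / Q) ^ 2 * (((M : ℝ) + Q ^ 2) * ((N : ℝ) + Q ^ 2) * (∑ m ∈ S, α m ^ 2)
        * (∑ n ∈ T, β n ^ 2))) := by
    apply Real.sqrt_le_sqrt
    refine (mul_le_mul hVs hWs hW1 (hV1.trans hVs)).trans (le_of_eq ?_)
    ring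
  have h4 : √((10 / (Q : ℝ)) ^ 2 * (((M : ℝ) + Q ^ 2) * ((N : ℝ) + Q ^ 2) * (∑ m ∈ S, α m ^ 2)
        * (∑ n ∈ T, β n ^ 2))) = 10 / Q * √(((M : ℝ) + Q ^ 2) * ((N : ℝ) + Q ^ 2)
        * (∑ m ∈ S, α m ^ 2) * (∑ n ∈ T, β n ^ 2)) := by
    rw [Real.sqrt_mul (sq_nonneg _), Real.sqrt_sq (by positivity)]
  rw [h4] at h3
  calc 2 * ∑ q ∈ P, √(V q) * √(W q) ≤ 2 * (10 / Q * √(((M : ℝ) + Q ^ 2) * ((N : ℝ) + Q ^ 2)
        * (∑ m ∈ S, α m ^ 2) * (∑ n ∈ T, β n ^ 2))) := by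
        apply mul_le_mul_of_nonneg_left (h2.trans h3) (by norm_num)
    _ = _ := by ring

end Pool.Agent.helper85.BVP
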