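import Pool.Agent.helper85.BVP.HArith

/-!
# Upper bound sieve for two linear forms, and prime pairs
-/

namespace Pool.Agent.helper85.BVP

open Finset Pool.Agent.Lib.BrunHooley

lemma sqrt_mul_log_sq_le (N : ℕ) (hN : 1 ≤ N) : √(N : ℝ) * Real.log N ^ 2 ≤ 16 * N := by
  have hN0 : (0 : ℝ) < N := by exact_mod_cast hN
  set s := Real.sqrt N with hs_def
  have hs0 : 0 < s := Real.sqrt_pos.mpr hN0
  have hs2 : s ^ 2 = N := Real.sq_sqrt hN0.le
  set u := Real.sqrt s with hu_def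
  have hu0 : 0 < u := Real.sqrt_pos.mpr hs0
  have hu2 : u ^ 2 = s := Real.sq_sqrt hs0.le
  have hu4 : (N : ℝ) = u ^ 4 := by rw [← hs2, ← hu2]; ring
  have hlogu : Real.log N ≤ 4 * u := log_le_of_sq hu0 hu4
  have h0 : 0 ≤ Real.log N := Real.log_natCast_nonneg N
  calc s * Real.log N ^ 2 ≤ s * (4 * u) ^ 2 := by gcongr
    _ = 16 * (N : ℝ) := by rw [hu4, ← hu2]; ring

/-- the numbers `b ≤ N` for which neither form is divisible by a prime `l ≤ z` outside `E`. -/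
def formSet (N z : ℕ) (A₁ A₂ : ℕ) (C₁ C₂ : ℤ) (E : ℕ) : Set ℕ :=
  {b | b ∈ Ioc 0 N ∧ ∀ l, l.Prime → l ≤ z → ¬ l ∣ E →
    ¬ (l : ℤ) ∣ (A₁ * b + C₁) ∧ ¬ (l : ℤ) ∣ (A₂ * b + C₂)}

theorem two_forms : ∃ (C : ℝ) (D : ℕ), 0 < C ∧ ∀ N : ℕ, D ≤ N → ∃ z : ℕ, 2 ≤ z ∧ z ^ 2 ≤ N ∧
    ∀ (A₁ A₂ : ℕ) (C₁ C₂ : ℤ) (E : ℕ), E ≠ 0 → 2 ∣ E →
      (∀ l, l.Prime → ¬ l ∣ E → ¬ l ∣ A₁ ∧ ¬ l ∣ A₂ ∧ ¬ (l : ℤ) ∣ (A₁ * C₂ - A₂ * C₁)) →
      ∀ S : Finset ℕ, (∀ b ∈ S, b ∈ formSet N z A₁ A₂ C₁ C₂ E) →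
      (#S : ℝ) ≤ C * (h E ^ 2 * (N / Real.log N ^ 2)) := by
  classical
  obtain ⟨B, hB⟩ := interval_sieve 2
  refine ⟨32 * (B + 1) ^ 2 + 16, 4 ^ (B + 1), by positivity, ?_⟩
  intro N hN
  obtain ⟨r, hr1, hr2⟩ := pick_r B N hN
  set z := Z r with hz
  have hz2 : 2 ≤ z := two_le_Z r
  have h4 : 4 ≤ 4 ^ (B + 1) := Nat.le_self_pow (by omega) 4
  have hN1 : 1 < N := by omega
  have hNr : (0 : ℝ) < N := by exact_mod_cast (by omega : 0 < N)
  have hlogN : 0 < Real.log N := Real.log_pos (by exact_mod_cast hN1)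
  refine ⟨z, hz2, (Nat.pow_le_pow_right (by omega) (by omega)).trans hr1, ?_⟩
  intro A₁ A₂ C₁ C₂ E hE h2E hEl S hS
  set r₁ : ∀ l : ℕ, ZMod l := fun l => (-(C₁ : ZMod l)) * (A₁ : ZMod l)⁻¹ with hr₁
  set r₂ : ∀ l : ℕ, ZMod l := fun l => (-(C₂ : ZMod l)) * (A₂ : ZMod l)⁻¹ with hr₂
  set C : ℕ → Finset ℕ := fun l => if l ∣ E then ∅ else {(r₁ l).val, (r₂ l).val} with hC
  have hCc : ∀ l, #(C l) ≤ 2 := by
    intro l; simp only [hC]; split_ifs
    · simp
    · exact card_le_two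
  have hClt : ∀ l, l.Prime → ∀ x ∈ C l, x < l := by
    intro l hl x hx
    have : NeZero l := ⟨hl.ne_zero⟩
    simp only [hC] at hx
    split_ifs at hx with h
    · simp at hx
    · rw [mem_insert, mem_singleton] at hx
      rcases hx with rfl | rfl
      · exact ZMod.val_lt _
      · exact ZMod.val_lt _
  have hCl : ∀ l, l.Prime → #(C l) < l := by
    intro l hl
    by_cases h : l ∣ E
    · simp only [hC, if_pos h, card_empty]
      exact hl.pos
    · have h2 : l ≠ 2 := by rintro rfl; exact h h2E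
      have := hl.two_le
      exact lt_of_le_of_lt (hCc l) (by omega)
  have hC2 : ∀ l, l.Prime → ¬ l ∣ E → #(C l) = 2 := by
    intro l hl hlE
    have : Fact l.Prime := ⟨hl⟩
    obtain ⟨h1, h2, h3⟩ := hEl l hl hlE
    simp only [hC, if_neg hlE]
    apply card_pair
    intro he
    have h5 : r₁ l = r₂ l := ZMod.val_injective l he
    simp only [hr₁, hr₂] at h5
    have ha1 : (A₁ : ZMod l) ≠ 0 := by
      intro h; rw [ZMod.natCast_eq_zero_iff] at h; exact h1 h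
    have ha2 : (A₂ : ZMod l) ≠ 0 := by
      intro h; rw [ZMod.natCast_eq_zero_iff] at h; exact h2 h
    field_simp at h5
    apply h3
    rw [← ZMod.intCast_zmod_eq_zero_iff_dvd]
    push_cast
    linear_combination h5
  have hs := (hB r 0 N C hClt hCc hCl).2
  -- product bound
  set w : ℕ → ℕ := fun l => if l ∣ E then 0 else 1 with hw
  have hprod1 := prod_bt z E (by omega) hE w (fun l _ hlE => by simp only [hw, if_neg hlE]; exact le_rfl)
    (fun l hl => by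
      simp only [hw]
      split_ifs
      · exact hl.pos
      · exact hl.one_lt)
  have hprod : ∏ l ∈ Nat.primesLE z, (1 - ((#(C l) : ℕ) : ℝ) / l)
      ≤ (∏ l ∈ Nat.primesLE z, (1 - (w l : ℝ) / l)) ^ 2 := by
    rw [← prod_pow]
    refine prod_le_prod (fun l hl => ?_) (fun l hl => ?_)
    · have hlp := (Nat.mem_primesLE.mp hl).2
      rw [sub_nonneg, div_le_one (by exact_mod_cast hlp.pos)]
      exact_mod_cast (hCl l hlp).le
    · have hlp := (Nat.mem_primesLE.mp hl).2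
      by_cases hlE : l ∣ E
      · simp only [hC, hw, if_pos hlE, card_empty]
        norm_num
      · rw [hC2 l hlp hlE]
        simp only [hw, if_neg hlE]
        have : (0 : ℝ) ≤ (1 / (l : ℝ)) ^ 2 := sq_nonneg _
        push_cast
        have e : (1 - 1 / (l : ℝ)) ^ 2 = 1 - 2 / l + (1 / (l : ℝ)) ^ 2 := by ring
        rw [e]
        linarith
  have hw0 : 0 ≤ ∏ l ∈ Nat.primesLE z, (1 - (w l : ℝ) / l) := by
    refine prod_nonneg fun l hl => ?_
    have hlp := (Nat.mem_primesLE.mp hl).2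
    rw [sub_nonneg, div_le_one (by exact_mod_cast hlp.pos)]
    simp only [hw]
    split_ifs
    · exact_mod_cast hlp.pos.le
    · exact_mod_cast hlp.one_lt.le
  -- count
  have hcount : #S ≤ #(sifted 0 N z C) := by
    refine card_le_card ?_
    intro b hb
    obtain ⟨hbI, hbl⟩ := hS b hb
    rw [sifted, mem_filter, zero_add]
    refine ⟨hbI, ?_⟩
    intro l hl hmem
    obtain ⟨hlz, hlp⟩ := Nat.mem_primesLE.mp hl
    have : Fact l.Prime := ⟨hlp⟩
    have : NeZero l := ⟨hlp.ne_zero⟩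
    simp only [hC] at hmem
    split_ifs at hmem with hlE
    · simp at hmem
    obtain ⟨h1, h2, _⟩ := hEl l hlp hlE
    obtain ⟨n1, n2⟩ := hbl l hlp hlz hlE
    have hcast : ∀ x : ZMod l, b % l = x.val → (b : ZMod l) = x := by
      intro x hx
      have := congrArg (fun t : ℕ => (t : ZMod l)) hx
      simp only [ZMod.natCast_mod, ZMod.natCast_val, ZMod.cast_id', id_eq] at this
      exact this
    have ha1 : (A₁ : ZMod l) ≠ 0 := by
      intro h; rw [ZMod.natCast_eq_zero_iff] at h; exact h1 h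
    have ha2 : (A₂ : ZMod l) ≠ 0 := by
      intro h; rw [ZMod.natCast_eq_zero_iff] at h; exact h2 h
    rw [mem_insert, mem_singleton] at hmem
    rcases hmem with hmem | hmem
    · apply n1
      rw [← ZMod.intCast_zmod_eq_zero_iff_dvd]
      push_cast
      rw [hcast _ hmem, hr₁]
      simp only
      field_simp
      ring
    · apply n2
      rw [← ZMod.intCast_zmod_eq_zero_iff_dvd]
      push_cast
      rw [hcast _ hmem, hr₂]
      simp only
      field_simp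
      ring
  -- numerics
  have hhE := one_le_h E
  have hz1 : (1 : ℝ) ≤ z := by exact_mod_cast (by omega : 1 ≤ z)
  have hlz : Real.log N ≤ 4 * (B + 1) * Real.log (z + 1) := by
    have h3 : Real.log z ≤ Real.log (z + 1) := Real.log_le_log (by positivity) (by linarith)
    have h4 : 4 * ((B : ℝ) + 1) * Real.log z ≤ 4 * (B + 1) * Real.log (z + 1) := by gcongr
    linarith
  have hl5 : 0 < Real.log ((z : ℝ) + 1) := Real.log_pos (by linarith)
  have hmain : (∏ l ∈ Nat.primesLE z, (1 - (w l : ℝ) / l)) ^ 2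
      ≤ 16 * (B + 1) ^ 2 * h E ^ 2 / Real.log N ^ 2 := by
    refine (pow_le_pow_left₀ hw0 hprod1 2).trans ?_
    rw [div_pow, div_le_div_iff₀ (by positivity) (by positivity)]
    have h6 : Real.log N ^ 2 ≤ (4 * (B + 1) * Real.log (z + 1)) ^ 2 := pow_le_pow_left₀ hlogN.le hlz 2
    calc h E ^ 2 * Real.log N ^ 2 ≤ h E ^ 2 * (4 * (B + 1) * Real.log (z + 1)) ^ 2 := by gcongr
      _ = _ := by ring
  have hzB : (z : ℝ) ^ B ≤ √N := by
    apply Real.le_sqrt_of_sq_le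
    have h1 : (z : ℝ) ^ (2 * (B + 1)) ≤ N := by exact_mod_cast hr1
    refine le_trans ?_ h1
    rw [← pow_mul]
    exact pow_le_pow_right₀ hz1 (by omega)
  have herr : (z : ℝ) ^ B ≤ 16 * (N / Real.log N ^ 2) := by
    rw [← mul_div_assoc, le_div_iff₀ (by positivity)]
    calc (z : ℝ) ^ B * Real.log N ^ 2 ≤ √N * Real.log N ^ 2 := by gcongr
      _ ≤ 16 * (N : ℝ) := sqrt_mul_log_sq_le N (by omega)
  have hc'' : (#S : ℝ) ≤ #(sifted 0 N z C) := by exact_mod_cast hcount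
  calc (#S : ℝ) ≤ #(sifted 0 N z C) := hc''
    _ ≤ 2 * (N : ℝ) * ∏ l ∈ Nat.primesLE z, (1 - ((#(C l) : ℕ) : ℝ) / l) + (z : ℝ) ^ B := hs
    _ ≤ 2 * (N : ℝ) * (16 * (B + 1) ^ 2 * h E ^ 2 / Real.log N ^ 2)
        + 16 * (N / Real.log N ^ 2) := by
        refine add_le_add ?_ herr
        exact mul_le_mul_of_nonneg_left (hprod.trans hmain) (by positivity)
    _ ≤ 2 * (N : ℝ) * (16 * (B + 1) ^ 2 * h E ^ 2 / Real.log N ^ 2)
        + 16 * (h E ^ 2 * (N / Real.log N ^ 2)) := by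
        have h7 : (1 : ℝ) ≤ h E ^ 2 := one_le_pow₀ hhE
        have h8 : 0 ≤ (N : ℝ) / Real.log N ^ 2 := by positivity
        nlinarith
    _ = _ := by ring

end Pool.Agent.helper85.BVP
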