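import Pool.Agent.helper85.BVP.PairSieve

/-!
# Pairs of primes: the sum of `h(q₂ - q₁)²`
-/

namespace Pool.Agent.helper85.BVP

open Finset

lemma h_two_mul (d : ℕ) (hd : d ≠ 0) : h (2 * d) ≤ 2 * h d := by
  refine (h_mul_le (by norm_num) hd).trans ?_
  have h3 : h 2 ≤ 2 := by
    have := h_prime_pow (l := 2) (j := 1) Nat.prime_two
    simpa using this
  exact mul_le_mul_of_nonneg_right h3 (h_pos d).le

lemma le_sqrt_nat {z N : ℕ} (hz : z ^ 2 ≤ N) : (z : ℝ) ≤ √N := by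
  apply Real.le_sqrt_of_sq_le
  exact_mod_cast hz

lemma sqrt_le_div (N : ℕ) (hN : 2 ≤ N) : √(N : ℝ) ≤ 16 * (N / Real.log N ^ 2) := by
  have hlogN : 0 < Real.log N := Real.log_pos (by exact_mod_cast (by omega : 1 < N))
  rw [← mul_div_assoc, le_div_iff₀ (by positivity)]
  exact sqrt_mul_log_sq_le N (by omega)

lemma prime_pairs : ∃ (C : ℝ) (D : ℕ), 0 < C ∧ ∀ Q : ℕ, D ≤ Q → ∀ d : ℕ, 1 ≤ d →
    (#{q ∈ Ioc 0 Q | q.Prime ∧ (q + d).Prime} : ℝ) ≤ C * (h d ^ 2 * (Q / Real.log Q ^ 2)) := by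
  obtain ⟨C, D, hC, hCD⟩ := two_forms
  refine ⟨4 * C + 16, max D 2, by positivity, ?_⟩
  intro Q hQ d hd
  have hQ2 : 2 ≤ Q := le_trans (le_max_right _ _) hQ
  obtain ⟨z, hz2, hzQ, hz⟩ := hCD Q (le_trans (le_max_left _ _) hQ)
  have hQr : (0 : ℝ) < Q := by exact_mod_cast (by omega : 0 < Q)
  have hlogQ : 0 < Real.log Q := Real.log_pos (by exact_mod_cast (by omega : 1 < Q))
  set S := {q ∈ Ioc 0 Q | q.Prime ∧ (q + d).Prime} with hS
  set S' := S.filter (fun q => z < q) with hS'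
  have h1 : (#S' : ℝ) ≤ C * (h (2 * d) ^ 2 * (Q / Real.log Q ^ 2)) := by
    refine hz 1 1 0 d (2 * d) (by omega) (dvd_mul_right 2 d) ?_ S' ?_
    · intro l hl hld
      refine ⟨?_, ?_, ?_⟩
      · intro h; exact hl.one_lt.ne' (Nat.dvd_one.mp h)
      · intro h; exact hl.one_lt.ne' (Nat.dvd_one.mp h)
      · intro h
        apply hld
        have : (l : ℤ) ∣ d := by simpa using h
        exact Dvd.dvd.mul_left (by exact_mod_cast this) 2
    · intro q hq
      rw [hS', mem_filter, hS, mem_filter] at hq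
      obtain ⟨⟨hqI, hqp, hqd⟩, hzq⟩ := hq
      refine ⟨hqI, ?_⟩
      intro l hl hlz _
      constructor
      · intro h
        have h2 : l ∣ q := by
          have : (l : ℤ) ∣ q := by simpa using h
          exact_mod_cast this
        have := (Nat.prime_dvd_prime_iff_eq hl hqp).mp h2
        omega
      · intro h
        have h2 : l ∣ q + d := by
          have : (l : ℤ) ∣ ((q + d : ℕ) : ℤ) := by simpa using h
          exact_mod_cast this
        have := (Nat.prime_dvd_prime_iff_eq hl hqd).mp h2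
        omega
  have h2 : #S ≤ #S' + z := by
    have h3 : S ⊆ S' ∪ Ioc 0 z := by
      intro q hq
      rw [mem_union]
      by_cases h : z < q
      · left; rw [hS', mem_filter]; exact ⟨hq, h⟩
      · right
        rw [hS, mem_filter, mem_Ioc] at hq
        rw [mem_Ioc]
        exact ⟨hq.1.1, by omega⟩
    have h4 := (card_le_card h3).trans (card_union_le _ _)
    rwa [Nat.card_Ioc, Nat.sub_zero] at h4
  have h3 : (#S : ℝ) ≤ #S' + z := by exact_mod_cast h2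
  have h4 : (z : ℝ) ≤ 16 * (Q / Real.log Q ^ 2) := (le_sqrt_nat hzQ).trans (sqrt_le_div Q hQ2)
  have h5 : h (2 * d) ^ 2 ≤ 4 * h d ^ 2 := by
    have h6 := pow_le_pow_left₀ (h_pos _).le (h_two_mul d (by omega)) 2
    rw [mul_pow] at h6
    linarith
  have h6 : (1 : ℝ) ≤ h d ^ 2 := one_le_pow₀ (one_le_h d)
  have h7 : 0 ≤ (Q : ℝ) / Real.log Q ^ 2 := by positivity
  calc (#S : ℝ) ≤ #S' + z := h3
    _ ≤ C * (4 * h d ^ 2 * (Q / Real.log Q ^ 2)) + 16 * (h d ^ 2 * (Q / Real.log Q ^ 2)) := by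
        refine add_le_add (h1.trans ?_) (h4.trans ?_)
        · refine mul_le_mul_of_nonneg_left ?_ hC.le
          exact mul_le_mul_of_nonneg_right h5 h7
        · nlinarith
    _ = _ := by ring

/-- sum over ordered pairs of primes. -/
lemma sum_lt_pairs : ∃ (C : ℝ) (D : ℕ), 0 < C ∧ ∀ Q : ℕ, D ≤ Q → ∀ P : Finset ℕ,
    (∀ q ∈ P, q.Prime ∧ q ≤ Q) →
    ∑ q₁ ∈ P, ∑ q₂ ∈ P with q₁ < q₂, h (q₂ - q₁) ^ 2 ≤ C * (Q / Real.log Q) ^ 2 := by
  obtain ⟨C, D, hC, hCD⟩ := prime_pairs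
  refine ⟨C * Real.exp 30, max D 2, by positivity, ?_⟩
  intro Q hQ P hP
  have hQ2 : 2 ≤ Q := le_trans (le_max_right _ _) hQ
  have hQr : (0 : ℝ) < Q := by exact_mod_cast (by omega : 0 < Q)
  have hlogQ : 0 < Real.log Q := Real.log_pos (by exact_mod_cast (by omega : 1 < Q))
  have h1 : ∑ q₁ ∈ P, ∑ q₂ ∈ P with q₁ < q₂, h (q₂ - q₁) ^ 2
      ≤ ∑ q₁ ∈ P, ∑ d ∈ Ioc 0 Q, if (q₁ + d).Prime then h d ^ 2 else 0 := by
    refine sum_le_sum fun q₁ hq₁ => ?_
    rw [← sum_filter]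
    have e : ∑ q₂ ∈ P with q₁ < q₂, h (q₂ - q₁) ^ 2
        = ∑ d ∈ (P.filter (fun q₂ => q₁ < q₂)).image (fun q₂ => q₂ - q₁), h d ^ 2 := by
      rw [sum_image]
      intro x hx y hy hxy
      rw [mem_coe, mem_filter] at hx hy
      simp only at hxy
      omega
    rw [e]
    refine sum_le_sum_of_subset_of_nonneg ?_ (fun _ _ _ => sq_nonneg _)
    intro d hd
    rw [mem_image] at hd
    obtain ⟨q₂, hq₂, rfl⟩ := hd
    rw [mem_filter] at hq₂
    have h2 := hP q₂ hq₂.1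
    rw [mem_filter, mem_Ioc, Nat.add_sub_cancel' hq₂.2.le]
    exact ⟨⟨by omega, by omega⟩, h2.1⟩
  refine h1.trans ?_
  rw [sum_comm]
  have h2 : ∀ d ∈ Ioc 0 Q, (∑ q₁ ∈ P, if (q₁ + d).Prime then h d ^ 2 else 0)
      ≤ C * (Q / Real.log Q ^ 2) * h d ^ 4 := by
    intro d hd
    rw [mem_Ioc] at hd
    rw [← sum_filter, sum_const, nsmul_eq_mul]
    have h3 : #(P.filter (fun q₁ => (q₁ + d).Prime)) ≤ #{q ∈ Ioc 0 Q | q.Prime ∧ (q + d).Prime} := by
      refine card_le_card ?_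
      intro q hq
      rw [mem_filter] at hq
      rw [mem_filter, mem_Ioc]
      exact ⟨⟨(hP q hq.1).1.pos, (hP q hq.1).2⟩, (hP q hq.1).1, hq.2⟩
    have h4 : (#(P.filter (fun q₁ => (q₁ + d).Prime)) : ℝ)
        ≤ C * (h d ^ 2 * (Q / Real.log Q ^ 2)) :=
      le_trans (by exact_mod_cast h3) (hCD Q (le_trans (le_max_left _ _) hQ) d hd.1)
    calc _ ≤ C * (h d ^ 2 * (Q / Real.log Q ^ 2)) * h d ^ 2 :=
          mul_le_mul_of_nonneg_right h4 (sq_nonneg _)
      _ = _ := by ring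
  refine (sum_le_sum h2).trans ?_
  rw [← mul_sum]
  calc C * (Q / Real.log Q ^ 2) * ∑ d ∈ Ioc 0 Q, h d ^ 4
      ≤ C * (Q / Real.log Q ^ 2) * (Real.exp 30 * Q) :=
        mul_le_mul_of_nonneg_left (sum_h4 Q) (by positivity)
    _ = C * Real.exp 30 * (Q / Real.log Q) ^ 2 := by
        field_simp

lemma card_primes_le (Q : ℕ) (hQ : 2 ≤ Q) (P : Finset ℕ) (hP : ∀ q ∈ P, q.Prime ∧ q ≤ Q) :
    (#P : ℝ) ≤ 7 * (Q / Real.log Q) := by
  have hQr : (1 : ℝ) < Q := by exact_mod_cast (by omega : 1 < Q)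
  have hlogQ : 0 < Real.log Q := Real.log_pos hQr
  have h1 := Chebyshev.pi_le_log4_mul_div hQr
  rw [Nat.floor_natCast] at h1
  have h2 : #P ≤ Nat.primeCounting Q := by
    rw [← Nat.primesLE_card_eq_primeCounting]
    refine card_le_card ?_
    intro q hq
    exact Nat.mem_primesLE.mpr ⟨(hP q hq).2, (hP q hq).1⟩
  have h3 : (#P : ℝ) ≤ Real.log 4 * Q / Real.log √Q + √Q := le_trans (by exact_mod_cast h2) h1
  have h4 : Real.log √(Q : ℝ) = Real.log Q / 2 := Real.log_sqrt (by linarith)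
  rw [h4] at h3
  have h5 : Real.log 4 < 1.4 := by
    have : Real.log 4 = 2 * Real.log 2 := by
      rw [show (4 : ℝ) = 2 ^ 2 by norm_num, Real.log_pow]; norm_num
    have := Real.log_two_lt_d9
    linarith
  have h6 : √(Q : ℝ) ≤ 4 * (Q / Real.log Q) := by
    rw [← mul_div_assoc, le_div_iff₀ hlogQ]
    set s := √(Q : ℝ) with hs
    have hs2 : s ^ 2 = Q := Real.sq_sqrt (by linarith)
    have hs0 : 0 < s := Real.sqrt_pos.mpr (by linarith)
    have hlog : Real.log Q ≤ 2 * s := by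
      rw [← hs2, Real.log_pow]
      have := Real.log_le_sub_one_of_pos hs0
      push_cast
      linarith
    nlinarith
  have h7 : Real.log 4 * Q / (Real.log Q / 2) ≤ 3 * (Q / Real.log Q) := by
    have e : Real.log 4 * Q / (Real.log Q / 2) = (2 * Real.log 4) * (Q / Real.log Q) := by
      field_simp
    rw [e]
    refine mul_le_mul_of_nonneg_right (by linarith) (by positivity)
  linarith

end Pool.Agent.helper85.BVP
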