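import Pool.Agent.helper85.BVP.First2
import Pool.Agent.helper85.BVP.Pairs

/-!
# The second moment
-/

namespace Pool.Agent.helper85.BVP

open Finset Real

section
variable {a : ℕ} {c : ℤ}

/-- `b q + c = a p` with `p > |c|` prime. -/
def Sol (a : ℕ) (c : ℤ) (b q : ℕ) : Prop :=
  ∃ p : ℕ, p.Prime ∧ c.natAbs < p ∧ (a : ℤ) * p = b * q + c

open Classical in
/-- the primes `q` in `(Q/8, Q]` with `b q + c = a p`, `p > |c|`. -/
noncomputable def Rb (a : ℕ) (c : ℤ) (Q b : ℕ) : Finset ℕ := {q ∈ PQ Q | Sol a c b q}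

lemma mem_Rb {Q b q : ℕ} : q ∈ Rb a c Q b ↔ q ∈ PQ Q ∧ Sol a c b q := by
  classical
  rw [Rb, mem_filter]

lemma first_le (ha : 0 < a) (x N Q : ℕ) (hNQ : 8 * (a * x + c.natAbs) ≤ N * Q) :
    ∑ q ∈ PQ Q, (#(Nq a c x q) : ℝ) ≤ ∑ b ∈ Ioc 0 N, (#(Rb a c Q b) : ℝ) := by
  classical
  have e : ∑ b ∈ Ioc 0 N, (#(Rb a c Q b) : ℝ)
      = ∑ q ∈ PQ Q, (#{b ∈ Ioc 0 N | Sol a c b q} : ℝ) := by
    have h1 : ∀ b, (#(Rb a c Q b) : ℝ) = ∑ q ∈ PQ Q, if Sol a c b q then (1 : ℝ) else 0 := by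
      intro b
      rw [← sum_filter, sum_const, nsmul_eq_mul, mul_one, Rb]
    have h2 : ∀ q, (#{b ∈ Ioc 0 N | Sol a c b q} : ℝ)
        = ∑ b ∈ Ioc 0 N, if Sol a c b q then (1 : ℝ) else 0 := by
      intro q
      rw [← sum_filter, sum_const, nsmul_eq_mul, mul_one]
    simp_rw [h1, h2]
    exact sum_comm
  rw [e]
  refine sum_le_sum fun q hq => ?_
  rw [PQ, mem_filter, mem_Ioc] at hq
  have hq0 : 0 < q := hq.2.pos
  have hqQ : Q ≤ 8 * q := by omega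
  have hinj : #(Nq a c x q) ≤ #{b ∈ Ioc 0 N | Sol a c b q} := by
    have hkey : ∀ p ∈ Nq a c x q, ∃ b : ℕ, 0 < b ∧ b ≤ N ∧ (a : ℤ) * p = b * q + c := by
      intro p hp
      rw [Nq, mem_filter, mem_Ioc] at hp
      obtain ⟨⟨hp1, hp2⟩, _, k, hk⟩ := hp
      have hpos := sub_ne ha hp1
      have hq0' : (0 : ℤ) < q := by exact_mod_cast hq0
      have hk0 : 0 < k := by
        rw [hk] at hpos
        exact pos_of_mul_pos_right hpos hq0'.le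
      lift k to ℕ using hk0.le
      refine ⟨k, by exact_mod_cast hk0, ?_, by linarith⟩
      have h1 : (k : ℤ) * q ≤ a * x + c.natAbs := by
        have h2 : -c ≤ |c| := neg_le_abs c
        have h3 : (c.natAbs : ℤ) = |c| := Int.natCast_natAbs c
        have h4 : (a : ℤ) * p ≤ a * x := by exact_mod_cast Nat.mul_le_mul_left a hp2
        linarith
      have h2 : k * q ≤ a * x + c.natAbs := by exact_mod_cast h1
      have h3 : k * (8 * q) ≤ N * (8 * q) := by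
        calc k * (8 * q) = 8 * (k * q) := by ring
          _ ≤ 8 * (a * x + c.natAbs) := Nat.mul_le_mul_left 8 h2
          _ ≤ N * Q := hNQ
          _ ≤ N * (8 * q) := Nat.mul_le_mul_left N hqQ
      exact Nat.le_of_mul_le_mul_right h3 (by omega)
    choose! f hf using hkey
    refine card_le_card_of_injOn f ?_ ?_
    · intro p hp
      have hp' : p ∈ Nq a c x q := hp
      have h1 := hf p hp'
      rw [Nq, mem_filter, mem_Ioc] at hp'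
      rw [mem_coe, mem_filter, mem_Ioc]
      exact ⟨⟨h1.1, h1.2.1⟩, p, hp'.2.1, hp'.1.1, h1.2.2⟩
    · intro p hp p' hp' hpp
      have h1 := (hf p hp).2.2
      have h2 := (hf p' hp').2.2
      rw [hpp, ← h2] at h1
      have ha' : (a : ℤ) ≠ 0 := by exact_mod_cast ha.ne'
      have := mul_left_cancel₀ ha' h1
      exact_mod_cast this
  exact_mod_cast hinj

/-- pairs. -/
lemma both_le (ha : 0 < a) (hc : c ≠ 0) : ∃ (C : ℝ) (D : ℕ), 0 < C ∧ ∀ N : ℕ, D ≤ N →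
    ∀ q₁ q₂ : ℕ, q₁.Prime → q₂.Prime → q₁ < q₂ → ∀ S : Finset ℕ,
      (∀ b ∈ S, b ∈ Ioc 0 N ∧ Sol a c b q₁ ∧ Sol a c b q₂) →
      (#S : ℝ) ≤ C * (N / Real.log N ^ 2) * h (q₂ - q₁) ^ 2 := by
  classical
  obtain ⟨C, D, hC, hCD⟩ := two_forms
  set H := h (a * c.natAbs) with hH
  refine ⟨64 * C * H ^ 2 + 32, max D 2, by positivity, ?_⟩
  intro N hN q₁ q₂ hq₁ hq₂ hlt S hS
  have hN2 : 2 ≤ N := le_trans (le_max_right _ _) hN
  obtain ⟨z, hz2, hzN, hz⟩ := hCD N (le_trans (le_max_left _ _) hN)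
  have hNr : (0 : ℝ) < N := by exact_mod_cast (by omega : 0 < N)
  have hlogN : 0 < Real.log N := Real.log_pos (by exact_mod_cast (by omega : 1 < N))
  have hc' : c.natAbs ≠ 0 := Int.natAbs_ne_zero.mpr hc
  have hac0 : a * c.natAbs ≠ 0 := Nat.mul_ne_zero ha.ne' hc'
  have hqq0 : q₁ * q₂ ≠ 0 := Nat.mul_ne_zero hq₁.ne_zero hq₂.ne_zero
  have hd0 : q₂ - q₁ ≠ 0 := by omega
  set E := 2 * (a * c.natAbs * (q₁ * q₂ * (q₂ - q₁))) with hE
  have hE0 : E ≠ 0 := by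
    rw [hE]
    exact Nat.mul_ne_zero (by norm_num) (Nat.mul_ne_zero hac0 (Nat.mul_ne_zero hqq0 hd0))
  set S' := S.filter (fun b : ℕ => (∀ p : ℕ, p.Prime → (a : ℤ) * p = b * q₁ + c → z < p)
      ∧ (∀ p : ℕ, p.Prime → (a : ℤ) * p = b * q₂ + c → z < p)) with hS'
  have h1 : (#S' : ℝ) ≤ C * (h E ^ 2 * (N / Real.log N ^ 2)) := by
    refine hz q₁ q₂ c c E hE0 (dvd_mul_right 2 _) ?_ S' ?_
    · intro l hl hlE
      refine ⟨fun h => hlE ?_, fun h => hlE ?_, fun h => hlE ?_⟩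
      · exact ((((h.mul_right q₂).mul_right (q₂ - q₁)).mul_left (a * c.natAbs))).mul_left 2
      · exact ((((h.mul_left q₁).mul_right (q₂ - q₁)).mul_left (a * c.natAbs))).mul_left 2
      · have e1 : (q₁ : ℤ) * c - q₂ * c = -(((q₂ - q₁ : ℕ) : ℤ) * c) := by
          rw [Nat.cast_sub hlt.le]; ring
        rw [e1, dvd_neg] at h
        have hl' : Prime (l : ℤ) := Nat.prime_iff_prime_int.mp hl
        rcases hl'.dvd_or_dvd h with h2 | h2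
        · have h3 : l ∣ q₂ - q₁ := by exact_mod_cast h2
          exact ((h3.mul_left (q₁ * q₂)).mul_left (a * c.natAbs)).mul_left 2
        · have h3 : l ∣ c.natAbs := Int.natCast_dvd.mp h2
          exact ((h3.mul_left a).mul_right _).mul_left 2
    · intro b hb
      rw [hS', mem_filter] at hb
      obtain ⟨hbS, hz1, hz2'⟩ := hb
      obtain ⟨hbI, ⟨p₁, hp₁, _, he₁⟩, ⟨p₂, hp₂, _, he₂⟩⟩ := hS b hbS
      refine ⟨hbI, ?_⟩
      intro l hl hlz hlE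
      have hla : ¬ l ∣ a := fun h => hlE (((h.mul_right c.natAbs).mul_right _).mul_left 2)
      have hl' : Prime (l : ℤ) := Nat.prime_iff_prime_int.mp hl
      have hgen : ∀ q p : ℕ, p.Prime → (a : ℤ) * p = b * q + c → z < p → ¬ (l : ℤ) ∣ (q * b + c) := by
        intro q p hp he hzp h
        have h2 : (l : ℤ) ∣ a * p := by
          rw [he, mul_comm]
          exact h
        rcases hl'.dvd_or_dvd h2 with h3 | h3
        · exact hla (by exact_mod_cast h3)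
        · have h4 : l ∣ p := by exact_mod_cast h3
          have := (Nat.prime_dvd_prime_iff_eq hl hp).mp h4
          omega
      exact ⟨hgen q₁ p₁ hp₁ he₁ (hz1 p₁ hp₁ he₁), hgen q₂ p₂ hp₂ he₂ (hz2' p₂ hp₂ he₂)⟩
  -- the exceptional `b`
  have hexc : ∀ q : ℕ, q.Prime → #(S.filter (fun b : ℕ => ∃ p : ℕ, p.Prime ∧ p ≤ z ∧
      (a : ℤ) * p = b * q + c)) ≤ z := by
    intro q hq
    have : #(S.filter (fun b : ℕ => ∃ p : ℕ, p.Prime ∧ p ≤ z ∧ (a : ℤ) * p = b * q + c))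
        ≤ #(Ioc 0 z) := by
      have hkey : ∀ b ∈ S.filter (fun b : ℕ => ∃ p : ℕ, p.Prime ∧ p ≤ z ∧ (a : ℤ) * p = b * q + c),
          ∃ p : ℕ, p ∈ Ioc 0 z ∧ (a : ℤ) * p = b * q + c := by
        intro b hb
        rw [mem_filter] at hb
        obtain ⟨_, p, hp, hpz, he⟩ := hb
        exact ⟨p, mem_Ioc.mpr ⟨hp.pos, hpz⟩, he⟩
      choose! f hf using hkey
      refine card_le_card_of_injOn f (fun b hb => (hf b hb).1) ?_
      intro b hb b' hb' hbb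
      have h1 := (hf b hb).2
      have h2 := (hf b' hb').2
      rw [hbb, h2] at h1
      have hq' : (q : ℤ) ≠ 0 := by exact_mod_cast hq.ne_zero
      have h3 : (b' : ℤ) * q = b * q := by linarith
      have := mul_right_cancel₀ hq' h3
      exact_mod_cast this.symm
    rwa [Nat.card_Ioc, Nat.sub_zero] at this
  have h2 : #S ≤ #S' + (z + z) := by
    have h3 : S ⊆ S' ∪ (S.filter (fun b : ℕ => ∃ p : ℕ, p.Prime ∧ p ≤ z ∧ (a : ℤ) * p = b * q₁ + c)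
        ∪ S.filter (fun b : ℕ => ∃ p : ℕ, p.Prime ∧ p ≤ z ∧ (a : ℤ) * p = b * q₂ + c)) := by
      intro b hb
      rw [mem_union, mem_union, hS', mem_filter, mem_filter, mem_filter]
      by_cases h : (∀ p : ℕ, p.Prime → (a : ℤ) * p = b * q₁ + c → z < p)
      · by_cases h' : (∀ p : ℕ, p.Prime → (a : ℤ) * p = b * q₂ + c → z < p)
        · left; exact ⟨hb, h, h'⟩
        · push Not at h'
          obtain ⟨p, hp, he, hpz⟩ := h'
          right; right; exact ⟨hb, p, hp, hpz, he⟩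
      · push Not at h
        obtain ⟨p, hp, he, hpz⟩ := h
        right; left; exact ⟨hb, p, hp, hpz, he⟩
    refine (card_le_card h3).trans ((card_union_le _ _).trans ?_)
    exact Nat.add_le_add_left ((card_union_le _ _).trans (Nat.add_le_add (hexc q₁ hq₁) (hexc q₂ hq₂))) _
  have h3 : (#S : ℝ) ≤ #S' + (z + z) := by exact_mod_cast h2
  have h4 : (z : ℝ) ≤ 16 * (N / Real.log N ^ 2) := (le_sqrt_nat hzN).trans (sqrt_le_div N hN2)
  -- `h E`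
  have hh2 : ∀ l : ℕ, l.Prime → h l ≤ 2 := by
    intro l hl
    have := h_prime_pow (l := l) (j := 1) hl
    simpa using this
  have hd1 := one_le_h (q₂ - q₁)
  have hEle : h E ≤ 8 * (H * h (q₂ - q₁)) := by
    have a1 : h E ≤ h 2 * h (a * c.natAbs * (q₁ * q₂ * (q₂ - q₁))) :=
      h_mul_le (by norm_num) (Nat.mul_ne_zero hac0 (Nat.mul_ne_zero hqq0 hd0))
    have a2 : h (a * c.natAbs * (q₁ * q₂ * (q₂ - q₁))) ≤ H * h (q₁ * q₂ * (q₂ - q₁)) :=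
      h_mul_le hac0 (Nat.mul_ne_zero hqq0 hd0)
    have a3 : h (q₁ * q₂ * (q₂ - q₁)) ≤ h (q₁ * q₂) * h (q₂ - q₁) := h_mul_le hqq0 hd0
    have a4 : h (q₁ * q₂) ≤ h q₁ * h q₂ := h_mul_le hq₁.ne_zero hq₂.ne_zero
    have a5 : h q₁ * h q₂ ≤ 2 * 2 := mul_le_mul (hh2 q₁ hq₁) (hh2 q₂ hq₂) (h_pos _).le (by norm_num)
    have a6 : h (q₁ * q₂) * h (q₂ - q₁) ≤ 4 * h (q₂ - q₁) := by
      refine mul_le_mul_of_nonneg_right (by linarith) (h_pos _).le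
    have a7 : H * h (q₁ * q₂ * (q₂ - q₁)) ≤ H * (4 * h (q₂ - q₁)) :=
      mul_le_mul_of_nonneg_left (a3.trans a6) (h_pos _).le
    calc h E ≤ h 2 * h (a * c.natAbs * (q₁ * q₂ * (q₂ - q₁))) := a1
      _ ≤ 2 * (H * (4 * h (q₂ - q₁))) :=
          mul_le_mul (hh2 2 Nat.prime_two) (a2.trans a7) (h_pos _).le (by norm_num)
      _ = _ := by ring
  have h5 : h E ^ 2 ≤ 64 * (H ^ 2 * h (q₂ - q₁) ^ 2) := by
    calc h E ^ 2 ≤ (8 * (H * h (q₂ - q₁))) ^ 2 := pow_le_pow_left₀ (h_pos _).le hEle 2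
      _ = _ := by ring
  have h6 : (1 : ℝ) ≤ h (q₂ - q₁) ^ 2 := one_le_pow₀ hd1
  have h7 : 0 ≤ (N : ℝ) / Real.log N ^ 2 := by positivity
  calc (#S : ℝ) ≤ #S' + (z + z) := h3
    _ ≤ C * (64 * (H ^ 2 * h (q₂ - q₁) ^ 2) * (N / Real.log N ^ 2))
        + 32 * (h (q₂ - q₁) ^ 2 * (N / Real.log N ^ 2)) := by
        refine add_le_add (h1.trans ?_) ?_
        · refine mul_le_mul_of_nonneg_left ?_ hC.le
          exact mul_le_mul_of_nonneg_right h5 h7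
        · have : (N : ℝ) / Real.log N ^ 2 ≤ h (q₂ - q₁) ^ 2 * (N / Real.log N ^ 2) := by nlinarith
          linarith
    _ = _ := by ring

/-- square of the number of elements. -/
lemma card_sq_le (P R : Finset ℕ) (hR : R ⊆ P) :
    (#R : ℝ) ^ 2 = #R + 2 * ∑ q₁ ∈ P, ∑ q₂ ∈ P with q₁ < q₂,
      (if q₁ ∈ R ∧ q₂ ∈ R then (1 : ℝ) else 0) := by
  classical
  have h0 : ∀ F : ℕ → ℝ, ∑ q ∈ R, F q = ∑ q ∈ P, if q ∈ R then F q else 0 := by
    intro F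
    rw [← sum_filter]
    congr 1
    ext q
    rw [mem_filter]
    exact ⟨fun h => ⟨hR h, h⟩, fun h => h.2⟩
  have h1 : (#R : ℝ) = ∑ q ∈ P, if q ∈ R then (1 : ℝ) else 0 := by
    rw [← h0, sum_const, nsmul_eq_mul, mul_one]
  have h2 : (#R : ℝ) ^ 2 = ∑ q₁ ∈ P, ∑ q₂ ∈ P, if q₁ ∈ R ∧ q₂ ∈ R then (1 : ℝ) else 0 := by
    rw [pow_two, h1, sum_mul_sum]
    refine sum_congr rfl fun q₁ _ => sum_congr rfl fun q₂ _ => ?_
    by_cases a1 : q₁ ∈ R <;> by_cases a2 : q₂ ∈ R <;> simp [a1, a2]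
  rw [h2]
  have h3 : ∀ q₁ ∈ P, ∑ q₂ ∈ P, (if q₁ ∈ R ∧ q₂ ∈ R then (1 : ℝ) else 0)
      = (if q₁ ∈ R then (1 : ℝ) else 0)
        + ∑ q₂ ∈ P with q₁ < q₂, (if q₁ ∈ R ∧ q₂ ∈ R then (1 : ℝ) else 0)
        + ∑ q₂ ∈ P with q₂ < q₁, (if q₁ ∈ R ∧ q₂ ∈ R then (1 : ℝ) else 0) := by
    intro q₁ hq₁
    rw [sum_filter, sum_filter]
    have e : (if q₁ ∈ R then (1 : ℝ) else 0)
        = ∑ q₂ ∈ P, if q₂ = q₁ then (if q₁ ∈ R ∧ q₂ ∈ R then (1 : ℝ) else 0) else 0 := by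
      rw [sum_ite_eq' P q₁, if_pos hq₁]
      simp
    rw [e, ← sum_add_distrib, ← sum_add_distrib]
    refine sum_congr rfl fun q₂ _ => ?_
    rcases lt_trichotomy q₁ q₂ with h | h | h
    · rw [if_neg (by omega : ¬ q₂ = q₁), if_pos h, if_neg (by omega : ¬ q₂ < q₁)]; ring
    · rw [if_pos h.symm, if_neg (by omega : ¬ q₁ < q₂), if_neg (by omega : ¬ q₂ < q₁)]; ring
    · rw [if_neg (by omega : ¬ q₂ = q₁), if_neg (by omega : ¬ q₁ < q₂), if_pos h]; ring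
  rw [sum_congr rfl h3, sum_add_distrib, sum_add_distrib, ← h1]
  have h4 : ∑ q₁ ∈ P, ∑ q₂ ∈ P with q₂ < q₁, (if q₁ ∈ R ∧ q₂ ∈ R then (1 : ℝ) else 0)
      = ∑ q₁ ∈ P, ∑ q₂ ∈ P with q₁ < q₂, (if q₁ ∈ R ∧ q₂ ∈ R then (1 : ℝ) else 0) := by
    simp_rw [sum_filter]
    rw [sum_comm]
    refine sum_congr rfl fun q₂ _ => sum_congr rfl fun q₁ _ => ?_
    simp only [and_comm]
  rw [h4]
  ring

/-- **Second moment.** -/
theorem second_moment (ha : 0 < a) (hc : c ≠ 0) : ∃ (C : ℝ) (D : ℕ), 0 < C ∧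
    ∀ N Q : ℕ, D ≤ N → D ≤ Q →
      ∑ b ∈ Ioc 0 N, (#(Rb a c Q b) : ℝ) ^ 2
        ≤ ∑ b ∈ Ioc 0 N, (#(Rb a c Q b) : ℝ)
          + C * (N * (Q / (Real.log N * Real.log Q)) ^ 2) := by
  classical
  obtain ⟨C₁, D₁, hC₁, h₁⟩ := both_le ha hc
  obtain ⟨C₂, D₂, hC₂, h₂⟩ := sum_lt_pairs
  refine ⟨2 * (C₁ * C₂), max (max D₁ D₂) 2, by positivity, ?_⟩
  intro N Q hN hQ
  have hN1 : D₁ ≤ N := le_trans (le_trans (le_max_left _ _) (le_max_left _ _)) hN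
  have hQ2 : D₂ ≤ Q := le_trans (le_trans (le_max_right _ _) (le_max_left _ _)) hQ
  have hN2 : 2 ≤ N := le_trans (le_max_right _ _) hN
  have hNr : (0 : ℝ) < N := by exact_mod_cast (by omega : 0 < N)
  have hlogN : 0 < Real.log N := Real.log_pos (by exact_mod_cast (by omega : 1 < N))
  have hP : ∀ q ∈ PQ Q, q.Prime ∧ q ≤ Q := by
    intro q hq
    rw [PQ, mem_filter, mem_Ioc] at hq
    exact ⟨hq.2, hq.1.2⟩
  have e1 : ∀ b ∈ Ioc 0 N, (#(Rb a c Q b) : ℝ) ^ 2 = #(Rb a c Q b)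
      + 2 * ∑ q₁ ∈ PQ Q, ∑ q₂ ∈ PQ Q with q₁ < q₂,
      (if q₁ ∈ Rb a c Q b ∧ q₂ ∈ Rb a c Q b then (1 : ℝ) else 0) := by
    intro b _
    exact card_sq_le (PQ Q) (Rb a c Q b) (filter_subset _ _)
  rw [sum_congr rfl e1, sum_add_distrib]
  refine add_le_add le_rfl ?_
  rw [← mul_sum, mul_assoc 2]
  refine mul_le_mul_of_nonneg_left ?_ (by norm_num)
  rw [sum_comm]
  have h3 : ∀ q₁ ∈ PQ Q, ∑ b ∈ Ioc 0 N, ∑ q₂ ∈ PQ Q with q₁ < q₂,
      (if q₁ ∈ Rb a c Q b ∧ q₂ ∈ Rb a c Q b then (1 : ℝ) else 0)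
      ≤ ∑ q₂ ∈ PQ Q with q₁ < q₂, C₁ * (N / Real.log N ^ 2) * h (q₂ - q₁) ^ 2 := by
    intro q₁ hq₁
    rw [sum_comm]
    refine sum_le_sum fun q₂ hq₂ => ?_
    rw [mem_filter] at hq₂
    rw [← sum_filter, sum_const, nsmul_eq_mul, mul_one]
    refine h₁ N hN1 q₁ q₂ (hP q₁ hq₁).1 (hP q₂ hq₂.1).1 hq₂.2 _ ?_
    intro b hb
    rw [mem_filter, mem_Rb, mem_Rb] at hb
    exact ⟨hb.1, hb.2.1.2, hb.2.2.2⟩
  refine (sum_le_sum h3).trans ?_
  have e2 : ∑ q₁ ∈ PQ Q, ∑ q₂ ∈ PQ Q with q₁ < q₂, C₁ * (N / Real.log N ^ 2) * h (q₂ - q₁) ^ 2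
      = C₁ * (N / Real.log N ^ 2) * ∑ q₁ ∈ PQ Q, ∑ q₂ ∈ PQ Q with q₁ < q₂, h (q₂ - q₁) ^ 2 := by
    rw [mul_sum]
    exact sum_congr rfl fun q₁ _ => by rw [mul_sum]
  rw [e2]
  calc _ ≤ C₁ * (N / Real.log N ^ 2) * (C₂ * (Q / Real.log Q) ^ 2) :=
        mul_le_mul_of_nonneg_left (h₂ Q hQ2 (PQ Q) hP) (by positivity)
    _ = _ := by ring

end

end Pool.Agent.helper85.BVP
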