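import Pool.Agent.helper85.BVP.TypeII

/-!
# Primes in residue classes to prime moduli, on average (no Siegel-Walfisz input)
-/

namespace Pool.Agent.helper85.BVP

open Finset Real ArithmeticFunction

section
variable (q : ℕ) [hq : Fact q.Prime]

lemma abs_ker_le_one (c : ZMod q) (hc : c ≠ 0) (n : ℕ) : |ker q c n| ≤ 1 := by
  have hq1 := hq.out.one_lt
  have hqr : (1 : ℝ) ≤ (q : ℝ) - 1 := by
    have : (2 : ℝ) ≤ q := by exact_mod_cast hq1
    linarith
  have h1 : 1 / ((q : ℝ) - 1) ≤ 1 := by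
    rw [div_le_one (by linarith)]
    exact hqr
  have h0 : 0 ≤ 1 / ((q : ℝ) - 1) := by positivity
  rw [ker]
  split_ifs with h2 h3
  · exact absurd (h2.symm.trans h3) hc
  · rw [abs_le]; constructor <;> linarith
  · simp
  · rw [abs_le]; constructor <;> linarith

/-- type I terms. -/
lemma type_one_a (c : ZMod q) (hc : c ≠ 0) (x U : ℕ) :
    |∑ n ∈ Ioc 0 x, trunc vonMangoldt U n * ker q c n| ≤ U * (1 + Real.log x) := by
  have hlog := Real.log_natCast_nonneg x
  refine (abs_sum_le_sum_abs _ _).trans ?_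
  have h1 : ∀ n ∈ Ioc 0 x, |trunc vonMangoldt U n * ker q c n|
      ≤ if n ≤ U then 1 + Real.log x else 0 := by
    intro n hn
    rw [mem_Ioc] at hn
    rw [trunc_apply]
    split_ifs with h
    · rw [abs_mul, abs_of_nonneg vonMangoldt_nonneg]
      calc vonMangoldt n * |ker q c n| ≤ Real.log n * 1 :=
            mul_le_mul vonMangoldt_le_log (abs_ker_le_one q c hc n) (abs_nonneg _)
              (Real.log_natCast_nonneg n)
        _ ≤ _ := by have := log_nat_le hn.2; linarith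
    · simp
  refine (sum_le_sum h1).trans ?_
  rw [← sum_filter, sum_const, nsmul_eq_mul]
  refine mul_le_mul_of_nonneg_right ?_ (by linarith)
  have : (Ioc 0 x).filter (fun n => n ≤ U) ⊆ Ioc 0 U := by
    intro n hn
    rw [mem_filter, mem_Ioc] at hn
    rw [mem_Ioc]
    exact ⟨hn.1.1, hn.2⟩
  have h2 := card_le_card this
  rw [Nat.card_Ioc, Nat.sub_zero] at h2
  exact_mod_cast h2

/-- a sum against a truncated function. -/
lemma trunc_sum_le (f : ArithmeticFunction ℝ) (F : ℝ) (hF : 0 ≤ F) (x U : ℕ)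
    (hf : ∀ n ∈ Ioc 0 x, |f n| ≤ F) (G : ℕ → ℝ) (T : ℝ) (hT : 0 ≤ T)
    (hG : ∀ a ∈ Ioc 0 x, |G a| ≤ T) :
    |∑ a ∈ Ioc 0 x, trunc f U a * G a| ≤ U * (F * T) := by
  refine (abs_sum_le_sum_abs _ _).trans ?_
  have h1 : ∀ n ∈ Ioc 0 x, |trunc f U n * G n| ≤ if n ≤ U then F * T else 0 := by
    intro n hn
    rw [trunc_apply]
    split_ifs with h
    · rw [abs_mul]
      exact mul_le_mul (hf n hn) (hG n hn) (abs_nonneg _) hF
    · simp
  refine (sum_le_sum h1).trans ?_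
  rw [← sum_filter, sum_const, nsmul_eq_mul]
  refine mul_le_mul_of_nonneg_right ?_ (by positivity)
  have : (Ioc 0 x).filter (fun n => n ≤ U) ⊆ Ioc 0 U := by
    intro n hn
    rw [mem_filter, mem_Ioc] at hn
    rw [mem_Ioc]
    exact ⟨hn.1.1, hn.2⟩
  have h2 := card_le_card this
  rw [Nat.card_Ioc, Nat.sub_zero] at h2
  exact_mod_cast h2

lemma type_one_b (c : ZMod q) (hc : c ≠ 0) (x U : ℕ) :
    |∑ n ∈ Ioc 0 x, (trunc Mr U * ArithmeticFunction.log) n * ker q c n|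
      ≤ U * (1 * (4 * (1 + Real.log x))) := by
  have hlog := Real.log_natCast_nonneg x
  rw [conv_sum]
  refine trunc_sum_le Mr 1 zero_le_one x U (fun n _ => abs_Mr_le n) _ _ (by positivity) ?_
  intro a ha
  have h1 := abel_bound (fun n : ℕ => Real.log n) (fun k => ker q c (a * k)) log_mono
    (by simp) 2 (fun y => sum_ker_mul q c hc a y) (x / a)
  have h2 := log_nat_le (Nat.div_le_self x a)
  simp only [log_apply]
  linarith

lemma type_one_c (c : ZMod q) (hc : c ≠ 0) (x U : ℕ) :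
    |∑ n ∈ Ioc 0 x, (trunc Mr U * (trunc vonMangoldt U * Zr)) n * ker q c n|
      ≤ U * (1 * (U * ((1 + Real.log x) * 2))) := by
  have hlog := Real.log_natCast_nonneg x
  rw [conv_sum]
  refine trunc_sum_le Mr 1 zero_le_one x U (fun n _ => abs_Mr_le n) _ _ (by positivity) ?_
  intro a ha
  rw [conv_sum (trunc vonMangoldt U) Zr (fun b => ker q c (a * b))]
  refine trunc_sum_le vonMangoldt (1 + Real.log x) (by linarith) (x / a) U ?_ _ _ (by norm_num) ?_
  · intro n hn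
    rw [mem_Ioc] at hn
    rw [abs_of_nonneg vonMangoldt_nonneg]
    have h1 := log_nat_le (hn.2.trans (Nat.div_le_self x a))
    have h2 : vonMangoldt n ≤ Real.log n := vonMangoldt_le_log
    linarith
  · intro b _
    have h1 : ∑ k ∈ Ioc 0 (x / a / b), Zr k * ker q c (a * (b * k))
        = ∑ k ∈ Ioc 0 (x / a / b), ker q c (a * b * k) := by
      refine sum_congr rfl fun k hk => ?_
      rw [Zr_apply k (mem_Ioc.mp hk).1.ne', one_mul, mul_assoc]
    rw [h1]
    exact sum_ker_mul q c hc (a * b) _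

/-- Vaughan's decomposition of the prime sum. -/
lemma single_q (c : ZMod q) (hc : c ≠ 0) (x U : ℕ) (hU : 1 ≤ U) :
    |∑ n ∈ Ioc 0 x, vonMangoldt n * ker q c n| ≤ 7 * U ^ 2 * (1 + Real.log x)
      + |∑ a ∈ Ioc 0 x, alpha U a * ∑ b ∈ Ioc 0 (x / a), beta U b * ker q c (a * b)| := by
  have hlog := Real.log_natCast_nonneg x
  have hUr : (1 : ℝ) ≤ U := by exact_mod_cast hU
  have e : ∑ n ∈ Ioc 0 x, vonMangoldt n * ker q c n
      = ∑ n ∈ Ioc 0 x, trunc vonMangoldt U n * ker q c n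
        + ∑ n ∈ Ioc 0 x, (trunc Mr U * ArithmeticFunction.log) n * ker q c n
        - ∑ n ∈ Ioc 0 x, (trunc Mr U * (trunc vonMangoldt U * Zr)) n * ker q c n
        + ∑ n ∈ Ioc 0 x, (alpha U * beta U) n * ker q c n := by
    rw [← sum_add_distrib, ← sum_sub_distrib, ← sum_add_distrib]
    refine sum_congr rfl fun n _ => ?_
    have h := congrArg (fun f : ArithmeticFunction ℝ => f n) (vaughan U U)
    have h2 : (trunc vonMangoldt U + trunc Mr U * ArithmeticFunction.log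
        - trunc Mr U * (trunc vonMangoldt U * Zr)
        + (vonMangoldt - trunc vonMangoldt U) * beta U : ArithmeticFunction ℝ) n
        = trunc vonMangoldt U n + (trunc Mr U * ArithmeticFunction.log : ArithmeticFunction ℝ) n
          - (trunc Mr U * (trunc vonMangoldt U * Zr) : ArithmeticFunction ℝ) n
          + (alpha U * beta U : ArithmeticFunction ℝ) n := rfl
    rw [h, h2]
    ring
  rw [e, ← conv_sum (alpha U) (beta U)]
  have h1 := type_one_a q c hc x U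
  have h2 := type_one_b q c hc x U
  have h3 := type_one_c q c hc x U
  set S1 := ∑ n ∈ Ioc 0 x, trunc vonMangoldt U n * ker q c n
  set S2 := ∑ n ∈ Ioc 0 x, (trunc Mr U * ArithmeticFunction.log) n * ker q c n
  set S3 := ∑ n ∈ Ioc 0 x, (trunc Mr U * (trunc vonMangoldt U * Zr)) n * ker q c n
  set S4 := ∑ n ∈ Ioc 0 x, (alpha U * beta U) n * ker q c n
  have h4 : |S1 + S2 - S3 + S4| ≤ |S1| + |S2| + |S3| + |S4| := by
    have a1 := abs_add_le (S1 + S2 - S3) S4
    have a2 := abs_sub (S1 + S2) S3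
    have a3 := abs_add_le S1 S2
    linarith
  have h5 : (U : ℝ) * (1 + Real.log x) ≤ U ^ 2 * (1 + Real.log x) := by
    refine mul_le_mul_of_nonneg_right ?_ (by linarith)
    nlinarith
  nlinarith

end

/-- raw form. -/
theorem bv_raw (P : Finset ℕ) (hP : ∀ q ∈ P, q.Prime) (Q : ℕ) (hQ : 1 ≤ Q)
    (hPQ : ∀ q ∈ P, q ≤ Q) (hPQ' : ∀ q ∈ P, Q ≤ 2 * q) (c : ∀ q : ℕ, ZMod q)
    (hc : ∀ q ∈ P, c q ≠ 0) (x U K J : ℕ) (hU : 1 ≤ U) (W₀ : ℝ) (hW0 : 0 ≤ W₀)
    (hW : ∀ n ∈ Ioc 0 x, K * x < (K + 1) * n → ∑ q ∈ P, |ker q (c q) n| ≤ W₀)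
    (hJ : x ≤ brk U K J) :
    ∑ q ∈ P, |∑ n ∈ Ioc 0 x, vonMangoldt n * ker q (c q) n|
      ≤ 7 * Q * U ^ 2 * (1 + Real.log x) + (J * BB x U Q + W₀ * ((1 + Real.log x)
        * (2 * (((x : ℝ) / (K + 1) + 1) * (1 + Real.log x) + √x)))) := by
  have hlog := Real.log_natCast_nonneg x
  have h1 : ∀ q ∈ P, |∑ n ∈ Ioc 0 x, vonMangoldt n * ker q (c q) n|
      ≤ 7 * U ^ 2 * (1 + Real.log x)
      + |∑ a ∈ Ioc 0 x, alpha U a * ∑ b ∈ Ioc 0 (x / a), beta U b * ker q (c q) (a * b)| := by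
    intro q hq
    have : Fact q.Prime := ⟨hP q hq⟩
    exact single_q q (c q) (hc q hq) x U hU
  refine (sum_le_sum h1).trans ?_
  rw [sum_add_distrib]
  refine add_le_add ?_ (typeII P hP Q hQ hPQ hPQ' c hc x U K J hU W₀ hW0 hW hJ)
  rw [sum_const, nsmul_eq_mul]
  have h2 : (#P : ℝ) ≤ Q := by
    have : P ⊆ Ioc 0 Q := by
      intro q hq
      rw [mem_Ioc]
      exact ⟨(hP q hq).pos, hPQ q hq⟩
    have h3 := card_le_card this
    rw [Nat.card_Ioc, Nat.sub_zero] at h3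
    exact_mod_cast h3
  have h3 : 0 ≤ 7 * (U : ℝ) ^ 2 * (1 + Real.log x) := by positivity
  calc (#P : ℝ) * (7 * (U : ℝ) ^ 2 * (1 + Real.log x)) ≤ Q * (7 * (U : ℝ) ^ 2 * (1 + Real.log x)) :=
        mul_le_mul_of_nonneg_right h2 h3
    _ = _ := by ring

end Pool.Agent.helper85.BVP
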