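import Pool.Agent.helper85.BVP.BV

/-!
# The mean value theorem for prime moduli, with explicit parameters
-/

namespace Pool.Agent.helper85.BVP

open Finset Real ArithmeticFunction

/-- **Primes in residue classes to prime moduli `q ∼ Q`, on average.** No Siegel-Walfisz input;
`L^14 ≤ Q ≤ √x / L^14` with `L = 1 + log x`. The residue classes are arbitrary, subject only to the
trivial condition `hW`, which says that no `n` near `x` lies in too many of them. -/
theorem bv_clean (x : ℕ) (L : ℝ) (hLdef : L = 1 + Real.log x) (hL : 1000 ≤ L)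
    (hx : L ^ 46 ≤ √x) (Q : ℕ) (hQ1 : L ^ 14 ≤ Q) (hQ2 : Q * L ^ 14 ≤ √x)
    (P : Finset ℕ) (hP : ∀ q ∈ P, q.Prime) (hPQ : ∀ q ∈ P, q ≤ Q) (hPQ' : ∀ q ∈ P, Q ≤ 2 * q)
    (c : ∀ q : ℕ, ZMod q) (hc : ∀ q ∈ P, c q ≠ 0)
    (hW : ∀ n ∈ Ioc 0 x, x < 2 * n → ∑ q ∈ P, |ker q (c q) n| ≤ 4 * L) :
    ∑ q ∈ P, |∑ n ∈ Ioc 0 x, vonMangoldt n * ker q (c q) n| ≤ x / L ^ 2 := by
  have hL0 : 0 < L := by linarith
  have hL1 : 1 ≤ L := by linarith
  set s := √(x : ℝ) with hs
  have hx0 : (0 : ℝ) ≤ x := Nat.cast_nonneg x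
  have hs2 : s ^ 2 = x := Real.sq_sqrt hx0
  have hs0 : 0 < s := lt_of_lt_of_le (by positivity) hx
  have hxpos : (0 : ℝ) < x := by rw [← hs2]; positivity
  have hxn : 0 < x := by exact_mod_cast hxpos
  have hlog := Real.log_natCast_nonneg x
  -- parameters
  set U := ⌈L ^ 28⌉₊ with hU
  set K := ⌈L ^ 6⌉₊ with hK
  have hU1 : L ^ 28 ≤ U := Nat.le_ceil _
  have hU2 : (U : ℝ) ≤ 2 * L ^ 28 := by
    have h1 := (Nat.ceil_lt_add_one (by positivity : 0 ≤ L ^ 28)).le
    have h2 : 1 ≤ L ^ 28 := one_le_pow₀ hL1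
    rw [← hU] at h1
    linarith
  have hK1 : L ^ 6 ≤ K := Nat.le_ceil _
  have hK2 : (K : ℝ) ≤ 2 * L ^ 6 := by
    have h1 := (Nat.ceil_lt_add_one (by positivity : 0 ≤ L ^ 6)).le
    have h2 : 1 ≤ L ^ 6 := one_le_pow₀ hL1
    rw [← hK] at h1
    linarith
  have hU0 : 1 ≤ U := by
    have : (1 : ℝ) ≤ U := (one_le_pow₀ hL1).trans hU1
    exact_mod_cast this
  have hK0 : 1 ≤ K := by
    have : (1 : ℝ) ≤ K := (one_le_pow₀ hL1).trans hK1
    exact_mod_cast this
  have hQ0 : 1 ≤ Q := by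
    have : (1 : ℝ) ≤ Q := (one_le_pow₀ hL1).trans hQ1
    exact_mod_cast this
  set t := Nat.log 2 x + 1 with ht
  have ht2 : (t : ℝ) ≤ 2 * L := by
    have h1 : 2 ^ Nat.log 2 x ≤ x := Nat.pow_log_le_self 2 hxn.ne'
    have h2 : Real.log ((2 : ℝ) ^ Nat.log 2 x) ≤ Real.log x :=
      Real.log_le_log (by positivity) (by exact_mod_cast h1)
    rw [Real.log_pow] at h2
    have h3 := Real.log_two_gt_d9
    have h4 : (0 : ℝ) ≤ Nat.log 2 x := Nat.cast_nonneg _
    have h5 : (Nat.log 2 x : ℝ) * (1 / 2) ≤ Nat.log 2 x * Real.log 2 :=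
      mul_le_mul_of_nonneg_left (by linarith) h4
    rw [ht, hLdef]
    push_cast
    linarith
  have hJ : x ≤ brk U K (K * t) :=
    (Nat.lt_pow_succ_log_self (by norm_num) x).le.trans (brk_pow U K t (by omega) (by omega))
  have hJr : ((K * t : ℕ) : ℝ) ≤ 4 * L ^ 7 := by
    push_cast
    calc (K : ℝ) * t ≤ (2 * L ^ 6) * (2 * L) := by gcongr
      _ = _ := by ring
  have hW' : ∀ n ∈ Ioc 0 x, K * x < (K + 1) * n → ∑ q ∈ P, |ker q (c q) n| ≤ 4 * L := by
    intro n hn hKn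
    refine hW n hn ?_
    by_contra h
    push Not at h
    have h1 : (K + 1) * n ≤ 2 * K * n := Nat.mul_le_mul_right n (by omega)
    have h2 : K * (2 * n) ≤ K * x := Nat.mul_le_mul_left K h
    have h3 : 2 * K * n = K * (2 * n) := by ring
    omega
  have hmain := bv_raw P hP Q hQ0 hPQ hPQ' c hc x U K (K * t) hU0 (4 * L) (by positivity) hW' hJ
  rw [← hLdef, ← hs] at hmain
  refine hmain.trans ?_
  have hQr : (1 : ℝ) ≤ Q := by exact_mod_cast hQ0
  have hQpos : (0 : ℝ) < Q := by linarith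
  -- first term
  have e1 : 7 * (Q : ℝ) * U ^ 2 * L ≤ x / (4 * L ^ 2) := by
    rw [le_div_iff₀ (by positivity), ← hs2]
    have h1 : (U : ℝ) ^ 2 ≤ 4 * L ^ 56 := by
      calc (U : ℝ) ^ 2 ≤ (2 * L ^ 28) ^ 2 := by gcongr
        _ = _ := by ring
    calc 7 * (Q : ℝ) * U ^ 2 * L * (4 * L ^ 2) ≤ 7 * (Q : ℝ) * (4 * L ^ 56) * L * (4 * L ^ 2) := by
          gcongr
      _ = 112 * (Q * L ^ 14) * L ^ 45 := by ring
      _ ≤ 112 * s * L ^ 45 := by gcongr
      _ ≤ L * s * L ^ 45 := by gcongr; linarith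
      _ = s * L ^ 46 := by ring
      _ ≤ s * s := by gcongr
      _ = s ^ 2 := by ring
  -- second term
  have e2 : ((K * t : ℕ) : ℝ) * BB x U Q ≤ x / (4 * L ^ 2) := by
    have hsU : L ^ 14 ≤ √(U : ℝ) := by
      apply Real.le_sqrt_of_sq_le
      rw [← pow_mul]
      exact hU1
    have hsU0 : 0 < √(U : ℝ) := lt_of_lt_of_le (by positivity) hsU
    have h1 : (x : ℝ) / Q ≤ x / L ^ 14 := by gcongr
    have h2 : 2 * (x : ℝ) / √U ≤ 2 * x / L ^ 14 := by gcongr
    have h3 : (Q : ℝ) * s ≤ x / L ^ 14 := by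
      rw [le_div_iff₀ (by positivity)]
      calc (Q : ℝ) * s * L ^ 14 = (Q * L ^ 14) * s := by ring
        _ ≤ s * s := by gcongr
        _ = x := by rw [← hs2]; ring
    have h4 : BB x U Q ≤ 20 * L ^ 3 * (4 * x / L ^ 14) := by
      rw [BB, ← hLdef, ← hs]
      refine mul_le_mul_of_nonneg_left ?_ (by positivity)
      calc _ ≤ (x : ℝ) / L ^ 14 + 2 * x / L ^ 14 + x / L ^ 14 := add_le_add (add_le_add h1 h2) h3
        _ = _ := by ring
    have h5 : 0 ≤ BB x U Q := by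
      rw [BB, ← hLdef]
      positivity
    calc ((K * t : ℕ) : ℝ) * BB x U Q ≤ (4 * L ^ 7) * (20 * L ^ 3 * (4 * x / L ^ 14)) := by gcongr
      _ = 320 * x / L ^ 4 := by field_simp; ring
      _ ≤ x / (4 * L ^ 2) := by
          rw [div_le_div_iff₀ (by positivity) (by positivity)]
          have h6 : 1280 ≤ L ^ 2 := by nlinarith
          calc 320 * (x : ℝ) * (4 * L ^ 2) = x * (1280 * L ^ 2) := by ring
            _ ≤ x * (L ^ 2 * L ^ 2) := by gcongr
            _ = x * L ^ 4 := by ring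
  -- third term
  have e3 : 4 * L * (L * (2 * (((x : ℝ) / (K + 1) + 1) * L + s))) ≤ x / (4 * L ^ 2) := by
    have h1 : (x : ℝ) / (K + 1) ≤ x / L ^ 6 := by
      gcongr
      linarith
    have h2 : L ^ 5 ≤ x / L ^ 6 := by
      rw [le_div_iff₀ (by positivity)]
      calc L ^ 5 * L ^ 6 = L ^ 11 := by ring
        _ ≤ L ^ 46 := pow_le_pow_right₀ hL1 (by norm_num)
        _ ≤ s := hx
        _ = s * 1 := by ring
        _ ≤ s * s := by
            gcongr
            exact (one_le_pow₀ hL1).trans hx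
        _ = x := by rw [← hs2]; ring
    have h3 : s * L ^ 5 ≤ x := by
      calc s * L ^ 5 ≤ s * L ^ 46 := by
            refine mul_le_mul_of_nonneg_left ?_ hs0.le
            exact pow_le_pow_right₀ hL1 (by norm_num)
        _ ≤ s * s := by gcongr
        _ = x := by rw [← hs2]; ring
    have h4 : s ≤ x / L ^ 5 := by
      rw [le_div_iff₀ (by positivity)]
      exact h3
    have h5 : (1 : ℝ) ≤ x / L ^ 6 := le_trans (one_le_pow₀ hL1) h2
    calc 4 * L * (L * (2 * (((x : ℝ) / (K + 1) + 1) * L + s)))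
        ≤ 4 * L * (L * (2 * ((x / L ^ 6 + x / L ^ 6) * L + x / L ^ 5))) := by gcongr
      _ = 24 * x / L ^ 3 := by field_simp; ring
      _ ≤ x / (4 * L ^ 2) := by
          rw [div_le_div_iff₀ (by positivity) (by positivity)]
          calc 24 * (x : ℝ) * (4 * L ^ 2) = x * (96 * L ^ 2) := by ring
            _ ≤ x * (L * L ^ 2) := by gcongr; linarith
            _ = x * L ^ 3 := by ring
  have e4 : (x : ℝ) / (4 * L ^ 2) = (1 / 4) * (x / L ^ 2) := by field_simp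
  have e5 : 0 ≤ (x : ℝ) / L ^ 2 := by positivity
  rw [e4] at e1 e2 e3
  linarith

end Pool.Agent.helper85.BVP
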