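import Pool.Agent.helper85.BVP.BVClean
import Pool.Agent.helper85.BVP.HArith

/-!
# The first moment
-/

namespace Pool.Agent.helper85.BVP

open Finset Real ArithmeticFunction

/-- the residue class `c / a` modulo `q`. -/
noncomputable def resid (a : ℕ) (c : ℤ) (q : ℕ) : ZMod q := (c : ZMod q) * (a : ZMod q)⁻¹

lemma resid_iff {a : ℕ} {c : ℤ} {q : ℕ} (hq : q.Prime) (hqa : ¬ q ∣ a) (n : ℕ) :
    (n : ZMod q) = resid a c q ↔ (q : ℤ) ∣ a * n - c := by
  have : Fact q.Prime := ⟨hq⟩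
  have ha : (a : ZMod q) ≠ 0 := by
    intro h; rw [ZMod.natCast_eq_zero_iff] at h; exact hqa h
  rw [← ZMod.intCast_zmod_eq_zero_iff_dvd]
  push_cast
  rw [resid, sub_eq_zero]
  constructor
  · intro h
    rw [h]
    field_simp
  · intro h
    rw [← h]
    field_simp

lemma resid_ne_zero {a : ℕ} {c : ℤ} {q : ℕ} (hq : q.Prime) (hqa : ¬ q ∣ a) (hqc : ¬ (q : ℤ) ∣ c) :
    resid a c q ≠ 0 := by
  have : Fact q.Prime := ⟨hq⟩
  have ha : (a : ZMod q) ≠ 0 := by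
    intro h; rw [ZMod.natCast_eq_zero_iff] at h; exact hqa h
  rw [resid]
  refine mul_ne_zero ?_ (inv_ne_zero ha)
  intro h
  rw [ZMod.intCast_zmod_eq_zero_iff_dvd] at h
  exact hqc h

lemma two_pow_card_le (T : Finset ℕ) (m : ℕ) (hm : m ≠ 0) (hT : ∀ q ∈ T, q.Prime ∧ q ∣ m) :
    2 ^ #T ≤ m := by
  have h1 : ∏ q ∈ T, q ∣ m :=
    Finset.prod_primes_dvd m (fun q hq => (hT q hq).1.prime) (fun q hq => (hT q hq).2)
  have h2 : 2 ^ #T ≤ ∏ q ∈ T, q := Finset.pow_card_le_prod _ _ _ fun q hq => (hT q hq).1.two_le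
  exact h2.trans (Nat.le_of_dvd (Nat.pos_of_ne_zero hm) h1)

lemma card_le_log (T : Finset ℕ) (m : ℕ) (hm : m ≠ 0) (hT : ∀ q ∈ T, q.Prime ∧ q ∣ m) :
    (#T : ℝ) ≤ 3 / 2 * Real.log m := by
  have h1 := two_pow_card_le T m hm hT
  have h2 : Real.log ((2 : ℝ) ^ #T) ≤ Real.log m :=
    Real.log_le_log (by positivity) (by exact_mod_cast h1)
  rw [Real.log_pow] at h2
  have h3 := Real.log_two_gt_d9
  have h4 : (0 : ℝ) ≤ #T := Nat.cast_nonneg _
  have h5 : (#T : ℝ) * (2 / 3) ≤ #T * Real.log 2 := mul_le_mul_of_nonneg_left (by linarith) h4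
  linarith

section
variable {a : ℕ} {c : ℤ}

lemma sub_ne (ha : 0 < a) {n : ℕ} (hn : c.natAbs < n) : (0 : ℤ) < a * n - c := by
  have h1 : (c.natAbs : ℤ) = |c| := Int.natCast_natAbs c
  have h2 : c ≤ |c| := le_abs_self c
  have h3 : (n : ℤ) ≤ a * n := by
    have : (1 : ℤ) ≤ a := by exact_mod_cast ha
    nlinarith
  omega

lemma cnt_bound (ha : 0 < a) (P : Finset ℕ) (hP : ∀ q ∈ P, q.Prime ∧ ¬ q ∣ a) (x n : ℕ)
    (hn : n ∈ Ioc c.natAbs x) (L : ℝ) (hLdef : L = 1 + Real.log x)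
    (hM : Real.log ((a : ℝ) + c.natAbs) ≤ L) :
    (#{q ∈ P | (n : ZMod q) = resid a c q} : ℝ) ≤ 3 * L := by
  rw [mem_Ioc] at hn
  have hpos := sub_ne ha hn.1
  have hn0 : 0 < n := by omega
  have hx0 : 0 < x := by omega
  set m := (a * n - c : ℤ).natAbs with hm
  have hm0 : m ≠ 0 := by omega
  have hmle : m ≤ (a + c.natAbs) * x := by
    have h1 : (m : ℤ) = a * n - c := by omega
    have h2 : -c ≤ |c| := neg_le_abs c
    have h3 : (c.natAbs : ℤ) = |c| := Int.natCast_natAbs c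
    have h4 : a * n ≤ a * x := Nat.mul_le_mul_left a hn.2
    have h5 : c.natAbs ≤ c.natAbs * x := Nat.le_mul_of_pos_right _ hx0
    have h6 : (m : ℤ) ≤ ((a * n + c.natAbs : ℕ) : ℤ) := by
      rw [h1]
      push_cast
      linarith
    have h7 : m ≤ a * n + c.natAbs := by exact_mod_cast h6
    calc m ≤ a * x + c.natAbs * x := by omega
      _ = _ := by ring
  have h1 := card_le_log {q ∈ P | (n : ZMod q) = resid a c q} m hm0 (by
    intro q hq
    rw [mem_filter] at hq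
    refine ⟨(hP q hq.1).1, ?_⟩
    have := (resid_iff (hP q hq.1).1 (hP q hq.1).2 n).mp hq.2
    rw [hm]
    exact Int.natCast_dvd.mp this)
  have h2 : Real.log m ≤ Real.log ((a : ℝ) + c.natAbs) + Real.log x := by
    rw [← Real.log_mul (by positivity) (by positivity)]
    refine Real.log_le_log (by positivity) ?_
    exact_mod_cast hmle
  linarith

lemma ker_le (q : ℕ) (hq : 2 ≤ q) (d : ZMod q) (n : ℕ) :
    |ker q d n| ≤ (if (n : ZMod q) = d then 1 else 0) + 1 / ((q : ℝ) - 1) := by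
  have hqr : (2 : ℝ) ≤ q := by exact_mod_cast hq
  have h0 : 0 < 1 / ((q : ℝ) - 1) := by
    have : (0 : ℝ) < (q : ℝ) - 1 := by linarith
    positivity
  rw [ker]
  split_ifs <;> rw [abs_le] <;> constructor <;> linarith

/-- the trivial bound required by `bv_clean`. -/
lemma W_bound (ha : 0 < a) (P : Finset ℕ) (hP : ∀ q ∈ P, q.Prime ∧ ¬ q ∣ a) (Q : ℕ)
    (hQ : 4 ≤ Q) (hPQ : ∀ q ∈ P, q ≤ Q) (hPQ' : ∀ q ∈ P, Q ≤ 2 * q) (x n : ℕ)
    (hn : n ∈ Ioc c.natAbs x) (L : ℝ) (hLdef : L = 1 + Real.log x) (hL : 4 ≤ L)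
    (hM : Real.log ((a : ℝ) + c.natAbs) ≤ L) :
    ∑ q ∈ P, |ker q (resid a c q) n| ≤ 4 * L := by
  have h1 : ∀ q ∈ P, |ker q (resid a c q) n|
      ≤ (if (n : ZMod q) = resid a c q then 1 else 0) + 4 / (Q : ℝ) := by
    intro q hq
    refine (ker_le q (hP q hq).1.two_le _ n).trans (add_le_add le_rfl ?_)
    have h2 : (Q : ℝ) ≤ 2 * q := by exact_mod_cast hPQ' q hq
    have h3 : (4 : ℝ) ≤ Q := by exact_mod_cast hQ
    rw [div_le_div_iff₀ (by linarith) (by linarith)]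
    linarith
  refine (sum_le_sum h1).trans ?_
  rw [sum_add_distrib, ← sum_filter, sum_const, sum_const, nsmul_eq_mul, nsmul_eq_mul, mul_one]
  have h2 := cnt_bound ha P hP x n hn L hLdef hM
  have h3 : (#P : ℝ) ≤ Q := by
    have : P ⊆ Ioc 0 Q := by
      intro q hq
      rw [mem_Ioc]
      exact ⟨(hP q hq).1.pos, hPQ q hq⟩
    have h3 := card_le_card this
    rw [Nat.card_Ioc, Nat.sub_zero] at h3
    exact_mod_cast h3
  have h4 : (#P : ℝ) * (4 / Q) ≤ 4 := by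
    have h5 : (0 : ℝ) < Q := by
      have : (4 : ℝ) ≤ Q := by exact_mod_cast hQ
      linarith
    rw [mul_div_assoc', div_le_iff₀ h5]
    linarith
  linarith

/-- sum of `Λ` over integers prime to `q`. -/
lemma sum_coprime_ge (q x : ℕ) (hq : q.Prime) :
    Chebyshev.theta x - Real.log q
      ≤ ∑ n ∈ Ioc 0 x, vonMangoldt n * (if (n : ZMod q) = 0 then (0 : ℝ) else 1) := by
  rw [Chebyshev.theta_eq_sum_primesLE_log]
  have h1 : ∑ p ∈ Nat.primesLE x, Real.log p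
      ≤ ∑ p ∈ (Nat.primesLE x).filter (fun p => p ≠ q), Real.log p + Real.log q := by
    rw [← sum_filter_add_sum_filter_not (Nat.primesLE x) (fun p => p ≠ q)]
    refine add_le_add le_rfl ?_
    have : (Nat.primesLE x).filter (fun p => ¬ p ≠ q) ⊆ {q} := by
      intro p hp
      rw [mem_filter] at hp
      rw [mem_singleton]
      exact not_not.mp hp.2
    refine (sum_le_sum_of_subset_of_nonneg this (fun p _ _ => Real.log_natCast_nonneg p)).trans ?_
    rw [sum_singleton]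
  have h2 : ∑ p ∈ (Nat.primesLE x).filter (fun p => p ≠ q), Real.log p
      ≤ ∑ n ∈ Ioc 0 x, vonMangoldt n * (if (n : ZMod q) = 0 then (0 : ℝ) else 1) := by
    have h3 : ∀ p ∈ (Nat.primesLE x).filter (fun p => p ≠ q),
        Real.log p = vonMangoldt p * (if (p : ZMod q) = 0 then (0 : ℝ) else 1) := by
      intro p hp
      rw [mem_filter, Nat.mem_primesLE] at hp
      rw [vonMangoldt_apply_prime hp.1.2, if_neg, mul_one]
      intro h
      rw [ZMod.natCast_eq_zero_iff] at h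
      exact hp.2 ((Nat.prime_dvd_prime_iff_eq hq hp.1.2).mp h).symm
    rw [sum_congr rfl h3]
    refine sum_le_sum_of_subset_of_nonneg ?_ (fun n _ _ => ?_)
    · intro p hp
      rw [mem_filter, Nat.mem_primesLE] at hp
      rw [mem_Ioc]
      exact ⟨hp.1.2.pos, hp.1.1⟩
    · refine mul_nonneg vonMangoldt_nonneg ?_
      split_ifs <;> norm_num
  linarith

/-- one dyadic block. -/
lemma block (ha : 0 < a) (x : ℕ) (L : ℝ) (hLdef : L = 1 + Real.log x) (hL : 1000 ≤ L)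
    (hx : L ^ 46 ≤ √x) (hM : Real.log ((a : ℝ) + c.natAbs) ≤ L) (hcx : 2 * c.natAbs ≤ x)
    (hx50 : 50 ^ 4 ≤ x) (Q : ℕ) (hQ1 : L ^ 14 ≤ Q) (hQ2 : Q * L ^ 14 ≤ √x)
    (P : Finset ℕ) (hP : ∀ q ∈ P, q.Prime ∧ ¬ q ∣ a ∧ ¬ (q : ℤ) ∣ c) (hPQ : ∀ q ∈ P, q ≤ Q)
    (hPQ' : ∀ q ∈ P, Q ≤ 2 * q) :
    (x : ℝ) / 3 * ∑ q ∈ P, 1 / (q : ℝ) - x / L ^ 2
      ≤ ∑ q ∈ P, ∑ n ∈ Ioc 0 x, vonMangoldt n * (if (n : ZMod q) = resid a c q then (1 : ℝ) else 0) := by
  have hL0 : 0 < L := by linarith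
  have hL1 : 1 ≤ L := by linarith
  have hQ4 : 4 ≤ Q := by
    have h1 : (4 : ℝ) ≤ Q := by
      calc (4 : ℝ) ≤ L := by linarith
        _ = L ^ 1 := (pow_one L).symm
        _ ≤ L ^ 14 := pow_le_pow_right₀ hL1 (by norm_num)
        _ ≤ Q := hQ1
    exact_mod_cast h1
  have hbv := bv_clean x L hLdef hL hx Q hQ1 hQ2 P (fun q hq => (hP q hq).1) hPQ hPQ'
    (fun q => resid a c q) (fun q hq => resid_ne_zero (hP q hq).1 (hP q hq).2.1 (hP q hq).2.2)
    (by
      intro n hn hxn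
      rw [mem_Ioc] at hn
      exact W_bound ha P (fun q hq => ⟨(hP q hq).1, (hP q hq).2.1⟩) Q hQ4 hPQ hPQ' x n
        (by rw [mem_Ioc]; exact ⟨by omega, hn.2⟩) L hLdef (by linarith) hM)
  have hth := theta_half x hx50
  have hxr : (50 : ℝ) ^ 4 ≤ x := by exact_mod_cast hx50
  have hlogs : ∀ q ∈ P, Real.log q ≤ (x : ℝ) / 6 := by
    intro q hq
    have h1 : (q : ℝ) ≤ Q := by exact_mod_cast hPQ q hq
    have h2 : (0 : ℝ) < q := by exact_mod_cast (hP q hq).1.pos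
    have h3 := Real.log_le_sub_one_of_pos h2
    have h4 : (Q : ℝ) ≤ √x := by
      calc (Q : ℝ) = Q * 1 := (mul_one _).symm
        _ ≤ Q * L ^ 14 := by gcongr; exact one_le_pow₀ hL1
        _ ≤ √x := hQ2
    have h5 : √(x : ℝ) ≤ x / 6 := by
      have h6 : (6 : ℝ) ≤ √x := by
        apply Real.le_sqrt_of_sq_le
        linarith
      have h7 := Real.mul_self_sqrt (by linarith : (0 : ℝ) ≤ x)
      nlinarith
    linarith
  have h1 : ∀ q ∈ P, (x : ℝ) / 3 * (1 / (q : ℝ)) - |∑ n ∈ Ioc 0 x, vonMangoldt n * ker q (resid a c q) n|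
      ≤ ∑ n ∈ Ioc 0 x, vonMangoldt n * (if (n : ZMod q) = resid a c q then (1 : ℝ) else 0) := by
    intro q hq
    have hqr : (2 : ℝ) ≤ q := by exact_mod_cast (hP q hq).1.two_le
    have e : ∑ n ∈ Ioc 0 x, vonMangoldt n * (if (n : ZMod q) = resid a c q then (1 : ℝ) else 0)
        = ∑ n ∈ Ioc 0 x, vonMangoldt n * ker q (resid a c q) n
          + (1 / ((q : ℝ) - 1)) *
            ∑ n ∈ Ioc 0 x, vonMangoldt n * (if (n : ZMod q) = 0 then (0 : ℝ) else 1) := by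
      rw [mul_sum, ← sum_add_distrib]
      refine sum_congr rfl fun n _ => ?_
      rw [ker]
      split_ifs <;> ring
    rw [e]
    have h2 := sum_coprime_ge q x (hP q hq).1
    have h3 := hlogs q hq
    have h4 : (x : ℝ) / 3 ≤ ∑ n ∈ Ioc 0 x, vonMangoldt n * (if (n : ZMod q) = 0 then (0 : ℝ) else 1) := by
      linarith
    have h5 : (x : ℝ) / 3 * (1 / (q : ℝ)) ≤ (1 / ((q : ℝ) - 1)) *
            ∑ n ∈ Ioc 0 x, vonMangoldt n * (if (n : ZMod q) = 0 then (0 : ℝ) else 1) := by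
      rw [mul_comm]
      have h6 : 1 / (q : ℝ) ≤ 1 / ((q : ℝ) - 1) :=
        one_div_le_one_div_of_le (by linarith) (by linarith)
      exact mul_le_mul h6 h4 (by positivity) (by
        have : (0 : ℝ) < (q : ℝ) - 1 := by linarith
        positivity)
    have h6 := neg_abs_le (∑ n ∈ Ioc 0 x, vonMangoldt n * ker q (resid a c q) n)
    linarith
  have h2 := sum_le_sum h1
  rw [sum_sub_distrib, ← mul_sum] at h2
  linarith

end

end Pool.Agent.helper85.BVP
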