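import Pool.Agent.helper85.BVP.First

/-!
# The first moment, counting pairs of primes
-/

namespace Pool.Agent.helper85.BVP

open Finset Real ArithmeticFunction

/-- the primes in `(Q/8, Q]`. -/
def PQ (Q : ℕ) : Finset ℕ := {q ∈ Ioc (Q / 8) Q | q.Prime}

lemma log_four_lt : Real.log 4 < 1.4 := by
  have : Real.log 4 = 2 * Real.log 2 := by
    rw [show (4 : ℝ) = 2 ^ 2 by norm_num, Real.log_pow]; norm_num
  have := Real.log_two_lt_d9
  linarith

lemma card_PQ (Q : ℕ) (hQ : 50 ^ 4 ≤ Q) : 3 / 10 * (Q : ℝ) ≤ #(PQ Q) * Real.log Q := by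
  have h1 := theta_half Q hQ
  have h2 := Chebyshev.theta_le_log4_mul_x (x := ((Q / 8 : ℕ) : ℝ)) (Nat.cast_nonneg _)
  have h3 : ((Q / 8 : ℕ) : ℝ) ≤ Q / 8 := by
    have := Nat.cast_div_le (α := ℝ) (m := Q) (n := 8)
    exact_mod_cast this
  have h4 := log_four_lt
  have h5 : Real.log 4 * ((Q / 8 : ℕ) : ℝ) ≤ 1.4 * (Q / 8) := by
    have : 0 ≤ Real.log 4 := Real.log_nonneg (by norm_num)
    gcongr
  rw [Chebyshev.theta_eq_sum_primesLE_log] at h1 h2
  have h6 : Nat.primesLE Q ⊆ PQ Q ∪ Nat.primesLE (Q / 8) := by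
    intro p hp
    rw [Nat.mem_primesLE] at hp
    rw [mem_union, PQ, mem_filter, mem_Ioc, Nat.mem_primesLE]
    by_cases h : p ≤ Q / 8
    · right; exact ⟨h, hp.2⟩
    · left; exact ⟨⟨by omega, hp.1⟩, hp.2⟩
  have h7 := sum_le_sum_of_subset_of_nonneg h6 (fun p _ _ => Real.log_natCast_nonneg p)
  have h8 := sum_union_inter (s₁ := PQ Q) (s₂ := Nat.primesLE (Q / 8)) (f := fun p => Real.log (p : ℝ))
  have h9 : 0 ≤ ∑ p ∈ PQ Q ∩ Nat.primesLE (Q / 8), Real.log (p : ℝ) :=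
    sum_nonneg fun p _ => Real.log_natCast_nonneg p
  have h10 : ∑ p ∈ PQ Q, Real.log (p : ℝ) ≤ #(PQ Q) * Real.log Q := by
    rw [← nsmul_eq_mul, ← sum_const]
    refine sum_le_sum fun p hp => ?_
    rw [PQ, mem_filter, mem_Ioc] at hp
    exact log_nat_le hp.1.2
  linarith

section
variable {a : ℕ} {c : ℤ}

/-- the pairs counted for a fixed `q`. -/
def Nq (a : ℕ) (c : ℤ) (x q : ℕ) : Finset ℕ :=
  {p ∈ Ioc c.natAbs x | p.Prime ∧ (q : ℤ) ∣ a * p - c}

/-- `Λ`-weighted sum against the counting function. -/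
lemma upper_S (ha : 0 < a) (x : ℕ) (hx0 : 1 ≤ x) (L : ℝ) (hLdef : L = 1 + Real.log x)
    (hM : (a : ℝ) + c.natAbs ≤ L) (hcx : c.natAbs ≤ x)
    (P : Finset ℕ) (hP : ∀ q ∈ P, q.Prime ∧ ¬ q ∣ a) :
    ∑ q ∈ P, ∑ n ∈ Ioc 0 x, vonMangoldt n * (if (n : ZMod q) = resid a c q then (1 : ℝ) else 0)
      ≤ L * ∑ q ∈ P, (#(Nq a c x q) : ℝ) + #P * L ^ 2 + 6 * L ^ 2 * √x := by
  have hlog := Real.log_natCast_nonneg x
  have hL1 : 1 ≤ L := by linarith
  have hc0 : (0 : ℝ) ≤ c.natAbs := Nat.cast_nonneg _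
  have ha0 : (0 : ℝ) < a := by exact_mod_cast ha
  set M := c.natAbs with hMdef
  have hML : (M : ℝ) ≤ L := by linarith
  have hlogM : Real.log ((a : ℝ) + M) ≤ L := by
    have := Real.log_le_sub_one_of_pos (by linarith : 0 < (a : ℝ) + M)
    linarith
  have hsplit : ∀ q ∈ P, ∑ n ∈ Ioc 0 x, vonMangoldt n * (if (n : ZMod q) = resid a c q then (1 : ℝ) else 0)
      ≤ L ^ 2 + L * (#(Nq a c x q) : ℝ)
        + ∑ n ∈ (Ioc M x).filter (fun n => ¬ n.Prime),
          vonMangoldt n * (if (n : ZMod q) = resid a c q then (1 : ℝ) else 0) := by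
    intro q hq
    rw [← sum_Ioc_consecutive _ (Nat.zero_le M) hcx,
      ← sum_filter_add_sum_filter_not (Ioc M x) (fun n => n.Prime), ← add_assoc]
    refine add_le_add (add_le_add ?_ ?_) le_rfl
    · have h1 : ∀ n ∈ Ioc 0 M, vonMangoldt n * (if (n : ZMod q) = resid a c q then (1 : ℝ) else 0)
          ≤ L := by
        intro n hn
        rw [mem_Ioc] at hn
        have h2 : vonMangoldt n ≤ Real.log n := vonMangoldt_le_log
        have h3 := log_nat_le (hn.2.trans hcx)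
        have h4 : (0 : ℝ) ≤ vonMangoldt n := vonMangoldt_nonneg
        split_ifs <;> linarith
      refine (sum_le_sum h1).trans ?_
      rw [sum_const, nsmul_eq_mul, Nat.card_Ioc, Nat.sub_zero, pow_two]
      exact mul_le_mul_of_nonneg_right hML (by linarith)
    · rw [Nq, mul_comm L, ← nsmul_eq_mul, ← sum_const, ← filter_filter]
      rw [← sum_filter_add_sum_filter_not ((Ioc M x).filter (fun n => n.Prime))
        (fun p => (q : ℤ) ∣ a * p - c)]
      have h0 : ∑ n ∈ ((Ioc M x).filter (fun n => n.Prime)).filter (fun p : ℕ => ¬ (q : ℤ) ∣ a * p - c),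
          vonMangoldt n * (if (n : ZMod q) = resid a c q then (1 : ℝ) else 0) = 0 := by
        refine sum_eq_zero fun n hn => ?_
        rw [mem_filter] at hn
        rw [if_neg, mul_zero]
        intro h
        exact hn.2 ((resid_iff (hP q hq).1 (hP q hq).2 n).mp h)
      rw [h0, add_zero]
      refine sum_le_sum fun n hn => ?_
      rw [mem_filter, mem_filter, mem_Ioc] at hn
      have h2 : vonMangoldt n ≤ Real.log n := vonMangoldt_le_log
      have h3 := log_nat_le hn.1.1.2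
      have h4 : (0 : ℝ) ≤ vonMangoldt n := vonMangoldt_nonneg
      split_ifs <;> linarith
  refine (sum_le_sum hsplit).trans ?_
  rw [sum_add_distrib, sum_add_distrib, sum_const, nsmul_eq_mul, ← mul_sum]
  have hthird : ∑ q ∈ P, ∑ n ∈ (Ioc M x).filter (fun n => ¬ n.Prime),
          vonMangoldt n * (if (n : ZMod q) = resid a c q then (1 : ℝ) else 0)
      ≤ 6 * L ^ 2 * √x := by
    rw [sum_comm]
    have h1 : ∀ n ∈ (Ioc M x).filter (fun n => ¬ n.Prime),
        ∑ q ∈ P, vonMangoldt n * (if (n : ZMod q) = resid a c q then (1 : ℝ) else 0)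
          ≤ 3 * L * vonMangoldt n := by
      intro n hn
      rw [mem_filter] at hn
      rw [← mul_sum, ← sum_filter, sum_const, nsmul_eq_mul, mul_one, mul_comm (3 * L)]
      exact mul_le_mul_of_nonneg_left (cnt_bound ha P hP x n hn.1 L hLdef hlogM) vonMangoldt_nonneg
    refine (sum_le_sum h1).trans ?_
    rw [← mul_sum]
    have h2 : ∑ n ∈ (Ioc M x).filter (fun n => ¬ n.Prime), vonMangoldt n
        ≤ ∑ n ∈ Ioc 0 x with ¬ n.Prime, vonMangoldt n := by
      refine sum_le_sum_of_subset_of_nonneg (filter_subset_filter _ ?_)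
        (fun _ _ _ => vonMangoldt_nonneg)
      exact Ioc_subset_Ioc_left (Nat.zero_le M)
    have h3 := Chebyshev.psi_sub_theta_eq_sum_not_prime (x : ℝ)
    rw [Nat.floor_natCast] at h3
    have h4 := Chebyshev.psi_sub_theta_le (x := (x : ℝ)) (by exact_mod_cast hx0)
    have h5 : 2 * √(x : ℝ) * Real.log x ≤ 2 * √x * L := by
      refine mul_le_mul_of_nonneg_left (by linarith) (by positivity)
    calc 3 * L * ∑ n ∈ (Ioc M x).filter (fun n => ¬ n.Prime), vonMangoldt n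
        ≤ 3 * L * (2 * √x * L) := by
          refine mul_le_mul_of_nonneg_left ?_ (by positivity)
          linarith
      _ = _ := by ring
  linarith

/-- **First moment.** -/
theorem first_moment (ha : 0 < a) (hc : c ≠ 0) (x : ℕ) (L : ℝ) (hLdef : L = 1 + Real.log x)
    (hL : 1000 ≤ L) (hx : L ^ 46 ≤ √x) (hM : (a : ℝ) + c.natAbs ≤ L) (Q : ℕ)
    (hQ1 : 8 * L ^ 14 ≤ Q) (hQ2 : Q * L ^ 14 ≤ √x) :
    (x : ℝ) / (16 * L * Real.log Q) ≤ ∑ q ∈ PQ Q, (#(Nq a c x q) : ℝ) := by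
  have hL0 : 0 < L := by linarith
  have hL1 : 1 ≤ L := by linarith
  have hlog := Real.log_natCast_nonneg x
  set s := √(x : ℝ) with hs
  have hx0 : (0 : ℝ) ≤ x := Nat.cast_nonneg x
  have hs2 : s ^ 2 = x := Real.sq_sqrt hx0
  have hLs : L ≤ s := by
    calc L = L ^ 1 := (pow_one L).symm
      _ ≤ L ^ 46 := pow_le_pow_right₀ hL1 (by norm_num)
      _ ≤ s := hx
  have hL4 : L ^ 4 ≤ s := (pow_le_pow_right₀ hL1 (by norm_num)).trans hx
  have hs0 : 0 < s := by linarith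
  have hL14 : (1000 : ℝ) ^ 4 ≤ L ^ 14 := by
    calc (1000 : ℝ) ^ 4 ≤ L ^ 4 := by gcongr
      _ ≤ L ^ 14 := pow_le_pow_right₀ hL1 (by norm_num)
  have hxr : (1000 : ℝ) ^ 4 ≤ x := by
    rw [← hs2]
    calc (1000 : ℝ) ^ 4 ≤ L ^ 4 := by gcongr
      _ ≤ s := hL4
      _ ≤ s ^ 2 := by nlinarith
  have hx50 : 50 ^ 4 ≤ x := by
    have : (50 : ℝ) ^ 4 ≤ x := by linarith
    exact_mod_cast this
  have hc0 : (0 : ℝ) ≤ c.natAbs := Nat.cast_nonneg _
  have ha0 : (0 : ℝ) < a := by exact_mod_cast ha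
  have hcx : 2 * c.natAbs ≤ x := by
    have : 2 * (c.natAbs : ℝ) ≤ x := by
      rw [← hs2]
      nlinarith
    exact_mod_cast this
  have hlogM : Real.log ((a : ℝ) + c.natAbs) ≤ L := by
    have := Real.log_le_sub_one_of_pos (by linarith : 0 < (a : ℝ) + c.natAbs)
    linarith
  have hQr : (1000 : ℝ) ^ 4 ≤ Q := by linarith
  have hQ50 : 50 ^ 4 ≤ Q := by
    have : (50 : ℝ) ^ 4 ≤ Q := by linarith
    exact_mod_cast this
  have hQpos : (0 : ℝ) < Q := by linarith
  have hlogQ : 0 < Real.log Q := Real.log_pos (by linarith)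
  -- sizes
  have hfl : ∀ k : ℕ, 0 < k → ((Q : ℝ) / k) - 1 < ((Q / k : ℕ) : ℝ) := by
    intro k hk
    have hk0 : (0 : ℝ) < k := by exact_mod_cast hk
    have h1 : Q < (Q / k + 1) * k := by
      have := Nat.div_add_mod Q k
      have := Nat.mod_lt Q hk
      nlinarith
    have h2 : (Q : ℝ) < (((Q / k : ℕ) : ℝ) + 1) * k := by exact_mod_cast h1
    have h3 : (Q : ℝ) / k < ((Q / k : ℕ) : ℝ) + 1 := by
      rw [div_lt_iff₀ hk0]
      exact h2
    linarith
  have hQ4 : L ^ 14 ≤ ((Q / 4 : ℕ) : ℝ) := by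
    have := hfl 4 (by norm_num)
    push_cast at this
    linarith
  have hQ2' : L ^ 14 ≤ ((Q / 2 : ℕ) : ℝ) := by
    have := hfl 2 (by norm_num)
    push_cast at this
    linarith
  have hQ8 : a + c.natAbs ≤ Q / 8 := by
    have h1 := hfl 8 (by norm_num)
    push_cast at h1
    have h2 : ((a + c.natAbs : ℕ) : ℝ) < ((Q / 8 : ℕ) : ℝ) + 1 := by
      push_cast
      have : L ≤ L ^ 14 := by
        calc L = L ^ 1 := (pow_one L).symm
          _ ≤ L ^ 14 := pow_le_pow_right₀ hL1 (by norm_num)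
      linarith
    have h3 : a + c.natAbs < Q / 8 + 1 := by exact_mod_cast h2
    omega
  have hprime : ∀ q, q.Prime → Q / 8 < q → ¬ q ∣ a ∧ ¬ (q : ℤ) ∣ c := by
    intro q hq hqQ
    constructor
    · intro h
      have := Nat.le_of_dvd ha h
      omega
    · intro h
      have h1 : q ∣ c.natAbs := Int.natCast_dvd.mp h
      have := Nat.le_of_dvd (by omega) h1
      omega
  have hdivle : ∀ k : ℕ, ((Q / k : ℕ) : ℝ) * L ^ 14 ≤ s := by
    intro k
    have h1 : ((Q / k : ℕ) : ℝ) ≤ Q := by exact_mod_cast Nat.div_le_self Q k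
    calc _ ≤ (Q : ℝ) * L ^ 14 := by gcongr
      _ ≤ s := hQ2
  -- three blocks
  set P1 := (Ioc (Q / 2) Q).filter Nat.Prime with hP1
  set P2 := (Ioc (Q / 4) (Q / 2)).filter Nat.Prime with hP2
  set P3 := (Ioc (Q / 8) (Q / 4)).filter Nat.Prime with hP3
  have b1 := block (a := a) (c := c) ha x L hLdef hL hx hlogM hcx hx50 Q (by linarith) hQ2 P1
    (by
      intro q hq
      rw [hP1, mem_filter, mem_Ioc] at hq
      have := hprime q hq.2 (by omega)
      exact ⟨hq.2, this.1, this.2⟩)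
    (by intro q hq; rw [hP1, mem_filter, mem_Ioc] at hq; exact hq.1.2)
    (by intro q hq; rw [hP1, mem_filter, mem_Ioc] at hq; omega)
  have b2 := block (a := a) (c := c) ha x L hLdef hL hx hlogM hcx hx50 (Q / 2) hQ2' (hdivle 2) P2
    (by
      intro q hq
      rw [hP2, mem_filter, mem_Ioc] at hq
      have := hprime q hq.2 (by omega)
      exact ⟨hq.2, this.1, this.2⟩)
    (by intro q hq; rw [hP2, mem_filter, mem_Ioc] at hq; exact hq.1.2)
    (by intro q hq; rw [hP2, mem_filter, mem_Ioc] at hq; omega)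
  have b3 := block (a := a) (c := c) ha x L hLdef hL hx hlogM hcx hx50 (Q / 4) hQ4 (hdivle 4) P3
    (by
      intro q hq
      rw [hP3, mem_filter, mem_Ioc] at hq
      have := hprime q hq.2 (by omega)
      exact ⟨hq.2, this.1, this.2⟩)
    (by intro q hq; rw [hP3, mem_filter, mem_Ioc] at hq; exact hq.1.2)
    (by intro q hq; rw [hP3, mem_filter, mem_Ioc] at hq; omega)
  have hsum : ∀ F : ℕ → ℝ, ∑ q ∈ PQ Q, F q = ∑ q ∈ P3, F q + ∑ q ∈ P2, F q + ∑ q ∈ P1, F q := by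
    intro F
    rw [PQ, hP1, hP2, hP3, sum_filter, sum_filter, sum_filter, sum_filter,
      sum_Ioc_consecutive _ (by omega) (by omega), sum_Ioc_consecutive _ (by omega) (by omega)]
  have hS : (x : ℝ) / 3 * ∑ q ∈ PQ Q, 1 / (q : ℝ) - 3 * (x / L ^ 2)
      ≤ ∑ q ∈ PQ Q, ∑ n ∈ Ioc 0 x,
        vonMangoldt n * (if (n : ZMod q) = resid a c q then (1 : ℝ) else 0) := by
    rw [hsum, hsum]
    linarith
  have hPQmem : ∀ q ∈ PQ Q, q.Prime ∧ ¬ q ∣ a := by
    intro q hq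
    rw [PQ, mem_filter, mem_Ioc] at hq
    exact ⟨hq.2, (hprime q hq.2 hq.1.1).1⟩
  have hU := upper_S (c := c) ha x (by omega) L hLdef hM (by omega) (PQ Q) hPQmem
  rw [← hs] at hU
  -- number of primes
  have hcard := card_PQ Q hQ50
  have hinv : 3 / 10 ≤ (∑ q ∈ PQ Q, 1 / (q : ℝ)) * Real.log Q := by
    have h1 : (#(PQ Q) : ℝ) * (1 / Q) ≤ ∑ q ∈ PQ Q, 1 / (q : ℝ) := by
      rw [← nsmul_eq_mul, ← sum_const]
      refine sum_le_sum fun q hq => ?_
      rw [PQ, mem_filter, mem_Ioc] at hq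
      refine one_div_le_one_div_of_le (by exact_mod_cast hq.2.pos) (by exact_mod_cast hq.1.2)
    calc (3 : ℝ) / 10 = (3 / 10 * Q) * (1 / Q) := by field_simp
      _ ≤ (#(PQ Q) * Real.log Q) * (1 / Q) := by gcongr
      _ = (#(PQ Q) * (1 / Q)) * Real.log Q := by ring
      _ ≤ _ := by gcongr
  have hcardQ : (#(PQ Q) : ℝ) ≤ s := by
    have h1 : PQ Q ⊆ Ioc 0 Q := by
      intro q hq
      rw [PQ, mem_filter, mem_Ioc] at hq
      rw [mem_Ioc]
      exact ⟨hq.2.pos, hq.1.2⟩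
    have h3 := card_le_card h1
    rw [Nat.card_Ioc, Nat.sub_zero] at h3
    have h4 : (#(PQ Q) : ℝ) ≤ Q := by exact_mod_cast h3
    have h5 : (Q : ℝ) ≤ Q * L ^ 14 := by
      have := one_le_pow₀ hL1 (n := 14)
      nlinarith
    linarith
  have hlogQL : Real.log Q ≤ L := by
    have h5 : (Q : ℝ) ≤ Q * L ^ 14 := by
      have := one_le_pow₀ hL1 (n := 14)
      nlinarith
    have h6 : (Q : ℝ) ≤ x := by
      rw [← hs2]
      nlinarith
    have := Real.log_le_log hQpos h6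
    linarith
  -- conclusion
  set A := ∑ q ∈ PQ Q, 1 / (q : ℝ) with hA
  set T := ∑ q ∈ PQ Q, (#(Nq a c x q) : ℝ) with hT
  have hmain : (x : ℝ) / 3 * A ≤ L * T + s * L ^ 2 + 6 * L ^ 2 * s + 3 * (x / L ^ 2) := by
    have : (#(PQ Q) : ℝ) * L ^ 2 ≤ s * L ^ 2 := by gcongr
    linarith
  have h1 : 7 * (s * L ^ 2) * Real.log Q ≤ x / 100 := by
    rw [← hs2]
    have h2 : 700 * L ^ 3 ≤ s := by
      calc 700 * L ^ 3 ≤ L * L ^ 3 := by gcongr; linarith
        _ = L ^ 4 := by ring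
        _ ≤ s := hL4
    calc 7 * (s * L ^ 2) * Real.log Q ≤ 7 * (s * L ^ 2) * L := by gcongr
      _ = s * (700 * L ^ 3) / 100 := by ring
      _ ≤ s * s / 100 := by gcongr
      _ = _ := by ring
  have h2 : 3 * (x / L ^ 2) * Real.log Q ≤ x / 100 := by
    calc 3 * (x / L ^ 2) * Real.log Q ≤ 3 * (x / L ^ 2) * L := by gcongr
      _ = x * 3 / L := by field_simp
      _ ≤ x * 3 / 1000 := by gcongr
      _ ≤ x / 100 := by linarith
  have h3 : (x : ℝ) / 3 * (3 / 10) ≤ x / 3 * (A * Real.log Q) := by gcongr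
  rw [div_le_iff₀ (by positivity)]
  have h4 : (x : ℝ) / 3 * (A * Real.log Q) ≤ (L * T + s * L ^ 2 + 6 * L ^ 2 * s + 3 * (x / L ^ 2))
      * Real.log Q := by
    calc (x : ℝ) / 3 * (A * Real.log Q) = (x / 3 * A) * Real.log Q := by ring
      _ ≤ _ := mul_le_mul_of_nonneg_right hmain hlogQ.le
  nlinarith

end

end Pool.Agent.helper85.BVP
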