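import Pool.Agent.helper85.BVP.Boxes

/-!
# Type II sums on average over prime moduli
-/

namespace Pool.Agent.helper85.BVP

open Finset Real ArithmeticFunction

lemma sum_ext_Ioc (G : ℕ → ℝ) (x U B : ℕ) (hU : ∀ a ≤ U, G a = 0) (hx : ∀ a, x < a → G a = 0)
    (hxB : x ≤ B) : ∑ a ∈ Ioc 0 x, G a = ∑ a ∈ Ioc U B, G a := by
  have h1 : ∑ a ∈ Ioc 0 x, G a = ∑ a ∈ Ioc 0 B, G a := by
    refine sum_subset (Ioc_subset_Ioc_right hxB) ?_
    intro a ha ha'
    rw [mem_Ioc] at ha ha'
    exact hx a (by omega)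
  have h2 : ∑ a ∈ Ioc U B, G a = ∑ a ∈ Ioc 0 B, G a := by
    refine sum_subset (Ioc_subset_Ioc_left (Nat.zero_le U)) ?_
    intro a ha ha'
    rw [mem_Ioc] at ha ha'
    exact hU a (by omega)
  rw [h1, h2]

/-- `|β|` as an arithmetic function. -/
noncomputable def absBeta (V : ℕ) : ArithmeticFunction ℝ := ⟨fun n => |beta V n|, by simp⟩

lemma absBeta_apply (V n : ℕ) : absBeta V n = |beta V n| := rfl

/-- the box bound. -/
noncomputable def BB (x U Q : ℕ) : ℝ :=
  20 * (1 + Real.log x) ^ 3 * ((x : ℝ) / Q + 2 * x / √U + Q * √x)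

theorem typeII (P : Finset ℕ) (hP : ∀ q ∈ P, q.Prime) (Q : ℕ) (hQ : 1 ≤ Q)
    (hPQ : ∀ q ∈ P, q ≤ Q) (hPQ' : ∀ q ∈ P, Q ≤ 2 * q) (c : ∀ q : ℕ, ZMod q)
    (hc : ∀ q ∈ P, c q ≠ 0) (x U K J : ℕ) (hU : 1 ≤ U) (W₀ : ℝ) (hW0 : 0 ≤ W₀)
    (hW : ∀ n ∈ Ioc 0 x, K * x < (K + 1) * n → ∑ q ∈ P, |ker q (c q) n| ≤ W₀)
    (hJ : x ≤ brk U K J) :
    ∑ q ∈ P, |∑ a ∈ Ioc 0 x, alpha U a * ∑ b ∈ Ioc 0 (x / a), beta U b * ker q (c q) (a * b)|
      ≤ J * BB x U Q + W₀ * ((1 + Real.log x)
        * (2 * (((x : ℝ) / (K + 1) + 1) * (1 + Real.log x) + √x))) := by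
  set B := brk U K with hB
  set w' : ℕ → ℝ := fun n => if K * x < (K + 1) * n then W₀ else 0 with hw'
  have hw0 : ∀ n, 0 ≤ w' n := by intro n; simp only [hw']; split_ifs <;> [exact hW0; exact le_rfl]
  -- pointwise decomposition
  have hdec : ∀ q ∈ P, |∑ a ∈ Ioc 0 x, alpha U a * ∑ b ∈ Ioc 0 (x / a), beta U b * ker q (c q) (a * b)|
      ≤ ∑ j ∈ range J, |∑ a ∈ Ioc (B j) (B (j + 1)), ∑ b ∈ Ioc 0 (x / B (j + 1)),
          alpha U a * beta U b * ker q (c q) (a * b)|
        + ∑ j ∈ range J, ∑ a ∈ Ioc (B j) (B (j + 1)), ∑ b ∈ Ioc (x / B (j + 1)) (x / a),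
          alpha U a * |beta U b| * |ker q (c q) (a * b)| := by
    intro q _
    rw [sum_ext_Ioc _ x U (B J) (fun a ha => by rw [alpha_apply, if_pos ha, zero_mul])
      (fun a ha => by rw [Nat.div_eq_of_lt ha, Ioc_self, sum_empty, mul_zero]) hJ, hB, sum_brk, ← hB,
      ← sum_add_distrib]
    refine (abs_sum_le_sum_abs _ _).trans (sum_le_sum fun j _ => ?_)
    have e : ∑ a ∈ Ioc (B j) (B (j + 1)), alpha U a * ∑ b ∈ Ioc 0 (x / a), beta U b * ker q (c q) (a * b)
        = ∑ a ∈ Ioc (B j) (B (j + 1)), ∑ b ∈ Ioc 0 (x / B (j + 1)),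
          alpha U a * beta U b * ker q (c q) (a * b)
        + ∑ a ∈ Ioc (B j) (B (j + 1)), ∑ b ∈ Ioc (x / B (j + 1)) (x / a),
          alpha U a * beta U b * ker q (c q) (a * b) := by
      rw [← sum_add_distrib]
      refine sum_congr rfl fun a ha => ?_
      rw [mem_Ioc] at ha
      rw [mul_sum, ← sum_Ioc_consecutive _ (Nat.zero_le (x / B (j + 1)))
        (Nat.div_le_div_left ha.2 (by omega))]
      congr 1
      · exact sum_congr rfl fun b _ => by ring
      · exact sum_congr rfl fun b _ => by ring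
    rw [e]
    refine (abs_add_le _ _).trans (add_le_add le_rfl ?_)
    refine (abs_sum_le_sum_abs _ _).trans (sum_le_sum fun a _ => ?_)
    refine (abs_sum_le_sum_abs _ _).trans (sum_le_sum fun b _ => ?_)
    rw [abs_mul, abs_mul, abs_of_nonneg (alpha_nonneg U a)]
  refine (sum_le_sum hdec).trans ?_
  rw [sum_add_distrib]
  refine add_le_add ?_ ?_
  · rw [sum_comm]
    have : ∀ j ∈ range J, ∑ q ∈ P, |∑ a ∈ Ioc (B j) (B (j + 1)), ∑ b ∈ Ioc 0 (x / B (j + 1)),
          alpha U a * beta U b * ker q (c q) (a * b)| ≤ BB x U Q := by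
      intro j _
      exact box_bound P hP Q hQ hPQ hPQ' c hc x U (B j) (B (j + 1)) hU (le_brk U K j) (brk_lt U K j).le
    refine (sum_le_sum this).trans (le_of_eq ?_)
    rw [sum_const, card_range, nsmul_eq_mul]
  -- boundary
  have h1 : ∑ q ∈ P, ∑ j ∈ range J, ∑ a ∈ Ioc (B j) (B (j + 1)), ∑ b ∈ Ioc (x / B (j + 1)) (x / a),
          alpha U a * |beta U b| * |ker q (c q) (a * b)|
      ≤ ∑ j ∈ range J, ∑ a ∈ Ioc (B j) (B (j + 1)),
        alpha U a * ∑ b ∈ Ioc 0 (x / a), absBeta U b * w' (a * b) := by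
    rw [sum_comm]
    refine sum_le_sum fun j _ => ?_
    rw [sum_comm]
    refine sum_le_sum fun a ha => ?_
    rw [sum_comm, mul_sum]
    rw [mem_Ioc] at ha
    have h2 : ∑ b ∈ Ioc (x / B (j + 1)) (x / a), ∑ q ∈ P, alpha U a * |beta U b| * |ker q (c q) (a * b)|
        ≤ ∑ b ∈ Ioc (x / B (j + 1)) (x / a), alpha U a * (absBeta U b * w' (a * b)) := by
      refine sum_le_sum fun b hb => ?_
      rw [mem_Ioc] at hb
      rw [← mul_sum, mul_assoc, absBeta_apply]
      refine mul_le_mul_of_nonneg_left ?_ (alpha_nonneg U a)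
      refine mul_le_mul_of_nonneg_left ?_ (abs_nonneg _)
      have ha0 : 0 < a := by omega
      have hb0 : 0 < b := lt_of_le_of_lt (Nat.zero_le _) hb.1
      have hab : a * b ≤ x := by
        rw [mul_comm]
        exact (Nat.le_div_iff_mul_le ha0).mp hb.2
      have hlt : x < b * B (j + 1) :=
        (Nat.div_lt_iff_lt_mul (by omega : 0 < B (j + 1))).mp hb.1
      have hKx : K * x < (K + 1) * (a * b) := by
        have h3 := brk_ratio U K j
        rw [← hB] at h3
        rcases Nat.eq_zero_or_pos K with hK | hK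
        · rw [hK, zero_mul, zero_add, one_mul]
          positivity
        calc K * x < K * (b * B (j + 1)) := by
              exact Nat.mul_lt_mul_of_pos_left hlt hK
          _ = b * (B (j + 1) * K) := by ring
          _ ≤ b * ((B j + 1) * (K + 1)) := Nat.mul_le_mul_left b h3
          _ ≤ b * (a * (K + 1)) := Nat.mul_le_mul_left b (Nat.mul_le_mul_right (K + 1) (by omega))
          _ = _ := by ring
      have hw : w' (a * b) = W₀ := by simp only [hw']; rw [if_pos hKx]
      rw [hw]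
      exact hW (a * b) (mem_Ioc.mpr ⟨by positivity, hab⟩) hKx
    refine h2.trans ?_
    refine sum_le_sum_of_subset_of_nonneg (Ioc_subset_Ioc_left (Nat.zero_le _)) ?_
    intro b _ _
    rw [absBeta_apply]
    exact mul_nonneg (alpha_nonneg U a) (mul_nonneg (abs_nonneg _) (hw0 _))
  refine h1.trans ?_
  rw [hB, ← sum_brk U K (fun a => alpha U a * ∑ b ∈ Ioc 0 (x / a), absBeta U b * w' (a * b)) J, ← hB,
    ← sum_ext_Ioc _ x U (B J) (fun a ha => by rw [alpha_apply, if_pos ha, zero_mul])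
      (fun a ha => by rw [Nat.div_eq_of_lt ha, Ioc_self, sum_empty, mul_zero]) hJ,
    ← conv_sum]
  set L := 1 + Real.log x with hL
  have hlog := Real.log_natCast_nonneg x
  set y := K * x / (K + 1) with hy
  have hyx : y ≤ x := by
    rw [hy]
    apply Nat.div_le_of_le_mul
    nlinarith
  have h2 : ∑ n ∈ Ioc 0 x, (alpha U * absBeta U) n * w' n ≤ ∑ n ∈ Ioc y x, W₀ * (L * tau n) := by
    have h3 : ∀ n ∈ Ioc 0 x, (alpha U * absBeta U) n * w' n
        ≤ if y < n then W₀ * (L * tau n) else 0 := by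
      intro n hn
      rw [mem_Ioc] at hn
      have h4 : (alpha U * absBeta U) n ≤ L * tau n := by
        rw [mul_apply]
        refine (alpha_conv_le U U n hn.1.ne').trans ?_
        refine mul_le_mul_of_nonneg_right ?_ (tau_nonneg n)
        have := log_nat_le hn.2
        linarith
      by_cases hyn : y < n
      · rw [if_pos hyn]
        have h5 : w' n ≤ W₀ := by simp only [hw']; split_ifs <;> [exact le_rfl; exact hW0]
        have h6 : 0 ≤ (alpha U * absBeta U) n := by
          rw [mul_apply]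
          exact sum_nonneg fun p _ => mul_nonneg (alpha_nonneg _ _) (abs_nonneg _)
        calc (alpha U * absBeta U) n * w' n ≤ (L * tau n) * W₀ :=
              mul_le_mul h4 h5 (hw0 n) (h6.trans h4)
          _ = _ := by ring
      · rw [if_neg hyn]
        have h5 : w' n = 0 := by
          simp only [hw']
          rw [if_neg]
          intro h
          apply hyn
          rw [hy]
          exact (Nat.div_lt_iff_lt_mul (by omega)).mpr (by rw [mul_comm n]; exact h)
        rw [h5, mul_zero]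
    refine (sum_le_sum h3).trans ?_
    rw [← sum_filter]
    refine sum_le_sum_of_subset_of_nonneg ?_ (fun n _ _ => mul_nonneg hW0
      (mul_nonneg (by linarith) (tau_nonneg n)))
    intro n hn
    rw [mem_filter, mem_Ioc] at hn
    rw [mem_Ioc]
    exact ⟨hn.2, hn.1.2⟩
  refine h2.trans ?_
  rw [← mul_sum, ← mul_sum]
  refine mul_le_mul_of_nonneg_left ?_ hW0
  refine mul_le_mul_of_nonneg_left ?_ (by linarith)
  refine (sum_tau_short y x hyx).trans ?_
  refine mul_le_mul_of_nonneg_left ?_ (by norm_num)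
  refine add_le_add ?_ ?_
  · refine mul_le_mul_of_nonneg_right ?_ (by linarith)
    have h3 : (K * x : ℝ) / (K + 1) < (y : ℝ) + 1 := by
      rw [div_lt_iff₀ (by positivity)]
      have : K * x < (y + 1) * (K + 1) := by
        rw [hy]
        have := Nat.div_add_mod (K * x) (K + 1)
        have := Nat.mod_lt (K * x) (by omega : 0 < K + 1)
        nlinarith
      exact_mod_cast this
    have h4 : (x : ℝ) - K * x / (K + 1) = x / (K + 1) := by
      field_simp
      ring
    linarith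
  · apply Real.le_sqrt_of_sq_le
    exact_mod_cast Nat.sqrt_le' x

end Pool.Agent.helper85.BVP
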